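import Mathlib

/-! Independence of the functions `(1 + c τ) ^ s`. -/

set_option autoImplicit false

namespace Pool.Agent.U773.PW

open Finset Filter Topology

lemma ev_pos (c : ℝ) : ∀ᶠ τ in 𝓝 (0 : ℝ), 0 < 1 + c * τ := by
  have h : Tendsto (fun τ : ℝ => 1 + c * τ) (𝓝 0) (𝓝 (1 + c * 0)) :=
    (continuous_const.add (continuous_const.mul continuous_id)).tendsto 0
  rw [mul_zero, add_zero] at h
  exact h.eventually (lt_mem_nhds one_pos)

lemma indep {n : ℕ} {s : ℝ} (hs : ∀ j : ℕ, s ≠ j) (c : Fin n → ℝ) (hc : Function.Injective c)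
    (γ : Fin n → ℝ) (h : ∃ᶠ τ in 𝓝[≠] (0 : ℝ), ∑ l, γ l * (1 + c l * τ) ^ s = 0) : γ = 0 := by
  have han : AnalyticAt ℝ (fun τ : ℝ => ∑ l, γ l * (1 + c l * τ) ^ s) 0 := by
    apply Finset.analyticAt_fun_sum
    intro l _
    apply AnalyticAt.mul analyticAt_const
    have h1 : AnalyticAt ℝ (fun τ : ℝ => 1 + c l * τ) 0 :=
      analyticAt_const.add (analyticAt_const.mul analyticAt_id)
    have h2 : AnalyticAt ℝ (fun τ : ℝ => Real.exp (Real.log (1 + c l * τ) * s)) 0 :=
      ((h1.log (by norm_num)).mul analyticAt_const).rexp'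
    refine h2.congr ?_
    filter_upwards [ev_pos (c l)] with τ hτ
    rw [Real.rpow_def_of_pos hτ]
  have hz : ∀ᶠ τ in 𝓝 (0 : ℝ), ∑ l, γ l * (1 + c l * τ) ^ s = 0 := by
    rcases han.eventually_eq_zero_or_eventually_ne_zero with h1 | h1
    · exact h1
    · exfalso
      obtain ⟨τ, h2, h3⟩ := (h.and_eventually h1).exists
      exact h3 h2
  have hall : ∀ j : ℕ, ∀ᶠ τ in 𝓝 (0 : ℝ),
      ∑ l, (γ l * c l ^ j) * (1 + c l * τ) ^ (s - j) = 0 := by
    intro j
    induction j with
    | zero => simpa using hz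
    | succ j ih =>
      have h1 : (fun τ : ℝ => ∑ l, (γ l * c l ^ j) * (1 + c l * τ) ^ (s - j)) =ᶠ[𝓝 0]
          fun _ => (0 : ℝ) := ih
      have h2 := h1.deriv
      have h3 : ∀ᶠ τ in 𝓝 (0 : ℝ), ∀ l, 0 < 1 + c l * τ :=
        Filter.eventually_all.2 fun l => ev_pos (c l)
      filter_upwards [h2, h3] with τ h4 h5
      have h6 : HasDerivAt (fun τ : ℝ => ∑ l, (γ l * c l ^ j) * (1 + c l * τ) ^ (s - j))
          (∑ l, (γ l * c l ^ j) * (c l * (s - j) * (1 + c l * τ) ^ (s - j - 1))) τ := by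
        apply HasDerivAt.fun_sum
        intro l _
        apply HasDerivAt.const_mul
        have h7 : HasDerivAt (fun τ : ℝ => 1 + c l * τ) (c l) τ := by
          simpa using ((hasDerivAt_id τ).const_mul (c l)).const_add 1
        exact h7.rpow_const (Or.inl (h5 l).ne')
      rw [h6.deriv] at h4
      simp only [deriv_const'] at h4
      have h8 : ∑ l, (γ l * c l ^ j) * (c l * (s - j) * (1 + c l * τ) ^ (s - j - 1)) =
          (s - j) * ∑ l, (γ l * c l ^ (j + 1)) * (1 + c l * τ) ^ (s - (j + 1 : ℕ)) := by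
        rw [Finset.mul_sum]
        refine Finset.sum_congr rfl fun l _ => ?_
        have : s - ((j + 1 : ℕ) : ℝ) = s - j - 1 := by push_cast; ring
        rw [this]
        ring
      rw [h8] at h4
      rcases mul_eq_zero.1 h4 with h9 | h9
      · exact absurd (sub_eq_zero.1 h9) (hs j)
      · exact h9
  apply Matrix.eq_zero_of_forall_pow_sum_mul_pow_eq_zero hc
  intro j
  have h1 := (hall j).self_of_nhds
  simpa using h1

end Pool.Agent.U773.PW
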