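import Mathlib
import Pool.Agent.U773.SF.Chn

/-! Chains of affine maps with a common denominator; the marked terms are prime to `p`. -/

set_option autoImplicit false

namespace Pool.Agent.U773.PW

open Finset Pool.Agent.U773.SF

/-- `d x (i+1) = m i x i + b r i` for `i < n`, the `m i` prime to `p` and at most `K`, the `r i` at
most `R` in absolute value -/
def Ch (p d K R : ℕ) (b : ℤ) (n : ℕ) (x : ℕ → ℤ) (m : ℕ → ℕ) (r : ℕ → ℤ) : Prop :=
  ∀ i < n, (1 ≤ m i ∧ m i ≤ K ∧ ¬ p ∣ m i) ∧ |r i| ≤ R ∧ (d : ℤ) * x (i + 1) = m i * x i + b * r i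

section

variable {p d K R : ℕ} {b : ℤ} {n : ℕ} {x : ℕ → ℤ} {m : ℕ → ℕ} {r : ℕ → ℤ}

lemma Ch.shift (h : Ch p d K R b n x m r) (s n' : ℕ) (hs : s + n' ≤ n) :
    Ch p d K R b n' (fun i => x (s + i)) (fun i => m (s + i)) (fun i => r (s + i)) := by
  intro i hi
  exact h (s + i) (by omega)

lemma Xs_succ (h : Ch p d K R b n x m r) {i : ℕ} (hi : i < n) :
    Xs d n m x (i + 1) = Xs d n m x i + (d : ℤ) ^ i * (∏ l ∈ Ico (i + 1) n, (m l : ℤ)) * (b * r i) := by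
  unfold Xs
  rw [Finset.prod_eq_prod_Ico_succ_bot hi]
  obtain ⟨-, -, h3⟩ := h i hi
  have h4 : b * r i = (d : ℤ) * x (i + 1) - m i * x i := by rw [h3]; ring
  rw [h4]
  ring

lemma prod_not_dvd (hp : p.Prime) (h : Ch p d K R b n x m r) (i : ℕ) :
    ¬ (p : ℤ) ∣ ∏ l ∈ Ico i n, (m l : ℤ) := by
  intro hd
  have hpi : Prime (p : ℤ) := Nat.prime_iff_prime_int.1 hp
  obtain ⟨l, hl, h1⟩ := (Prime.dvd_finsetProd_iff hpi _).1 hd
  have h2 := (h l (mem_Ico.1 hl).2).1.2.2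
  exact h2 (by exact_mod_cast h1)

/-- the terms with a common denominator are nearly equal -/
lemma Xs_close (h : Ch p d K R b n x m r) (hd0 : d ≠ 0) {μ : ℝ} (hμ : 0 < μ)
    (hmin : ∀ i ≤ n, μ ≤ |(x i : ℝ)|) (hz : 2 * n * (|(b : ℝ)| * R / μ) ≤ 1) :
    ∀ i ≤ n, |(Xs d n m x i : ℝ) - Xs d n m x 0| ≤
      2 * i * (|(b : ℝ)| * R / μ) * |(Xs d n m x 0 : ℝ)| := by
  set z : ℝ := |(b : ℝ)| * R / μ with hzd
  have hz0 : 0 ≤ z := by positivity
  have hstep : ∀ i < n, |(Xs d n m x (i + 1) : ℝ) - Xs d n m x i| ≤ z * |(Xs d n m x i : ℝ)| := by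
    intro i hi
    rw [Xs_succ h hi]
    obtain ⟨⟨h1, -, -⟩, h2, -⟩ := h i hi
    have e0 : (Xs d n m x i : ℝ) = (d : ℝ) ^ i * ((m i : ℝ) * ∏ l ∈ Ico (i + 1) n, (m l : ℝ)) * x i := by
      unfold Xs
      rw [Finset.prod_eq_prod_Ico_succ_bot hi]
      push_cast
      ring
    have e1 : ((Xs d n m x i + (d : ℤ) ^ i * (∏ l ∈ Ico (i + 1) n, (m l : ℤ)) * (b * r i) : ℤ) : ℝ) -
        Xs d n m x i = (d : ℝ) ^ i * (∏ l ∈ Ico (i + 1) n, (m l : ℝ)) * (b * r i) := by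
      push_cast
      ring
    rw [e1, e0]
    have hQ : 0 ≤ ∏ l ∈ Ico (i + 1) n, (m l : ℝ) := Finset.prod_nonneg fun l _ => Nat.cast_nonneg _
    have hD : 0 ≤ (d : ℝ) ^ i := by positivity
    rw [abs_mul, abs_mul, abs_mul, abs_mul, abs_mul, abs_mul, abs_of_nonneg hQ, abs_of_nonneg hD]
    have h3 : |(r i : ℝ)| ≤ R := by exact_mod_cast h2
    have h4 : |(b : ℝ)| * |(r i : ℝ)| ≤ z * μ := by
      have : z * μ = |(b : ℝ)| * R := by rw [hzd]; field_simp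
      rw [this]
      gcongr
    have h5 : (1 : ℝ) ≤ |(m i : ℝ)| := by
      rw [abs_of_nonneg (Nat.cast_nonneg _)]
      exact_mod_cast h1
    have h6 := hmin i hi.le
    have hDQ : 0 ≤ (d : ℝ) ^ i * ∏ l ∈ Ico (i + 1) n, (m l : ℝ) := mul_nonneg hD hQ
    calc (d : ℝ) ^ i * (∏ l ∈ Ico (i + 1) n, (m l : ℝ)) * (|(b : ℝ)| * |(r i : ℝ)|)
        ≤ (d : ℝ) ^ i * (∏ l ∈ Ico (i + 1) n, (m l : ℝ)) * (z * μ) := by gcongr
      _ ≤ (d : ℝ) ^ i * (∏ l ∈ Ico (i + 1) n, (m l : ℝ)) * (z * (|(m i : ℝ)| * |(x i : ℝ)|)) := by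
          gcongr
          calc μ = 1 * μ := by ring
            _ ≤ |(m i : ℝ)| * |(x i : ℝ)| := by gcongr
      _ = _ := by ring
  intro i
  induction i with
  | zero => intro _; simp
  | succ i ih =>
    intro hi
    have h1 := ih (by omega)
    have h2 := hstep i (by omega)
    set a : ℝ := |(Xs d n m x 0 : ℝ)| with ha
    have ha0 : 0 ≤ a := abs_nonneg _
    have h3 : |(Xs d n m x i : ℝ)| ≤ 2 * a := by
      have e1 : (Xs d n m x i : ℝ) = (Xs d n m x i - Xs d n m x 0) + Xs d n m x 0 := by ring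
      rw [e1]
      have e2 : 2 * (i : ℝ) * z * a ≤ 1 * a := by
        apply mul_le_mul_of_nonneg_right _ ha0
        refine le_trans ?_ hz
        have : (i : ℝ) ≤ n := by exact_mod_cast (by omega : i ≤ n)
        gcongr
      calc |(Xs d n m x i - Xs d n m x 0 : ℝ) + Xs d n m x 0|
          ≤ |(Xs d n m x i - Xs d n m x 0 : ℝ)| + a := abs_add_le _ _
        _ ≤ _ := by linarith
    have e3 : (Xs d n m x (i + 1) : ℝ) - Xs d n m x 0 =
        (Xs d n m x (i + 1) - Xs d n m x i) + (Xs d n m x i - Xs d n m x 0) := by ring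
    rw [e3]
    calc |(Xs d n m x (i + 1) - Xs d n m x i : ℝ) + (Xs d n m x i - Xs d n m x 0)|
        ≤ |(Xs d n m x (i + 1) - Xs d n m x i : ℝ)| + |(Xs d n m x i - Xs d n m x 0 : ℝ)| :=
          abs_add_le _ _
      _ ≤ z * (2 * a) + 2 * i * z * a := by
          have : z * |(Xs d n m x i : ℝ)| ≤ z * (2 * a) := by gcongr
          linarith
      _ = _ := by push_cast; ring

lemma Xs_zero_le (h : Ch p d K R b n x m r) : |(Xs d n m x 0 : ℝ)| ≤ (K : ℝ) ^ n * |(x 0 : ℝ)| := by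
  unfold Xs
  push_cast
  rw [pow_zero, one_mul, abs_mul]
  gcongr
  rw [abs_of_nonneg (Finset.prod_nonneg fun l _ => Nat.cast_nonneg _)]
  calc ∏ l ∈ Ico 0 n, (m l : ℝ) ≤ ∏ _l ∈ Ico 0 n, (K : ℝ) := by
        apply Finset.prod_le_prod
        · intro l _; exact Nat.cast_nonneg _
        · intro l hl
          exact_mod_cast (h l (mem_Ico.1 hl).2).1.2.1
    _ = _ := by rw [Finset.prod_const]; simp

lemma le_Xs_zero (h : Ch p d K R b n x m r) : |(x 0 : ℝ)| ≤ |(Xs d n m x 0 : ℝ)| := by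
  unfold Xs
  push_cast
  rw [pow_zero, one_mul, abs_mul]
  have : (1 : ℝ) ≤ |∏ l ∈ Ico 0 n, (m l : ℝ)| := by
    rw [abs_of_nonneg (Finset.prod_nonneg fun l _ => Nat.cast_nonneg _)]
    have h1 : 1 ≤ ∏ l ∈ Ico 0 n, m l :=
      Finset.one_le_prod' fun l hl => (h l (mem_Ico.1 hl).2).1.1
    exact_mod_cast h1
  have h2 := abs_nonneg (x 0 : ℝ)
  nlinarith

/-- the factor between `x i` and `Xs i` -/
lemma fac_ne (h : Ch p d K R b n x m r) (hd0 : d ≠ 0) (i : ℕ) :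
    (d : ℤ) ^ i * (∏ l ∈ Ico i n, (m l : ℤ)) ≠ 0 := by
  refine mul_ne_zero (pow_ne_zero _ (by exact_mod_cast hd0))
    (prod_ne_zero_iff.2 fun l hl => ?_)
  have := (h l (mem_Ico.1 hl).2).1.1
  have h2 : m l ≠ 0 := by omega
  exact_mod_cast h2

lemma Xs_ne (h : Ch p d K R b n x m r) (hd0 : d ≠ 0) {i : ℕ} (hx : x i ≠ 0) :
    Xs d n m x i ≠ 0 := by
  unfold Xs
  exact mul_ne_zero (fac_ne h hd0 i) hx

/-- the factor is composed of the primes of `S` -/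
lemma fac_prime {S : Finset ℕ} (h : Ch p d K R b n x m r)
    (hdS : ∀ q : ℕ, q.Prime → q ∣ d → q ∈ S) (hK : ∀ q : ℕ, q.Prime → q ≤ K → q ∈ S)
    (i : ℕ) : ∀ q : ℕ, q.Prime → (q : ℤ) ∣ (d : ℤ) ^ i * (∏ l ∈ Ico i n, (m l : ℤ)) → q ∈ S := by
  intro q hq hqd
  rw [Int.natCast_dvd, Int.natAbs_mul, hq.dvd_mul] at hqd
  rcases hqd with h1 | h1
  · rw [Int.natAbs_pow, Int.natAbs_natCast] at h1
    exact hdS q hq (hq.dvd_of_dvd_pow h1)
  · have h2 : (∏ l ∈ Ico i n, (m l : ℤ)).natAbs = ∏ l ∈ Ico i n, m l := by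
      rw [← Nat.cast_prod]
      exact Int.natAbs_natCast _
    rw [h2] at h1
    obtain ⟨l, hl, h3⟩ := (hq.prime.dvd_finsetProd_iff _).1 h1
    obtain ⟨h4, h5, -⟩ := (h l (mem_Ico.1 hl).2).1
    exact hK q hq ((Nat.le_of_dvd (by omega) h3).trans h5)

/-- the exponent of `p` in `Xs i` for a marked index -/
lemma Xs_val (hp : p.Prime) (hd0 : d ≠ 0) (h : Ch p d K R b n x m r) {i : ℕ}
    (hx : ¬ (p : ℤ) ∣ x i) : padicValInt p (Xs d n m x i) = i * padicValNat p d := by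
  have := Fact.mk hp
  unfold Xs
  have hx0 : x i ≠ 0 := by rintro h0; rw [h0] at hx; exact hx (dvd_zero _)
  have hm0 : (∏ l ∈ Ico i n, (m l : ℤ)) ≠ 0 := by
    intro h0
    exact prod_not_dvd hp h i (h0 ▸ dvd_zero _)
  have hdi : (d : ℤ) ^ i ≠ 0 := pow_ne_zero _ (by exact_mod_cast hd0)
  rw [padicValInt.mul (mul_ne_zero hdi hm0) hx0, padicValInt.mul hdi hm0,
    padicValInt.eq_zero_of_not_dvd hx, padicValInt.eq_zero_of_not_dvd (prod_not_dvd hp h i)]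
  have h1 : padicValInt p ((d : ℤ) ^ i) = i * padicValNat p d := by
    unfold padicValInt
    rw [Int.natAbs_pow, Int.natAbs_natCast, padicValNat.pow]
  rw [h1]
  omega

end

end Pool.Agent.U773.PW
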