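import Mathlib
import Pool.Agent.U773.PW.Chn
import Pool.Agent.U773.SF.Sep

/-! The subspace theorem for numbers `a l * Z l ^ e` which are nearly equal. -/

set_option autoImplicit false

namespace Pool.Agent.U773.PW

open Finset Filter Topology Pool.Agent.TH419.WI Pool.Agent.N671.OPN Pool.Agent.U773.SF

/-- the matrix of the forms `β 0 Z 0, β l Z l - β 0 Z 0` -/
def Mb {O : Type} [CommRing O] (k : ℕ) (β : Fin (k + 1) → O) :
    Matrix (Fin (k + 1)) (Fin (k + 1)) O := fun l j =>
  (if j = l then β l else 0) - (if j = 0 then (if l = 0 then 0 else β 0) else 0)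

lemma Mb_det {O : Type} [CommRing O] (k : ℕ) (β : Fin (k + 1) → O) :
    (Mb k β).det = ∏ l, β l := by
  rw [Matrix.det_of_isLowerTriangular]
  · apply Finset.prod_congr rfl
    intro i _
    unfold Mb
    by_cases h : i = 0
    · simp [h]
    · simp [h]
  · intro i j hij
    simp only [OrderDual.toDual_lt_toDual] at hij
    unfold Mb
    have h1 : j ≠ i := ne_of_gt hij
    have h2 : j ≠ 0 := by
      intro h
      rw [h] at hij
      exact absurd hij (Fin.not_lt_zero _)
    simp [h1, h2]

lemma Mb_sum {O : Type} [CommRing O] (k : ℕ) (β X : Fin (k + 1) → O) (l : Fin (k + 1)) :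
    ∑ j, Mb k β l j * X j = β l * X l - (if l = 0 then 0 else β 0 * X 0) := by
  unfold Mb
  simp only [sub_mul, Finset.sum_sub_distrib, ite_mul, zero_mul]
  rw [Finset.sum_ite_eq' , Finset.sum_ite_eq']
  simp

/-- `|u - v| v ^ (e - 1) ≤ |u ^ e - v ^ e|` -/
lemma root_close {u v : ℝ} (hu : 0 ≤ u) (hv : 0 ≤ v) (e : ℕ) :
    |u - v| * v ^ e ≤ |u ^ (e + 1) - v ^ (e + 1)| := by
  have h1 : u ^ (e + 1) - v ^ (e + 1) = (∑ i ∈ range (e + 1), u ^ i * v ^ (e + 1 - 1 - i)) * (u - v) :=
    (Commute.geom_sum₂_mul (Commute.all u v) (e + 1)).symm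
  rw [h1, abs_mul, mul_comm]
  gcongr
  have h2 : v ^ e ≤ ∑ i ∈ range (e + 1), u ^ i * v ^ (e + 1 - 1 - i) := by
    have h3 := Finset.single_le_sum (f := fun i => u ^ i * v ^ (e + 1 - 1 - i))
      (s := range (e + 1)) (fun i _ => by positivity) (mem_range.2 (Nat.succ_pos e))
    simpa using h3
  exact h2.trans (le_abs_self _)

theorem core (O : Type) [CommRing O] [IsDomain O] [CharZero O] [Module.Free ℤ O]
    [Module.Finite ℤ O] (φ : O →+* ℂ) {S : Finset ℕ} (hS : ∀ p ∈ S, p.Prime) {k e : ℕ}
    (hk : 1 ≤ k) (a : Fin (k + 1) → ℕ) (β : Fin (k + 1) → O) (ρ : Fin (k + 1) → ℝ)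
    (hβ : ∀ l, φ (β l) = ρ l) (hρ : ∀ l, 0 < ρ l) (hρe : ∀ l, ρ l ^ (e + 1) = a l)
    (ε : ℝ) (hε : 0 < ε) (c0 : ℝ) (X0 N Λ : ℕ → ℝ) (Z : ℕ → Fin (k + 1) → ℕ)
    (hX0 : ∀ t, 1 ≤ X0 t) (hN0 : ∀ t, 0 ≤ N t) (hX0up : ∀ t, Real.log (X0 t) ≤ c0 * N t)
    (hH : ∀ t : ℕ, Real.log ((t : ℝ) + 1) + ε * N t +
      ∑ l, Real.log (free S ((Z t l : ℕ) : ℤ)) ≤ k * Λ t)
    (hΛN : ∀ t, Λ t ≤ N t) (hZ : ∀ t l, Z t l ≠ 0)
    (hcl : ∀ᶠ t in atTop, ∀ l, |((a l : ℝ) * (Z t l : ℝ) ^ (e + 1)) - X0 t| ≤
      2 * N t * Real.exp (-Λ t) * X0 t) :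
    ∃ y : Fin (k + 1) → ℤ, y ≠ 0 ∧ ∃ᶠ t in atTop, ∑ l, y l * (Z t l : ℤ) = 0 := by
  have hk0 : (0 : ℝ) < k := by exact_mod_cast hk
  have hfree : ∀ t l, (1 : ℝ) ≤ free S ((Z t l : ℕ) : ℤ) := fun t l => by
    exact_mod_cast free_pos hS (by exact_mod_cast hZ t l)
  have hsumlog : ∀ t, 0 ≤ ∑ l, Real.log (free S ((Z t l : ℕ) : ℤ)) := fun t =>
    Finset.sum_nonneg fun l _ => Real.log_nonneg (hfree t l)
  have hNt : Tendsto N atTop atTop := by
    have h1 : ∀ t : ℕ, Real.log ((t : ℝ) + 1) / k ≤ N t := by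
      intro t
      rw [div_le_iff₀ hk0]
      have h2 := hH t
      have h3 := hΛN t
      have h4 := hsumlog t
      have h5 : 0 ≤ ε * N t := mul_nonneg hε.le (hN0 t)
      nlinarith
    refine tendsto_atTop_mono h1 ?_
    apply Tendsto.atTop_div_const hk0
    exact Real.tendsto_log_atTop.comp (tendsto_atTop_add_const_right _ _ tendsto_natCast_atTop_atTop)
  have hΛlow : ∀ t, ε / k * N t ≤ Λ t := by
    intro t
    have h2 := hH t
    have h4 := hsumlog t
    have h5 : 0 ≤ Real.log ((t : ℝ) + 1) := Real.log_nonneg (by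
      have : (0 : ℝ) ≤ t := Nat.cast_nonneg _
      linarith)
    rw [div_mul_eq_mul_div, div_le_iff₀ hk0]
    linarith
  have hsmall : ∀ η : ℝ, 0 < η → ∀ᶠ t in atTop, 2 * N t * Real.exp (-Λ t) ≤ η := by
    intro η hη
    have h1 : Tendsto (fun y : ℝ => 2 * (y * Real.exp (-(ε / k * y)))) atTop (𝓝 (2 * 0)) := by
      apply Tendsto.const_mul
      have h2 := Real.tendsto_pow_mul_exp_neg_atTop_nhds_zero 1
      have h3 : Tendsto (fun y : ℝ => ε / k * y) atTop atTop :=
        Tendsto.const_mul_atTop (by positivity) tendsto_id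
      have h4 := (h2.comp h3).const_mul ((ε / k)⁻¹)
      rw [mul_zero] at h4
      refine h4.congr fun y => ?_
      simp only [Function.comp_apply, pow_one]
      have : ε / k ≠ 0 := by positivity
      field_simp
    rw [mul_zero] at h1
    have h5 := (h1.comp hNt).eventually (gt_mem_nhds hη)
    filter_upwards [h5] with t ht
    refine le_trans ?_ ht.le
    simp only [Function.comp_apply]
    have h7 : Real.exp (-Λ t) ≤ Real.exp (-(ε / k * N t)) := Real.exp_le_exp.2 (by
      linarith [hΛlow t])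
    calc 2 * N t * Real.exp (-Λ t) = 2 * (N t * Real.exp (-Λ t)) := by ring
      _ ≤ 2 * (N t * Real.exp (-(ε / k * N t))) := by
        have := Real.exp_pos (-Λ t)
        have := hN0 t
        gcongr
  -- roots
  set χ : ℕ → ℝ := fun t => X0 t ^ (((e + 1 : ℕ) : ℝ)⁻¹) with hχ
  have hχe : ∀ t, χ t ^ (e + 1) = X0 t := by
    intro t
    simp only [hχ]
    rw [← Real.rpow_natCast, ← Real.rpow_mul (by linarith [hX0 t]), inv_mul_cancel₀ (by
      positivity), Real.rpow_one]
  have hχ1 : ∀ t, 1 ≤ χ t := fun t => Real.one_le_rpow (hX0 t) (by positivity)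
  have hlχ0 : ∀ t, 0 ≤ Real.log (χ t) := fun t => Real.log_nonneg (hχ1 t)
  have hlχ : ∀ t, Real.log (χ t) ≤ c0 * N t := by
    intro t
    refine le_trans ?_ (hX0up t)
    rw [← hχe t, Real.log_pow]
    have h1 := hlχ0 t
    push_cast
    nlinarith [mul_nonneg (Nat.cast_nonneg (α := ℝ) e) h1]
  have hρ1 : ∀ l, 1 ≤ ρ l := by
    intro l
    by_contra h
    push Not at h
    have h1 : ρ l ^ (e + 1) < 1 := pow_lt_one₀ (hρ l).le h (by omega)
    have h2 : 0 < ρ l ^ (e + 1) := pow_pos (hρ l) _
    rw [hρe] at h1 h2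
    have h3 : a l < 1 := by exact_mod_cast h1
    have h4 : 0 < a l := by exact_mod_cast h2
    omega
  have hpos : ∀ t l, (1 : ℝ) ≤ Z t l := fun t l => by
    exact_mod_cast Nat.one_le_iff_ne_zero.2 (hZ t l)
  -- closeness of the roots
  have hcl2 : ∀ᶠ t in atTop, ∀ l, |ρ l * Z t l - χ t| ≤ 2 * N t * Real.exp (-Λ t) * χ t := by
    filter_upwards [hcl] with t ht l
    have h1 := ht l
    have h2 : (a l : ℝ) * (Z t l : ℝ) ^ (e + 1) = (ρ l * Z t l) ^ (e + 1) := by
      rw [mul_pow, hρe]
    rw [h2, ← hχe t] at h1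
    have h3 := root_close (u := ρ l * Z t l) (v := χ t) (by
      have := hρ l
      positivity) (by linarith [hχ1 t]) e
    have h4 : 0 < χ t ^ e := pow_pos (by linarith [hχ1 t]) _
    have h5 : |ρ l * Z t l - χ t| * χ t ^ e ≤ (2 * N t * Real.exp (-Λ t) * χ t) * χ t ^ e := by
      refine (h3.trans h1).trans (le_of_eq ?_)
      ring
    exact le_of_mul_le_mul_right h5 h4
  have hXup : ∀ᶠ t in atTop, ∀ l, ρ l * (Z t l : ℝ) ≤ 2 * χ t ∧ χ t ≤ 2 * (ρ l * (Z t l : ℝ)) := by
    filter_upwards [hsmall (1 / 2) (by norm_num), hcl2] with t ht hc l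
    have h1 := hc l
    have h2 : 2 * N t * Real.exp (-Λ t) * χ t ≤ 1 / 2 * χ t := by
      have := hχ1 t
      gcongr
    have h3 := abs_le.1 (h1.trans h2)
    constructor <;> linarith [h3.1, h3.2]
  set A : ℕ → Fin (k + 1) → ℝ := fun t l =>
    if l = 0 then 2 * χ t else 4 * N t * Real.exp (-Λ t) * χ t with hA
  have hNlarge : ∀ᶠ t in atTop, 1 ≤ N t := hNt.eventually_ge_atTop 1
  set sρ : ℝ := ∑ l, Real.log (ρ l) with hsρ
  have hsρ0 : 0 ≤ sρ := Finset.sum_nonneg fun l _ => Real.log_nonneg (hρ1 l)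
  have hl2 : Real.log 2 ≤ 1 := by
    have := Real.log_two_lt_d9
    linarith
  have hl20 : 0 ≤ Real.log 2 := Real.log_nonneg (by norm_num)
  have hl4 : Real.log 4 = 2 * Real.log 2 := by
    rw [show (4 : ℝ) = 2 ^ 2 by norm_num, Real.log_pow]; norm_num
  have hnum : ∀ᶠ t in atTop, (k + 2) * Real.log 2 + k * (Real.log 4 + Real.log (N t)) + sρ +
      ε / 2 * N t ≤ ε * N t := by
    have h1 : Tendsto (fun y : ℝ => (Real.log y) / y) atTop (𝓝 0) :=
      Real.isLittleO_log_id_atTop.tendsto_div_nhds_zero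
    have h2 := (h1.comp hNt).eventually (gt_mem_nhds (show (0 : ℝ) < ε / (4 * k) by positivity))
    have h3 := hNt.eventually_ge_atTop (4 / ε * ((k + 2) * Real.log 2 + k * Real.log 4 + sρ))
    filter_upwards [h2, h3, hNlarge] with t e1 e2 e3
    simp only [Function.comp_apply] at e1
    rw [div_lt_iff₀ (by linarith)] at e1
    have e4 : (k : ℝ) * Real.log (N t) ≤ ε / 4 * N t := by
      calc (k : ℝ) * Real.log (N t) ≤ k * (ε / (4 * k) * N t) := by gcongr
        _ = ε / 4 * N t := by field_simp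
    have e5 : (k + 2) * Real.log 2 + k * Real.log 4 + sρ ≤ ε / 4 * N t := by
      calc (k + 2) * Real.log 2 + k * Real.log 4 + sρ
          = ε / 4 * (4 / ε * ((k + 2) * Real.log 2 + k * Real.log 4 + sρ)) := by field_simp
        _ ≤ _ := by gcongr
    nlinarith
  have hc00 : 0 ≤ c0 := by
    obtain ⟨t, ht⟩ := (hNlarge).exists
    have h1 := (hlχ0 t).trans (hlχ t)
    by_contra h
    push Not at h
    nlinarith
  set c : ℝ := (k + 1) * (10 + c0) with hc
  have hkk : (1 : ℝ) ≤ k + 1 := by linarith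
  have hc1 : 10 + c0 ≤ c := by rw [hc]; nlinarith
  have hspX : ∀ t l, Real.log ((mon (gS S) (fun v => (Z t l).factorization (gS S v)) : ℤ) : ℝ) =
      Real.log (Z t l : ℝ) - Real.log (free S ((Z t l : ℕ) : ℤ)) := by
    intro t l
    rw [mon_spart]
    have h1 := free_mul_spart hS ((Z t l : ℕ) : ℤ)
    rw [Int.natAbs_natCast] at h1
    have h2 : (Z t l : ℝ) = (free S ((Z t l : ℕ) : ℤ) : ℝ) * spart S (Z t l) := by
      rw [← Nat.cast_mul, h1]
    have h4 : (0 : ℝ) < spart S (Z t l) := by exact_mod_cast spart_pos hS _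
    rw [h2, Real.log_mul (by linarith [hfree t l]) h4.ne']
    have h5 : (free S ((Z t l : ℕ) : ℤ) : ℝ) * spart S (Z t l) = Z t l := h2.symm
    push_cast
    ring
  have key := subDiag O φ (n := k + 1) (k := S.card) (by omega) (gS S) (gS_pos hS)
    (Mb k β) (by
      rw [Mb_det]
      refine Finset.prod_ne_zero_iff.2 fun l _ h0 => ?_
      have h1 := hβ l
      rw [h0, map_zero] at h1
      have h2 : ρ l = 0 := by exact_mod_cast h1.symm
      exact (hρ l).ne' h2) (by
      intro i j
      unfold Mb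
      rw [map_sub]
      split_ifs <;> simp [hβ]) c (ε / 2)
    (by linarith) (by positivity) N hNt
    (fun t l v => (Z t l).factorization (gS S v)) A
    (fun t l => ((Z t l / spart S (Z t l) : ℕ) : ℤ))
    (by
      filter_upwards [hXup, hNlarge] with t ht hN1
      calc ∑ l, Real.log ((mon (gS S) (fun v => (Z t l).factorization (gS S v)) : ℤ) : ℝ)
          ≤ ∑ _l : Fin (k + 1), (10 + c0) * N t := by
            refine Finset.sum_le_sum fun l _ => ?_
            rw [hspX]
            have h1 := (ht l).1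
            have h2 : (Z t l : ℝ) ≤ 2 * χ t := by
              have h20 := hρ1 l
              have h21 := hpos t l
              nlinarith
            have h3 := Real.log_le_log (by linarith [hpos t l]) h2
            rw [Real.log_mul (by norm_num) (by linarith [hχ1 t])] at h3
            have h4 := hlχ t
            have h5 := Real.log_nonneg (hfree t l)
            nlinarith
        _ = c * N t := by
            rw [Finset.sum_const, Finset.card_univ, Fintype.card_fin, nsmul_eq_mul, hc]
            push_cast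
            ring)
    (by
      filter_upwards [hNlarge] with t hN1 l
      have := hχ1 t
      simp only [hA]
      split_ifs
      · linarith
      · positivity)
    (by
      filter_upwards [hNlarge] with t hN1 l
      have h1 := hχ1 t
      have h2 := hlχ t
      have h3 : 0 ≤ Real.log (χ t) := hlχ0 t
      have h4 := hΛN t
      have h5 : 0 ≤ Λ t := le_trans (by have := hN0 t; positivity) (hΛlow t)
      have h6 : Real.log (N t) ≤ N t := (Real.log_le_sub_one_of_pos (by linarith)).trans (by linarith)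
      have h7 : 0 ≤ Real.log (N t) := Real.log_nonneg hN1
      have hcN : (10 + c0) * N t ≤ c * N t := by gcongr
      simp only [hA]
      split_ifs
      · rw [Real.log_mul (by norm_num) (by linarith), abs_of_nonneg (by linarith)]
        nlinarith
      · rw [Real.log_mul (by positivity) (by linarith), Real.log_mul (by positivity)
          (Real.exp_pos _).ne', Real.log_mul (by norm_num) (by linarith), Real.log_exp]
        rw [abs_le]
        constructor <;> nlinarith)
    (by
      filter_upwards [hXup, hNlarge, hnum] with t ht hN1 hnumt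
      have h1 := hχ1 t
      have hAsum : ∑ l, Real.log (A t l) = Real.log 2 + Real.log (χ t) +
          k * (Real.log 4 + Real.log (N t) - Λ t + Real.log (χ t)) := by
        rw [Fin.sum_univ_succ]
        simp only [hA, if_true, Fin.succ_ne_zero, if_false]
        rw [Finset.sum_const, Finset.card_univ, Fintype.card_fin, nsmul_eq_mul,
          Real.log_mul (by norm_num) (by linarith), Real.log_mul (by positivity) (by linarith),
          Real.log_mul (by positivity) (Real.exp_pos _).ne', Real.log_mul (by norm_num) (by linarith),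
          Real.log_exp]
        ring
      have hBsum : (k + 1) * (Real.log (χ t) - Real.log 2) - sρ -
            ∑ l, Real.log (free S ((Z t l : ℕ) : ℤ)) ≤
          ∑ l, Real.log ((mon (gS S) (fun v => (Z t l).factorization (gS S v)) : ℤ) : ℝ) := by
        have h2 : (k + 1) * (Real.log (χ t) - Real.log 2) - sρ -
            ∑ l, Real.log (free S ((Z t l : ℕ) : ℤ)) =
            ∑ l : Fin (k + 1), ((Real.log (χ t) - Real.log 2) - Real.log (ρ l) -
              Real.log (free S ((Z t l : ℕ) : ℤ))) := by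
          rw [Finset.sum_sub_distrib, Finset.sum_sub_distrib, Finset.sum_const, Finset.card_univ,
            Fintype.card_fin, nsmul_eq_mul]
          push_cast
          ring
        rw [h2]
        refine Finset.sum_le_sum fun l _ => ?_
        rw [hspX]
        have h3 := Real.log_le_log (by linarith) (ht l).2
        have h4 := hpos t l
        rw [Real.log_mul (by norm_num) (by have := hρ l; positivity), Real.log_mul (hρ l).ne'
          (by linarith)] at h3
        linarith
      have hH := hH t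
      have h5 : 0 ≤ Real.log ((t : ℝ) + 1) := Real.log_nonneg (by
        have : (0 : ℝ) ≤ t := Nat.cast_nonneg _
        linarith)
      refine le_trans ?_ hBsum
      rw [hAsum]
      nlinarith)
    (by
      filter_upwards with t h0
      have h1 := congrFun h0 0
      simp only [Pi.zero_apply] at h1
      have h2 : spart S (Z t 0) ∣ Z t 0 := by
        have := spart_dvd hS (Z t 0)
        exact this
      have h3 := Nat.div_mul_cancel h2
      have h4 : Z t 0 / spart S (Z t 0) = 0 := by exact_mod_cast h1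
      rw [h4, zero_mul] at h3
      exact hZ t 0 h3.symm)
    (by
      filter_upwards [hXup, hcl2, hNlarge] with t ht hc' hN1 l
      have h1 : ∀ j', ((mon (gS S) (fun v => (Z t j').factorization (gS S v)) *
          ((Z t j' / spart S (Z t j') : ℕ) : ℤ) : ℤ) : O) = ((Z t j' : ℤ) : O) := fun j' => by
        rw [mon_spart, ← Nat.cast_mul, Nat.mul_div_cancel' (spart_dvd hS _)]
      simp only [h1]
      rw [Mb_sum k β (fun j => ((Z t j : ℤ) : O)) l]
      have h2 : φ (β l * ((Z t l : ℤ) : O) - if l = 0 then 0 else β 0 * ((Z t 0 : ℤ) : O)) =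
          ((ρ l * Z t l - (if l = 0 then 0 else ρ 0 * Z t 0) : ℝ) : ℂ) := by
        rw [map_sub, map_mul, hβ, map_intCast]
        split_ifs
        · simp
        · rw [map_mul, hβ, map_intCast]
          push_cast
          rfl
      rw [h2, Complex.norm_real, Real.norm_eq_abs]
      simp only [hA]
      split_ifs with hl
      · rw [sub_zero, abs_of_nonneg (by have := hρ l; positivity)]
        exact (ht l).1
      · have h3 := hc' l
        have h4 := hc' 0
        have h5 : ρ l * (Z t l : ℝ) - ρ 0 * Z t 0 = (ρ l * Z t l - χ t) - (ρ 0 * Z t 0 - χ t) := by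
          ring
        rw [h5]
        calc |(ρ l * (Z t l : ℝ) - χ t) - (ρ 0 * Z t 0 - χ t)|
            ≤ |ρ l * (Z t l : ℝ) - χ t| + |ρ 0 * (Z t 0 : ℝ) - χ t| := abs_sub _ _
          _ ≤ 2 * N t * Real.exp (-Λ t) * χ t + 2 * N t * Real.exp (-Λ t) * χ t := add_le_add h3 h4
          _ = _ := by ring)
  obtain ⟨y, hy, hfr⟩ := key
  refine ⟨y, hy, hfr.mono fun t ht => ?_⟩
  rw [← ht]
  refine Finset.sum_congr rfl fun l _ => ?_
  rw [mon_spart, ← Nat.cast_mul, Nat.mul_div_cancel' (spart_dvd hS _)]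

end Pool.Agent.U773.PW
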