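import Mathlib

/-! Powers times integers composed of a finite set of primes. -/

set_option autoImplicit false

namespace Pool.Agent.U773.PW

/-- `x` is the product of an integer composed of primes of `S` and of the `e`-th power of an
integer of absolute value at most `Y` -/
def Pw (S : Finset ℕ) (e : ℕ) (Y : ℝ) (x : ℤ) : Prop :=
  ∃ u y : ℤ, x = u * y ^ e ∧ (∀ q : ℕ, q.Prime → (q : ℤ) ∣ u → q ∈ S) ∧ |(y : ℝ)| ≤ Y

lemma Pw.mono {S S' : Finset ℕ} {e : ℕ} {Y Y' : ℝ} {x : ℤ} (h : Pw S e Y x) (hS : S ⊆ S')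
    (hY : Y ≤ Y') : Pw S' e Y' x := by
  obtain ⟨u, y, h1, h2, h3⟩ := h
  exact ⟨u, y, h1, fun q hq hqu => hS (h2 q hq hqu), h3.trans hY⟩

end Pool.Agent.U773.PW
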