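import Mathlib
import Pool.Agent.U773.PW.Core
import Pool.Agent.U773.PW.Def

/-! Relations between the terms of chains. -/

set_option autoImplicit false

namespace Pool.Agent.U773.PW

open Finset Filter Topology NumberField Pool.Agent.N671.OPN Pool.Agent.U773.SF

lemma exists_field {n e : ℕ} (a : Fin n → ℕ) (ρ : Fin n → ℝ) (hρe : ∀ l, ρ l ^ (e + 1) = a l) :
    ∃ (K : IntermediateField ℚ ℂ) (_ : NumberField K) (β : Fin n → 𝓞 K),
      ∀ l, ((algebraMap (𝓞 K) K (β l) : K) : ℂ) = ρ l := by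
  have hint : ∀ l, IsIntegral ℤ (ρ l : ℂ) := by
    intro l
    refine ⟨Polynomial.X ^ (e + 1) - Polynomial.C (a l : ℤ), Polynomial.monic_X_pow_sub_C _ (by omega), ?_⟩
    simp only [Polynomial.eval₂_sub, Polynomial.eval₂_pow, Polynomial.eval₂_X, Polynomial.eval₂_C]
    have h1 : ((ρ l : ℂ)) ^ (e + 1) = a l := by exact_mod_cast hρe l
    rw [h1]
    simp
  have hintQ : ∀ l, IsIntegral ℚ (ρ l : ℂ) := fun l => (hint l).tower_top
  set K : IntermediateField ℚ ℂ := IntermediateField.adjoin ℚ (Set.range fun l => (ρ l : ℂ)) with hK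
  have hfd : FiniteDimensional ℚ K := by
    apply IntermediateField.finiteDimensional_adjoin
    rintro x ⟨l, rfl⟩
    exact hintQ l
  have hnf : NumberField K := { to_charZero := inferInstance, to_finiteDimensional := hfd }
  have hmem : ∀ l, (ρ l : ℂ) ∈ K := fun l =>
    IntermediateField.subset_adjoin ℚ _ ⟨l, rfl⟩
  have hi2 : ∀ l, IsIntegral ℤ (⟨(ρ l : ℂ), hmem l⟩ : K) := by
    intro l
    have h1 := hint l
    have h2 : Function.Injective (algebraMap K ℂ) := (algebraMap K ℂ).injective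
    rw [← isIntegral_algebraMap_iff (B := ℂ) h2]
    exact h1
  exact ⟨K, hnf, fun l => ⟨⟨(ρ l : ℂ), hmem l⟩, hi2 l⟩, fun l => rfl⟩

lemma small_ev {k : ℕ} (hk : 1 ≤ k) {ε : ℝ} (hε : 0 < ε) {N Λ L : ℕ → ℝ}
    (hN0 : ∀ t, 0 ≤ N t) (hL : ∀ t, 0 ≤ L t)
    (hH : ∀ t : ℕ, Real.log ((t : ℝ) + 1) + ε * N t + L t ≤ k * Λ t)
    (hΛN : ∀ t, Λ t ≤ N t) : ∀ η : ℝ, 0 < η → ∀ᶠ t in atTop, 2 * N t * Real.exp (-Λ t) ≤ η := by
  have hk0 : (0 : ℝ) < k := by exact_mod_cast hk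
  have hNt : Tendsto N atTop atTop := by
    have h1 : ∀ t : ℕ, Real.log ((t : ℝ) + 1) / k ≤ N t := by
      intro t
      rw [div_le_iff₀ hk0]
      have h2 := hH t
      have h3 := hΛN t
      have h4 := hL t
      have h5 : 0 ≤ ε * N t := mul_nonneg hε.le (hN0 t)
      nlinarith
    refine tendsto_atTop_mono h1 ?_
    apply Tendsto.atTop_div_const hk0
    exact Real.tendsto_log_atTop.comp (tendsto_atTop_add_const_right _ _ tendsto_natCast_atTop_atTop)
  have hΛlow : ∀ t, ε / k * N t ≤ Λ t := by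
    intro t
    have h2 := hH t
    have h4 := hL t
    have h5 : 0 ≤ Real.log ((t : ℝ) + 1) := Real.log_nonneg (by
      have : (0 : ℝ) ≤ t := Nat.cast_nonneg _
      linarith)
    rw [div_mul_eq_mul_div, div_le_iff₀ hk0]
    linarith
  intro η hη
  have h1 : Tendsto (fun y : ℝ => 2 * (y * Real.exp (-(ε / k * y)))) atTop (𝓝 (2 * 0)) := by
    apply Tendsto.const_mul
    have h2 := Real.tendsto_pow_mul_exp_neg_atTop_nhds_zero 1
    have h3 : Tendsto (fun y : ℝ => ε / k * y) atTop atTop :=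
      Tendsto.const_mul_atTop (by positivity) tendsto_id
    have h4 := (h2.comp h3).const_mul ((ε / k)⁻¹)
    rw [mul_zero] at h4
    refine h4.congr fun y => ?_
    simp only [Function.comp_apply, pow_one]
    have : ε / k ≠ 0 := by positivity
    field_simp
  rw [mul_zero] at h1
  have h5 := (h1.comp hNt).eventually (gt_mem_nhds hη)
  filter_upwards [h5] with t ht
  refine le_trans ?_ ht.le
  simp only [Function.comp_apply]
  have h7 : Real.exp (-Λ t) ≤ Real.exp (-(ε / k * N t)) := Real.exp_le_exp.2 (by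
    linarith [hΛlow t])
  calc 2 * N t * Real.exp (-Λ t) = 2 * (N t * Real.exp (-Λ t)) := by ring
    _ ≤ 2 * (N t * Real.exp (-(ε / k * N t))) := by
      have := Real.exp_pos (-Λ t)
      have := hN0 t
      gcongr

/-- **The relation.** -/
theorem rel {S : Finset ℕ} (hS : ∀ p ∈ S, p.Prime) {p d K R : ℕ} (hd0 : d ≠ 0) {k e : ℕ}
    (hk : 1 ≤ k) (a : Fin (k + 1) → ℕ) (ε : ℝ) (hε : 0 < ε)
    (n : ℕ → ℕ) (x : ℕ → ℕ → ℤ) (m : ℕ → ℕ → ℕ) (r : ℕ → ℕ → ℤ) (b : ℕ → ℤ) (μ Y : ℕ → ℝ)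
    (j : ℕ → Fin (k + 1) → ℕ) (Z : ℕ → Fin (k + 1) → ℕ)
    (hch : ∀ t, Ch p d K R (b t) (n t) (x t) (m t) (r t)) (hbR : ∀ t, 1 ≤ |(b t : ℝ)| * R)
    (hμ : ∀ t, 0 < μ t) (hmin : ∀ t, ∀ i ≤ n t, μ t ≤ |(x t i : ℝ)|)
    (hj : ∀ t l, j t l ≤ n t) (hZ : ∀ t l, Z t l ≠ 0)
    (hX : ∀ t l, |(Xs d (n t) (m t) (x t) (j t l) : ℝ)| = a l * (Z t l : ℝ) ^ (e + 1))
    (hfree : ∀ t l, (free S ((Z t l : ℕ) : ℤ) : ℝ) ≤ Y t)
    (hbig : ∀ t : ℕ, ((t : ℝ) + 1) * Real.exp (ε * (n t + Real.log (1 + |(x t 0 : ℝ)|))) *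
      Y t ^ (k + 1) < (μ t / (|(b t : ℝ)| * R)) ^ k) :
    (∃ y : Fin (k + 1) → ℤ, y ≠ 0 ∧ ∃ᶠ t in atTop, ∑ l, y l * (Z t l : ℤ) = 0) ∧
      Tendsto (fun t => |(b t : ℝ)| * R / μ t) atTop (𝓝 0) := by
  have hx0 : ∀ t i, i ≤ n t → x t i ≠ 0 := by
    intro t i hi h0
    have h1 := hmin t i hi
    rw [h0] at h1
    simp at h1
    linarith [hμ t]
  set N : ℕ → ℝ := fun t => (n t : ℝ) + Real.log (1 + |(x t 0 : ℝ)|) with hN
  set Λ : ℕ → ℝ := fun t => Real.log (μ t / (|(b t : ℝ)| * R)) with hΛ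
  have hfree1 : ∀ t l, (1 : ℝ) ≤ free S ((Z t l : ℕ) : ℤ) := fun t l => by
    exact_mod_cast free_pos hS (by exact_mod_cast hZ t l)
  have hY1 : ∀ t, 1 ≤ Y t := fun t => (hfree1 t 0).trans (hfree t 0)
  have hlog0 : ∀ t, 0 ≤ Real.log (1 + |(x t 0 : ℝ)|) := fun t =>
    Real.log_nonneg (by linarith [abs_nonneg (x t 0 : ℝ)])
  have hN0 : ∀ t, 0 ≤ N t := fun t => add_nonneg (Nat.cast_nonneg _) (hlog0 t)
  have hquo : ∀ t, 0 < μ t / (|(b t : ℝ)| * R) := fun t =>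
    div_pos (hμ t) (by linarith [hbR t])
  have hH1 : ∀ t : ℕ, Real.log ((t : ℝ) + 1) + ε * N t +
      ∑ l, Real.log (free S ((Z t l : ℕ) : ℤ)) ≤ k * Λ t := by
    intro t
    have hY0 : 0 < Y t := by linarith [hY1 t]
    have h1 := (Real.log_le_log (by positivity) (hbig t).le)
    rw [Real.log_pow, Real.log_mul (by positivity) (by positivity),
      Real.log_mul (by positivity) (Real.exp_pos _).ne', Real.log_exp, Real.log_pow] at h1
    have h2 : ∑ l, Real.log (free S ((Z t l : ℕ) : ℤ)) ≤ ((k + 1 : ℕ) : ℝ) * Real.log (Y t) := by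
      calc ∑ l, Real.log (free S ((Z t l : ℕ) : ℤ)) ≤ ∑ _l : Fin (k + 1), Real.log (Y t) := by
            refine Finset.sum_le_sum fun l _ => ?_
            exact Real.log_le_log (by linarith [hfree1 t l]) (hfree t l)
        _ = _ := by simp
    simp only [hN, hΛ]
    linarith
  have hsumlog : ∀ t, 0 ≤ ∑ l, Real.log (free S ((Z t l : ℕ) : ℤ)) := fun t =>
    Finset.sum_nonneg fun l _ => Real.log_nonneg (hfree1 t l)
  have hΛN : ∀ t, Λ t ≤ N t := by
    intro t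
    have h1 : μ t / (|(b t : ℝ)| * R) ≤ 1 + |(x t 0 : ℝ)| := by
      have h2 := hmin t 0 (Nat.zero_le _)
      calc μ t / (|(b t : ℝ)| * R) ≤ μ t / 1 := by
            have := hμ t
            have := hbR t
            gcongr
        _ ≤ _ := by rw [div_one]; linarith
    have h3 := Real.log_le_log (hquo t) h1
    have : (0 : ℝ) ≤ n t := Nat.cast_nonneg _
    simp only [hN, hΛ]
    linarith
  have hsm := small_ev hk hε hN0 hsumlog hH1 hΛN
  have hZe : ∀ t, |(b t : ℝ)| * R / μ t = Real.exp (-Λ t) := by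
    intro t
    simp only [hΛ]
    rw [Real.exp_neg, Real.exp_log (hquo t), inv_div]
  set X0 : ℕ → ℝ := fun t => |(Xs d (n t) (m t) (x t) 0 : ℝ)| with hX0
  have hX0low : ∀ t, 1 ≤ X0 t := by
    intro t
    refine le_trans ?_ (le_Xs_zero (hch t))
    have : 1 ≤ |x t 0| := Int.one_le_abs (hx0 t 0 (Nat.zero_le _))
    exact_mod_cast this
  set LK : ℝ := Real.log (K + 1) with hLK
  have hLK0 : 0 ≤ LK := Real.log_nonneg (by
    have : (0 : ℝ) ≤ K := Nat.cast_nonneg _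
    linarith)
  have hX0up : ∀ t, Real.log (X0 t) ≤ (1 + LK) * N t := by
    intro t
    have h1 : X0 t ≤ ((K : ℝ) + 1) ^ n t * (1 + |(x t 0 : ℝ)|) := by
      refine (Xs_zero_le (hch t)).trans ?_
      have := abs_nonneg (x t 0 : ℝ)
      gcongr
      · linarith
      · linarith
    have h2 := Real.log_le_log (by linarith [hX0low t]) h1
    rw [Real.log_mul (by positivity) (by positivity), Real.log_pow] at h2
    have h3 : (n t : ℝ) ≤ N t := by
      have := hlog0 t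
      simp only [hN]
      linarith
    have h4 : Real.log (1 + |(x t 0 : ℝ)|) ≤ N t := by
      have : (0 : ℝ) ≤ n t := Nat.cast_nonneg _
      simp only [hN]
      linarith
    calc Real.log (X0 t) ≤ n t * LK + Real.log (1 + |(x t 0 : ℝ)|) := h2
      _ ≤ N t * LK + N t := by gcongr
      _ = _ := by ring
  have hcl : ∀ᶠ t in atTop, ∀ l, |((a l : ℝ) * (Z t l : ℝ) ^ (e + 1)) - X0 t| ≤
      2 * N t * Real.exp (-Λ t) * X0 t := by
    filter_upwards [hsm 1 one_pos] with t ht l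
    have hnN : (n t : ℝ) ≤ N t := by
      have := hlog0 t
      simp only [hN]
      linarith
    have h1 := Xs_close (hch t) hd0 (hμ t) (hmin t) (by
      rw [hZe t]
      refine le_trans ?_ ht
      have := Real.exp_pos (-Λ t)
      gcongr) (j t l) (hj t l)
    rw [← hX t l]
    refine (abs_abs_sub_abs_le_abs_sub _ _).trans (h1.trans ?_)
    rw [hZe t]
    have h2 : (j t l : ℝ) ≤ n t := by exact_mod_cast hj t l
    have h3 : 0 ≤ X0 t := by linarith [hX0low t]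
    have h4 := Real.exp_pos (-Λ t)
    have h5 := h2.trans hnN
    gcongr
  have hZ1 : ∀ l, a l ≠ 0 := by
    intro l h0
    have h1 := hX 0 l
    rw [h0] at h1
    simp only [Nat.cast_zero, zero_mul, abs_eq_zero, Int.cast_eq_zero] at h1
    exact Xs_ne (hch 0) hd0 (hx0 0 _ (hj 0 l)) h1
  set ρ : Fin (k + 1) → ℝ := fun l => (a l : ℝ) ^ (((e + 1 : ℕ) : ℝ)⁻¹) with hρ
  have hρ0 : ∀ l, 0 < ρ l := fun l => by
    have : (0 : ℝ) < a l := by exact_mod_cast Nat.pos_of_ne_zero (hZ1 l)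
    positivity
  have hρe : ∀ l, ρ l ^ (e + 1) = a l := by
    intro l
    simp only [hρ]
    rw [← Real.rpow_natCast, ← Real.rpow_mul (Nat.cast_nonneg _), inv_mul_cancel₀ (by
      positivity), Real.rpow_one]
  obtain ⟨F, hF, β, hβ⟩ := exists_field a ρ hρe
  refine ⟨core (𝓞 F) ((algebraMap F ℂ).comp (algebraMap (𝓞 F) F)) hS hk a β ρ
    (fun l => hβ l) hρ0 hρe ε hε (1 + LK) X0 N Λ Z hX0low hN0 hX0up hH1 hΛN hZ hcl, ?_⟩
  -- the limit
  have hNlow : ∀ t, 1 / 2 * Real.log 2 ≤ N t := by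
    intro t
    have h1 : (1 : ℝ) ≤ |(x t 0 : ℝ)| := by
      have : 1 ≤ |x t 0| := Int.one_le_abs (hx0 t 0 (Nat.zero_le _))
      exact_mod_cast this
    have h2 : Real.log 2 ≤ Real.log (1 + |(x t 0 : ℝ)|) := Real.log_le_log (by norm_num) (by linarith)
    have h3 : (0 : ℝ) ≤ n t := Nat.cast_nonneg _
    have h4 := Real.log_nonneg (show (1 : ℝ) ≤ 2 by norm_num)
    simp only [hN]
    linarith
  rw [Metric.tendsto_atTop]
  intro η hη
  have h1 := hsm (η * Real.log 2 / 2) (by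
    have := Real.log_pos (show (1 : ℝ) < 2 by norm_num)
    positivity)
  obtain ⟨T, hT⟩ := eventually_atTop.1 h1
  refine ⟨T, fun t ht => ?_⟩
  have h2 := hT t ht
  rw [dist_zero_right, Real.norm_eq_abs, hZe t, abs_of_pos (Real.exp_pos _)]
  have h3 := hNlow t
  have h4 := Real.exp_pos (-Λ t)
  have h5 := Real.log_pos (show (1 : ℝ) < 2 by norm_num)
  have h6 : 2 * (1 / 2 * Real.log 2) * Real.exp (-Λ t) ≤ η * Real.log 2 / 2 := by
    refine le_trans ?_ h2
    gcongr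
  have h7 : Real.log 2 * Real.exp (-Λ t) ≤ Real.log 2 * (η / 2) := by linarith
  have h8 := le_of_mul_le_mul_left h7 h5
  linarith

end Pool.Agent.U773.PW
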