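import Mathlib
import Pool.Agent.U773.PW.Rel

/-! Splitting off powers; the constants of short windows. -/

set_option autoImplicit false

namespace Pool.Agent.U773.PW

open Finset Pool.Agent.N671.OPN Pool.Agent.U773.SF

lemma split {S : Finset ℕ} (hS : ∀ p ∈ S, p.Prime) (e : ℕ) {w : ℕ} (hw : w ≠ 0)
    (h : ∀ p : ℕ, p.Prime → p ∣ w → p ∈ S) :
    ∃ a V : ℕ, w = a * V ^ (e + 1) ∧ a ≠ 0 ∧ a ≤ ∏ q ∈ S, q ^ (e + 1) ∧ V ≠ 0 ∧
      ∀ p : ℕ, p.Prime → p ∣ V → p ∈ S := by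
  refine ⟨∏ q ∈ S, q ^ (w.factorization q % (e + 1)), ∏ q ∈ S, q ^ (w.factorization q / (e + 1)),
    ?_, ?_, ?_, ?_, ?_⟩
  · have h1 := spart_self hS hw h
    unfold spart at h1
    conv_lhs => rw [← h1]
    rw [← Finset.prod_pow, ← Finset.prod_mul_distrib]
    refine Finset.prod_congr rfl fun q _ => ?_
    rw [← pow_mul, ← pow_add]
    congr 1
    have := Nat.mod_add_div (w.factorization q) (e + 1)
    rw [mul_comm (e + 1)] at this
    omega
  · exact Finset.prod_ne_zero_iff.2 fun q hq => pow_ne_zero _ (hS q hq).ne_zero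
  · apply Finset.prod_le_prod'
    intro q hq
    exact Nat.pow_le_pow_right (hS q hq).pos (Nat.mod_lt _ (by omega)).le
  · exact Finset.prod_ne_zero_iff.2 fun q hq => pow_ne_zero _ (hS q hq).ne_zero
  · intro p hp hpd
    obtain ⟨q, hq, h1⟩ := (hp.prime.dvd_finsetProd_iff _).1 hpd
    have h2 := hp.dvd_of_dvd_pow h1
    rwa [(Nat.prime_dvd_prime_iff_eq hp (hS q hq)).1 h2]

/-- the numbers `a` and `Z` of a term -/
lemma terms {S : Finset ℕ} (hS : ∀ p ∈ S, p.Prime) {p d K R : ℕ} {b : ℤ} {n : ℕ} {x : ℕ → ℤ}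
    {m : ℕ → ℕ} {r : ℕ → ℤ} (h : Ch p d K R b n x m r) (hd0 : d ≠ 0)
    (hdS : ∀ q : ℕ, q.Prime → q ∣ d → q ∈ S) (hK : ∀ q : ℕ, q.Prime → q ≤ K → q ∈ S)
    {e i : ℕ} (hx : x i ≠ 0) {Y : ℝ} (hP : Pw S (e + 1) Y (x i)) :
    ∃ a Z : ℕ, a ≤ ∏ q ∈ S, q ^ (e + 1) ∧ a ≠ 0 ∧ Z ≠ 0 ∧
      |(Xs d n m x i : ℝ)| = a * (Z : ℝ) ^ (e + 1) ∧ (free S ((Z : ℕ) : ℤ) : ℝ) ≤ Y := by
  obtain ⟨u, y, hxy, hu, hY⟩ := hP
  have hu0 : u ≠ 0 := by
    rintro rfl
    rw [zero_mul] at hxy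
    exact hx hxy
  have hy0 : y ≠ 0 := by
    rintro rfl
    rw [zero_pow (by omega), mul_zero] at hxy
    exact hx hxy
  set F : ℤ := (d : ℤ) ^ i * (∏ l ∈ Ico i n, (m l : ℤ)) with hF
  have hF0 : F ≠ 0 := fac_ne h hd0 i
  have hFu : (F * u).natAbs ≠ 0 := Int.natAbs_ne_zero.2 (mul_ne_zero hF0 hu0)
  obtain ⟨a, V, h1, h2, h3, h4, h5⟩ := split hS e hFu (by
    intro q hq hqd
    rw [Int.natAbs_mul, hq.dvd_mul] at hqd
    rcases hqd with h6 | h6
    · exact fac_prime h hdS hK i q hq (Int.natCast_dvd.2 h6)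
    · exact hu q hq (Int.natCast_dvd.2 h6))
  have hya : y.natAbs ≠ 0 := Int.natAbs_ne_zero.2 hy0
  refine ⟨a, V * y.natAbs, h3, h2, Nat.mul_ne_zero h4 hya, ?_, ?_⟩
  · have h6 : Xs d n m x i = (F * u) * y ^ (e + 1) := by
      unfold Xs
      rw [hxy, hF]
      ring
    have h7 : |(Xs d n m x i : ℝ)| = ((Xs d n m x i).natAbs : ℝ) := by
      rw [Nat.cast_natAbs, Int.cast_abs]
    rw [h7, h6, Int.natAbs_mul, Int.natAbs_pow, h1]
    push_cast
    ring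
  · have h6 : free S ((V * y.natAbs : ℕ) : ℤ) = free S (y.natAbs : ℤ) := by
      rw [Nat.cast_mul, free_mul hS (Int.natCast_ne_zero.2 h4) (Int.natCast_ne_zero.2 hya),
        free_unit hS
        (by exact_mod_cast h4) (by
          intro q hq hqd
          rw [Int.natAbs_natCast] at hqd
          exact h5 q hq hqd), one_mul]
    rw [h6]
    refine (free_le_abs S _).trans ?_
    refine le_trans (le_of_eq ?_) hY
    rw [Int.cast_natCast, Nat.abs_cast, Nat.cast_natAbs, Int.cast_abs]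

/-- the coefficient of `b` in `d ^ i x i` -/
def Bs (d : ℕ) (m : ℕ → ℕ) (r : ℕ → ℤ) : ℕ → ℤ
  | 0 => 0
  | i + 1 => m i * Bs d m r i + (d : ℤ) ^ i * r i

section

variable {p d K R : ℕ} {b : ℤ} {n : ℕ} {x : ℕ → ℤ} {m : ℕ → ℕ} {r : ℕ → ℤ}

lemma chain_eq (h : Ch p d K R b n x m r) : ∀ i ≤ n,
    (d : ℤ) ^ i * x i = (∏ l ∈ range i, (m l : ℤ)) * x 0 + b * Bs d m r i := by
  intro i
  induction i with
  | zero => intro _; simp [Bs]
  | succ i ih =>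
    intro hi
    have h1 := ih (by omega)
    obtain ⟨-, -, h2⟩ := h i (by omega)
    rw [Finset.prod_range_succ, Bs]
    calc (d : ℤ) ^ (i + 1) * x (i + 1) = (d : ℤ) ^ i * ((d : ℤ) * x (i + 1)) := by ring
      _ = m i * ((d : ℤ) ^ i * x i) + b * ((d : ℤ) ^ i * r i) := by rw [h2]; ring
      _ = _ := by rw [h1]; ring

lemma Bs_le (h : Ch p d K R b n x m r) (hd0 : d ≠ 0) : ∀ i ≤ n,
    |Bs d m r i| ≤ (i : ℤ) * (((K : ℤ) + 1) * d) ^ i * R := by
  intro i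
  induction i with
  | zero => intro _; simp [Bs]
  | succ i ih =>
    intro hi
    have h1 := ih (by omega)
    obtain ⟨⟨h3, h4, -⟩, h5, -⟩ := h i (by omega)
    have hd1 : (1 : ℤ) ≤ d := by exact_mod_cast Nat.one_le_iff_ne_zero.2 hd0
    have hK0 : (0 : ℤ) ≤ K := Int.natCast_nonneg _
    have hR0 : (0 : ℤ) ≤ R := Int.natCast_nonneg _
    have hP : (0 : ℤ) ≤ (((K : ℤ) + 1) * d) ^ i := by positivity
    have hm : (m i : ℤ) ≤ K := by exact_mod_cast h4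
    have hdd : (d : ℤ) ^ i ≤ (((K : ℤ) + 1) * d) ^ i := by
      apply pow_le_pow_left₀ (by omega)
      nlinarith
    rw [Bs]
    calc |(m i : ℤ) * Bs d m r i + (d : ℤ) ^ i * r i|
        ≤ |(m i : ℤ) * Bs d m r i| + |(d : ℤ) ^ i * r i| := abs_add_le _ _
      _ = (m i : ℤ) * |Bs d m r i| + (d : ℤ) ^ i * |r i| := by
          rw [abs_mul, abs_mul, abs_of_nonneg (Int.natCast_nonneg _),
            abs_of_nonneg (by positivity : (0 : ℤ) ≤ (d : ℤ) ^ i)]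
      _ ≤ K * ((i : ℤ) * (((K : ℤ) + 1) * d) ^ i * R) + (((K : ℤ) + 1) * d) ^ i * R := by
          gcongr
      _ = (K * i + 1) * ((((K : ℤ) + 1) * d) ^ i * R) := by ring
      _ ≤ ((i + 1 : ℕ) * (((K : ℤ) + 1) * d)) * ((((K : ℤ) + 1) * d) ^ i * R) := by
          apply mul_le_mul_of_nonneg_right _ (by positivity)
          push_cast
          have hi0 : (0 : ℤ) ≤ i := Int.natCast_nonneg _
          have e1 : ((i : ℤ) + 1) * (((K : ℤ) + 1) * 1) ≤ ((i : ℤ) + 1) * (((K : ℤ) + 1) * d) := by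
            gcongr
          nlinarith
      _ = _ := by rw [pow_succ]; ring

lemma prod_range_le (h : Ch p d K R b n x m r) (i : ℕ) (hi : i ≤ n) :
    1 ≤ (∏ l ∈ range i, (m l : ℤ)) ∧ (∏ l ∈ range i, (m l : ℤ)) ≤ ((K : ℤ) + 1) ^ i := by
  have h1 : ∀ l ∈ range i, 1 ≤ m l ∧ m l ≤ K := fun l hl =>
    ⟨(h l (by have := mem_range.1 hl; omega)).1.1, (h l (by have := mem_range.1 hl; omega)).1.2.1⟩
  constructor
  · have : 1 ≤ ∏ l ∈ range i, m l := Finset.one_le_prod' fun l hl => (h1 l hl).1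
    exact_mod_cast this
  · calc (∏ l ∈ range i, (m l : ℤ)) ≤ ∏ _l ∈ range i, ((K : ℤ) + 1) := by
          apply Finset.prod_le_prod
          · intro l _; exact Int.natCast_nonneg _
          · intro l hl
            have := (h1 l hl).2
            have : (m l : ℤ) ≤ K := by exact_mod_cast this
            linarith
      _ = _ := by simp

lemma prod_Ico_le (h : Ch p d K R b n x m r) (i : ℕ) (hi : i ≤ n) :
    0 ≤ (∏ l ∈ Ico i n, (m l : ℤ)) ∧ (∏ l ∈ Ico i n, (m l : ℤ)) ≤ ((K : ℤ) + 1) ^ n := by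
  constructor
  · exact Finset.prod_nonneg fun l _ => Int.natCast_nonneg _
  · have h1 := (prod_range_le h n le_rfl).2
    have h2 := (prod_range_le h i hi).1
    have h3 : (∏ l ∈ range i, (m l : ℤ)) * (∏ l ∈ Ico i n, (m l : ℤ)) = ∏ l ∈ range n, (m l : ℤ) :=
      Finset.prod_range_mul_prod_Ico _ hi
    have h4 : 0 ≤ (∏ l ∈ Ico i n, (m l : ℤ)) := Finset.prod_nonneg fun l _ => Int.natCast_nonneg _
    nlinarith

lemma Xs_lin (h : Ch p d K R b n x m r) (i : ℕ) (hi : i ≤ n) :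
    Xs d n m x i = (∏ l ∈ range n, (m l : ℤ)) * x 0 + b * ((∏ l ∈ Ico i n, (m l : ℤ)) * Bs d m r i) := by
  have h1 := chain_eq h i hi
  have h3 : (∏ l ∈ range i, (m l : ℤ)) * (∏ l ∈ Ico i n, (m l : ℤ)) = ∏ l ∈ range n, (m l : ℤ) :=
    Finset.prod_range_mul_prod_Ico _ hi
  unfold Xs
  calc (d : ℤ) ^ i * (∏ l ∈ Ico i n, (m l : ℤ)) * x i
      = (∏ l ∈ Ico i n, (m l : ℤ)) * ((d : ℤ) ^ i * x i) := by ring
    _ = _ := by rw [h1, ← h3]; ring

end

end Pool.Agent.U773.PW
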