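import Mathlib
import Pool.Agent.U773.PW.Split

/-! Marked terms with large gaps. -/

set_option autoImplicit false

namespace Pool.Agent.U773.PW

open Finset Filter Topology Pool.Agent.N671.OPN Pool.Agent.U773.SF

/-- no relation between terms with large gaps -/
lemma no_rel {k e p D : ℕ} (hp : p.Prime) (hD : 1 ≤ D) (a Z j : Fin (k + 1) → ℕ)
    (hZ : ∀ l, Z l ≠ 0)
    (hval : ∀ l, padicValNat p (a l) + (e + 1) * padicValNat p (Z l) = j l * D)
    (y : Fin (k + 1) → ℤ) (hy : y ≠ 0) (G : ℕ) (hgap : ∀ l l', l < l' → j l + G < j l')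
    (hG : ∑ l, padicValNat p (a l) + (e + 1) * ∑ l, (y l).natAbs ≤ G) :
    ∑ l, y l * (Z l : ℤ) ≠ 0 := by
  intro hrel
  have := Fact.mk hp
  have hex : (univ.filter fun l => y l ≠ 0).Nonempty := by
    obtain ⟨l, hl⟩ := Function.ne_iff.1 hy
    exact ⟨l, mem_filter.2 ⟨mem_univ _, hl⟩⟩
  set l0 := (univ.filter fun l => y l ≠ 0).min' hex with hl0
  have hl0y : y l0 ≠ 0 := (mem_filter.1 (min'_mem _ hex)).2
  have hl0m : ∀ l, l < l0 → y l = 0 := by
    intro l hl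
    by_contra hne
    have h0 : l ∈ univ.filter fun l => y l ≠ 0 := mem_filter.2 ⟨mem_univ _, hne⟩
    have := min'_le _ l h0
    exact absurd hl (not_lt.2 this)
  set v := padicValNat p (Z l0) with hv
  set c := v + (y l0).natAbs + 1 with hc
  have h1 : ((p ^ c : ℕ) : ℤ) ∣ y l0 * (Z l0 : ℤ) := by
    rw [← Finset.add_sum_erase _ _ (mem_univ l0)] at hrel
    have h3 : y l0 * (Z l0 : ℤ) = -∑ l ∈ univ.erase l0, y l * (Z l : ℤ) := by linarith
    rw [h3, dvd_neg]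
    apply Finset.dvd_sum
    intro l hl
    rcases lt_or_gt_of_ne (mem_erase.1 hl).1 with h4 | h4
    · rw [hl0m l h4, zero_mul]
      exact dvd_zero _
    · apply Dvd.dvd.mul_left
      apply Int.natCast_dvd_natCast.2
      rw [padicValNat_dvd_iff_le (hZ l)]
      have e1 := hval l
      have e2 := hval l0
      have e3 := hgap l0 l h4
      have e4 : padicValNat p (a l) ≤ ∑ l, padicValNat p (a l) :=
        Finset.single_le_sum (f := fun l => padicValNat p (a l)) (fun _ _ => Nat.zero_le _)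
          (mem_univ l)
      have e5 : (y l0).natAbs ≤ ∑ l, (y l).natAbs :=
        Finset.single_le_sum (f := fun l => (y l).natAbs) (fun _ _ => Nat.zero_le _)
          (mem_univ l0)
      have e6 : (e + 1) * (y l0).natAbs ≤ (e + 1) * ∑ l, (y l).natAbs := Nat.mul_le_mul_left _ e5
      have e7 : (j l0 + G + 1) * D ≤ j l * D := Nat.mul_le_mul_right _ (by omega)
      have e8 : (G + 1) ≤ (G + 1) * D := Nat.le_mul_of_pos_right _ (by omega)
      have e9 : (j l0 + G + 1) * D = j l0 * D + (G + 1) * D := by ring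
      have e10 : (e + 1) * (v + (y l0).natAbs) < (e + 1) * padicValNat p (Z l) := by
        rw [mul_add]
        rw [← hv] at e2
        omega
      have e11 := Nat.lt_of_mul_lt_mul_left e10
      omega
  have h2 : p ^ c ∣ (y l0).natAbs * Z l0 := by
    have h3 := Int.natCast_dvd.1 h1
    rwa [Int.natAbs_mul, Int.natAbs_natCast] at h3
  have hya : (y l0).natAbs ≠ 0 := Int.natAbs_ne_zero.2 hl0y
  rw [padicValNat_dvd_iff_le (Nat.mul_ne_zero hya (hZ l0)), padicValNat.mul hya (hZ l0)] at h2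
  have h3 : p ^ padicValNat p (y l0).natAbs ≤ (y l0).natAbs :=
    Nat.le_of_dvd (Nat.pos_of_ne_zero hya) pow_padicValNat_dvd
  have h4 : padicValNat p (y l0).natAbs < p ^ padicValNat p (y l0).natAbs :=
    Nat.lt_pow_self hp.one_lt
  omega

/-- **Marked terms with large gaps.** -/
theorem separated {S : Finset ℕ} (hS : ∀ p ∈ S, p.Prime) {p d : ℕ} (K R : ℕ) (hp : p.Prime)
    (hpd : p ∣ d) (hd0 : d ≠ 0) (hdS : ∀ q : ℕ, q.Prime → q ∣ d → q ∈ S)
    (hK : ∀ q : ℕ, q.Prime → q ≤ K → q ∈ S) (e k : ℕ) (hk : 1 ≤ k) (ε : ℝ) (hε : 0 < ε) :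
    ∃ G : ℕ, ∀ (n : ℕ) (x : ℕ → ℤ) (m : ℕ → ℕ) (r : ℕ → ℤ) (b : ℤ) (μ Y : ℝ),
      Ch p d K R b n x m r → 1 ≤ |(b : ℝ)| * R → 0 < μ → (∀ i ≤ n, μ ≤ |(x i : ℝ)|) →
      ∀ j : Fin (k + 1) → ℕ, (∀ l l', l < l' → j l + G < j l') →
      (∀ l, j l ≤ n ∧ ¬ (p : ℤ) ∣ x (j l) ∧ Pw S (e + 1) Y (x (j l))) →
      (μ / (|(b : ℝ)| * R)) ^ k ≤
        (G + 1) * Real.exp (ε * (n + Real.log (1 + |(x 0 : ℝ)|))) * Y ^ (k + 1) := by
  have := Fact.mk hp
  set A0 : ℕ := ∏ q ∈ S, q ^ (e + 1) with hA0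
  have hmain : ∀ a : Fin (k + 1) → ℕ, ∃ G : ℕ, ∀ (n : ℕ) (x : ℕ → ℤ) (m : ℕ → ℕ) (r : ℕ → ℤ)
      (b : ℤ) (μ Y : ℝ),
      Ch p d K R b n x m r → 1 ≤ |(b : ℝ)| * R → 0 < μ → (∀ i ≤ n, μ ≤ |(x i : ℝ)|) →
      ∀ j Z : Fin (k + 1) → ℕ, (∀ l l', l < l' → j l + G < j l') →
      (∀ l, j l ≤ n ∧ ¬ (p : ℤ) ∣ x (j l)) → (∀ l, Z l ≠ 0 ∧
        |(Xs d n m x (j l) : ℝ)| = a l * (Z l : ℝ) ^ (e + 1) ∧ (free S ((Z l : ℕ) : ℤ) : ℝ) ≤ Y) →
      (μ / (|(b : ℝ)| * R)) ^ k ≤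
        (G + 1) * Real.exp (ε * (n + Real.log (1 + |(x 0 : ℝ)|))) * Y ^ (k + 1) := by
    intro a
    by_contra hcon
    push Not at hcon
    choose n x m r b μ Y hch hbR hμ hmin j Z hgap hmark hZ hbig using hcon
    obtain ⟨⟨y, hy, hfr⟩, -⟩ := rel hS hd0 hk a ε hε n x m r b μ Y j Z hch hbR hμ hmin
      (fun t l => (hmark t l).1) (fun t l => (hZ t l).1) (fun t l => (hZ t l).2.1)
      (fun t l => (hZ t l).2.2) hbig
    obtain ⟨t, h1, h2⟩ := (hfr.and_eventually (eventually_ge_atTop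
      (∑ l, padicValNat p (a l) + (e + 1) * ∑ l, (y l).natAbs))).exists
    have hD : 1 ≤ padicValNat p d := one_le_padicValNat_of_dvd hd0 hpd
    refine no_rel (e := e) hp hD a (Z t) (j t) (fun l => (hZ t l).1) (fun l => ?_) y hy t
      (hgap t) h2 h1
    have h3 := Xs_val hp hd0 (hch t) (hmark t l).2
    have h4 : (Xs d (n t) (m t) (x t) (j t l)).natAbs = a l * Z t l ^ (e + 1) := by
      have h5 := (hZ t l).2.1
      have h6 : (((Xs d (n t) (m t) (x t) (j t l)).natAbs : ℕ) : ℝ) =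
          ((a l * Z t l ^ (e + 1) : ℕ) : ℝ) := by
        rw [Nat.cast_natAbs, Int.cast_abs, h5]
        push_cast
        ring
      exact_mod_cast h6
    have hx0 : x t (j t l) ≠ 0 := by
      intro h0
      exact (hmark t l).2 (h0 ▸ dvd_zero _)
    have ha : a l ≠ 0 := by
      intro h0
      rw [h0, zero_mul] at h4
      exact Xs_ne (hch t) hd0 hx0 (Int.natAbs_eq_zero.1 h4)
    unfold padicValInt at h3
    rw [h4, padicValNat.mul ha (pow_ne_zero _ (hZ t l).1), padicValNat.pow] at h3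
    exact h3
  choose G hG using hmain
  refine ⟨∑ a ∈ Fintype.piFinset (fun _ : Fin (k + 1) => range (A0 + 1)), G a, ?_⟩
  intro n x m r b μ Y hch hbR hμ hmin j hgap hmark
  have hx0 : ∀ l, x (j l) ≠ 0 := fun l h0 => (hmark l).2.1 (h0 ▸ dvd_zero _)
  have hterm := fun l => terms hS hch hd0 hdS hK (hx0 l) (hmark l).2.2
  choose a Z ha ha0 hZ0 hX hfree using hterm
  have hmem : a ∈ Fintype.piFinset (fun _ : Fin (k + 1) => range (A0 + 1)) := by
    rw [Fintype.mem_piFinset]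
    intro l
    rw [mem_range]
    have := ha l
    omega
  have hGle : G a ≤ ∑ a ∈ Fintype.piFinset (fun _ : Fin (k + 1) => range (A0 + 1)), G a :=
    Finset.single_le_sum (f := G) (fun _ _ => Nat.zero_le _) hmem
  have hY1 : 1 ≤ Y := by
    have h1 : (1 : ℝ) ≤ free S ((Z 0 : ℕ) : ℤ) := by
      exact_mod_cast free_pos hS (by exact_mod_cast hZ0 0)
    exact h1.trans (hfree 0)
  refine (hG a n x m r b μ Y hch hbR hμ hmin j Z (fun l l' hl => by
    have := hgap l l' hl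
    omega) (fun l => ⟨(hmark l).1, (hmark l).2.1⟩) (fun l => ⟨hZ0 l, hX l, hfree l⟩)).trans ?_
  have h1 : (G a : ℝ) ≤ ((∑ a ∈ Fintype.piFinset (fun _ : Fin (k + 1) => range (A0 + 1)), G a : ℕ) : ℝ) := by
    exact_mod_cast hGle
  gcongr

end Pool.Agent.U773.PW
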