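import Mathlib
import Pool.Agent.U773.PW.Sep
import Pool.Agent.U773.PW.Ana

/-! Powers among the marked terms of a short window. -/

set_option autoImplicit false

namespace Pool.Agent.U773.PW

open Finset Filter Topology Pool.Agent.N671.OPN Pool.Agent.U773.SF

/-- there is no relation between roots of numbers `X + c b` with `b / X` small and nonzero -/
lemma no_rel_roots {k e : ℕ} (he : 1 ≤ e) (a : Fin (k + 1) → ℕ) (ha : ∀ l, a l ≠ 0)
    (c : Fin (k + 1) → ℤ) (hc : Function.Injective c) (y : Fin (k + 1) → ℤ) (hy : y ≠ 0)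
    (X b : ℕ → ℤ) (hX : ∀ t, X t ≠ 0) (hb : ∀ t, b t ≠ 0)
    (hlim : Tendsto (fun t => (b t : ℝ) / X t) atTop (𝓝 0)) (Z : ℕ → Fin (k + 1) → ℕ)
    (hZ : ∀ t l, |((X t + b t * c l : ℤ) : ℝ)| = a l * (Z t l : ℝ) ^ (e + 1)) :
    ¬ ∃ᶠ t in atTop, ∑ l, y l * (Z t l : ℤ) = 0 := by
  intro hfr
  set s : ℝ := (((e + 1 : ℕ) : ℝ)⁻¹) with hs
  have hs0 : 0 < s := by positivity
  have hs1 : s < 1 := by
    apply inv_lt_one_of_one_lt₀
    exact_mod_cast (by omega : 1 < e + 1)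
  have hsj : ∀ j : ℕ, s ≠ j := by
    intro j h
    rcases Nat.eq_zero_or_pos j with h1 | h1
    · rw [h1, Nat.cast_zero] at h
      exact hs0.ne' h
    · have : (1 : ℝ) ≤ j := by exact_mod_cast h1
      linarith
  have hτ : Tendsto (fun t => (b t : ℝ) / X t) atTop (𝓝[≠] 0) := by
    apply tendsto_nhdsWithin_iff.2
    refine ⟨hlim, Eventually.of_forall fun t => ?_⟩
    have h1 : (b t : ℝ) ≠ 0 := by exact_mod_cast hb t
    have h2 : (X t : ℝ) ≠ 0 := by exact_mod_cast hX t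
    exact div_ne_zero h1 h2
  have hpos : ∀ᶠ t in atTop, ∀ l, 0 < 1 + (c l : ℝ) * ((b t : ℝ) / X t) :=
    hlim.eventually (Filter.eventually_all.2 fun l => ev_pos (c l : ℝ))
  have hkey : ∀ᶠ t in atTop, ∀ l, (Z t l : ℝ) = |(X t : ℝ)| ^ s * ((a l : ℝ) ^ (-s) *
      (1 + (c l : ℝ) * ((b t : ℝ) / X t)) ^ s) := by
    filter_upwards [hpos] with t ht l
    have hXR : (X t : ℝ) ≠ 0 := by exact_mod_cast hX t
    have haR : (0 : ℝ) < a l := by exact_mod_cast Nat.pos_of_ne_zero (ha l)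
    have h1 : |((X t + b t * c l : ℤ) : ℝ)| = |(X t : ℝ)| * (1 + (c l : ℝ) * ((b t : ℝ) / X t)) := by
      have h2 : ((X t + b t * c l : ℤ) : ℝ) = (X t : ℝ) * (1 + (c l : ℝ) * ((b t : ℝ) / X t)) := by
        push_cast
        field_simp
      rw [h2, abs_mul, abs_of_pos (ht l)]
    have h2 : (Z t l : ℝ) ^ (e + 1) = |(X t : ℝ)| * (1 + (c l : ℝ) * ((b t : ℝ) / X t)) / a l := by
      rw [← h1, hZ t l]
      field_simp
    have h3 : (Z t l : ℝ) = ((Z t l : ℝ) ^ (e + 1)) ^ s := by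
      rw [hs, ← Real.rpow_natCast, ← Real.rpow_mul (Nat.cast_nonneg _),
        mul_inv_cancel₀ (by positivity), Real.rpow_one]
    have h4 := (ht l).le
    rw [h3, h2, Real.div_rpow (by positivity) haR.le, Real.mul_rpow (abs_nonneg _) h4,
      Real.rpow_neg haR.le]
    field_simp
  have hfr2 : ∃ᶠ τ in 𝓝[≠] (0 : ℝ), ∑ l, ((y l : ℝ) * (a l : ℝ) ^ (-s)) *
      (1 + (c l : ℝ) * τ) ^ s = 0 := by
    apply hτ.frequently
    refine (hfr.and_eventually hkey).mono ?_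
    rintro t ⟨h1, h2⟩
    have h3 : ((∑ l, y l * (Z t l : ℤ) : ℤ) : ℝ) = 0 := by rw [h1]; simp
    push_cast at h3
    have h4 : |(X t : ℝ)| ^ s * ∑ l, ((y l : ℝ) * (a l : ℝ) ^ (-s)) *
        (1 + (c l : ℝ) * ((b t : ℝ) / X t)) ^ s = 0 := by
      rw [Finset.mul_sum, ← h3]
      refine Finset.sum_congr rfl fun l _ => ?_
      rw [h2 l]
      ring
    have h5 : 0 < |(X t : ℝ)| ^ s := by
      apply Real.rpow_pos_of_pos
      exact abs_pos.2 (by exact_mod_cast hX t)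
    rcases mul_eq_zero.1 h4 with h6 | h6
    · exact absurd h6 h5.ne'
    · exact h6
  have hz := indep hsj (fun l => (c l : ℝ)) (fun l l' h => hc (by
    simp only [Int.cast_inj] at h
    exact h)) _ hfr2
  apply hy
  funext l
  have h1 := congrFun hz l
  simp only [Pi.zero_apply] at h1
  have haR : (0 : ℝ) < a l := by exact_mod_cast Nat.pos_of_ne_zero (ha l)
  rcases mul_eq_zero.1 h1 with h2 | h2
  · exact_mod_cast h2
  · exact absurd h2 (Real.rpow_pos_of_pos haR _).ne'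

/-- **Powers in a short window.** -/
theorem clustered {S : Finset ℕ} (hS : ∀ p ∈ S, p.Prime) {p d : ℕ} (K R : ℕ) (hp : p.Prime)
    (hpd : p ∣ d) (hd0 : d ≠ 0) (hdS : ∀ q : ℕ, q.Prime → q ∣ d → q ∈ S)
    (hK : ∀ q : ℕ, q.Prime → q ≤ K → q ∈ S) (e k : ℕ) (he : 1 ≤ e) (hk : 1 ≤ k) (W : ℕ)
    (ε : ℝ) (hε : 0 < ε) :
    ∃ G : ℕ, ∀ (n : ℕ) (x : ℕ → ℤ) (m : ℕ → ℕ) (r : ℕ → ℤ) (b : ℤ) (μ Y : ℝ),
      Ch p d K R b n x m r → 1 ≤ |(b : ℝ)| * R → 0 < μ → (∀ i ≤ n, μ ≤ |(x i : ℝ)|) → n ≤ W →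
      ∀ j : Fin (k + 1) → ℕ, Function.Injective j →
      (∀ l, j l ≤ n ∧ ¬ (p : ℤ) ∣ x (j l) ∧ Pw S (e + 1) Y (x (j l))) →
      (μ / (|(b : ℝ)| * R)) ^ k ≤
        (G + 1) * Real.exp (ε * (n + Real.log (1 + |(x 0 : ℝ)|))) * Y ^ (k + 1) := by
  have := Fact.mk hp
  set A0 : ℕ := ∏ q ∈ S, q ^ (e + 1) with hA0
  have hmain : ∀ (a : Fin (k + 1) → ℕ) (M : ℤ) (c : Fin (k + 1) → ℤ), ∃ G : ℕ,
      ∀ (n : ℕ) (x : ℕ → ℤ) (m : ℕ → ℕ) (r : ℕ → ℤ) (b : ℤ) (μ Y : ℝ),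
      Ch p d K R b n x m r → 1 ≤ |(b : ℝ)| * R → 0 < μ → (∀ i ≤ n, μ ≤ |(x i : ℝ)|) →
      ∀ j Z : Fin (k + 1) → ℕ, Function.Injective j →
      (∀ l, j l ≤ n ∧ ¬ (p : ℤ) ∣ x (j l)) → (∀ l, Z l ≠ 0 ∧
        |(Xs d n m x (j l) : ℝ)| = a l * (Z l : ℝ) ^ (e + 1) ∧ (free S ((Z l : ℕ) : ℤ) : ℝ) ≤ Y) →
      1 ≤ M → (∀ l, Xs d n m x (j l) = M * x 0 + b * c l) →
      (μ / (|(b : ℝ)| * R)) ^ k ≤
        (G + 1) * Real.exp (ε * (n + Real.log (1 + |(x 0 : ℝ)|))) * Y ^ (k + 1) := by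
    intro a M c
    by_contra hcon
    push Not at hcon
    choose n x m r b μ Y hch hbR hμ hmin j Z hjinj hmark hZ hM hlin hbig using hcon
    obtain ⟨⟨y, hy, hfr⟩, hlim⟩ := rel hS hd0 hk a ε hε n x m r b μ Y j Z hch hbR hμ hmin
      (fun t l => (hmark t l).1) (fun t l => (hZ t l).1) (fun t l => (hZ t l).2.1)
      (fun t l => (hZ t l).2.2) hbig
    have hD : 1 ≤ padicValNat p d := one_le_padicValNat_of_dvd hd0 hpd
    have hb0 : ∀ t, b t ≠ 0 := by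
      intro t h0
      have h1 := hbR t
      rw [h0] at h1
      simp at h1
      linarith
    have hx00 : ∀ t, x t 0 ≠ 0 := by
      intro t h0
      have h1 := hmin t 0 (Nat.zero_le _)
      rw [h0] at h1
      simp at h1
      linarith [hμ t]
    have hM1 : 1 ≤ M := hM 0
    have hX : ∀ t, M * x t 0 ≠ 0 := fun t => mul_ne_zero (by omega) (hx00 t)
    have hcinj : Function.Injective c := by
      intro l l' hll
      by_contra hne
      have h1 := Xs_val hp hd0 (hch 0) (hmark 0 l).2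
      have h2 := Xs_val hp hd0 (hch 0) (hmark 0 l').2
      rw [hlin 0 l, hll, ← hlin 0 l', h2] at h1
      have h3 := Nat.eq_of_mul_eq_mul_right (by omega) h1
      exact hne (hjinj 0 h3.symm)
    have hx0 : ∀ t l, x t (j t l) ≠ 0 := fun t l h0 => (hmark t l).2 (h0 ▸ dvd_zero _)
    have ha : ∀ l, a l ≠ 0 := by
      intro l h0
      have h1 := (hZ 0 l).2.1
      rw [h0] at h1
      simp only [Nat.cast_zero, zero_mul, abs_eq_zero, Int.cast_eq_zero] at h1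
      exact Xs_ne (hch 0) hd0 (hx0 0 l) h1
    have hlim2 : Tendsto (fun t => (b t : ℝ) / ((M * x t 0 : ℤ) : ℝ)) atTop (𝓝 0) := by
      apply squeeze_zero_norm _ hlim
      intro t
      rw [Real.norm_eq_abs, abs_div]
      have h1 : (1 : ℝ) ≤ R := by
        have h2 := hbR t
        by_contra h3
        push Not at h3
        have h4 : R = 0 := by
          have : (R : ℝ) < 1 := h3
          have : R < 1 := by exact_mod_cast this
          omega
        rw [h4] at h2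
        simp at h2
        linarith
      have h2 : μ t ≤ |((M * x t 0 : ℤ) : ℝ)| := by
        have h3 := hmin t 0 (Nat.zero_le _)
        have h4 : (1 : ℝ) ≤ |(M : ℝ)| := by
          have : 1 ≤ |M| := Int.one_le_abs (by omega)
          exact_mod_cast this
        push_cast
        rw [abs_mul]
        nlinarith [abs_nonneg (x t 0 : ℝ)]
      have h3 := hμ t
      have h4 : |(b t : ℝ)| ≤ |(b t : ℝ)| * R := by nlinarith [abs_nonneg (b t : ℝ)]
      gcongr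
    refine no_rel_roots he a ha c hcinj y hy (fun t => M * x t 0) b hX hb0 hlim2 Z
      (fun t l => ?_) hfr
    have h1 := (hZ t l).2.1
    rw [hlin t l] at h1
    exact h1
  choose G hG using hmain
  set H : ℤ := ((K : ℤ) + 1) ^ W * ((W : ℤ) * (((K : ℤ) + 1) * d) ^ W * R) with hH
  set H' : ℤ := ((K : ℤ) + 1) ^ W with hH'
  set F : Finset ((Fin (k + 1) → ℕ) × ℤ × (Fin (k + 1) → ℤ)) :=
    (Fintype.piFinset (fun _ : Fin (k + 1) => range (A0 + 1))) ×ˢ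
      (Icc 1 H') ×ˢ (Fintype.piFinset (fun _ : Fin (k + 1) => Icc (-H) H)) with hF
  refine ⟨∑ q ∈ F, G q.1 q.2.1 q.2.2, ?_⟩
  intro n x m r b μ Y hch hbR hμ hmin hnW j hj hmark
  have hx0 : ∀ l, x (j l) ≠ 0 := fun l h0 => (hmark l).2.1 (h0 ▸ dvd_zero _)
  have hterm := fun l => terms hS hch hd0 hdS hK (hx0 l) (hmark l).2.2
  choose a Z ha ha0 hZ0 hX hfree using hterm
  set M : ℤ := ∏ l ∈ range n, (m l : ℤ) with hM
  set c : Fin (k + 1) → ℤ := fun l => (∏ i ∈ Ico (j l) n, (m i : ℤ)) * Bs d m r (j l) with hc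
  have hK1 : (1 : ℤ) ≤ (K : ℤ) + 1 := by
    have : (0 : ℤ) ≤ K := Int.natCast_nonneg _
    linarith
  have hd1 : (1 : ℤ) ≤ d := by exact_mod_cast Nat.one_le_iff_ne_zero.2 hd0
  have hKd : (1 : ℤ) ≤ ((K : ℤ) + 1) * d := by nlinarith
  have hmem : (a, M, c) ∈ F := by
    rw [hF, mem_product, mem_product]
    refine ⟨?_, ?_, ?_⟩
    · rw [Fintype.mem_piFinset]
      intro l
      rw [mem_range]
      exact Nat.lt_succ_of_le (ha l)
    · rw [mem_Icc]
      obtain ⟨h1, h2⟩ := prod_range_le hch n le_rfl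
      exact ⟨h1, h2.trans (pow_le_pow_right₀ hK1 hnW)⟩
    · rw [Fintype.mem_piFinset]
      intro l
      rw [mem_Icc, ← abs_le]
      simp only [hc, abs_mul]
      obtain ⟨h1, h2⟩ := prod_Ico_le hch (j l) (hmark l).1
      have h3 := Bs_le hch hd0 (j l) (hmark l).1
      rw [abs_of_nonneg h1, hH]
      have h4 : ((K : ℤ) + 1) ^ n ≤ ((K : ℤ) + 1) ^ W := pow_le_pow_right₀ hK1 hnW
      have h5 : (((K : ℤ) + 1) * d) ^ j l ≤ (((K : ℤ) + 1) * d) ^ W :=
        pow_le_pow_right₀ hKd (by have := (hmark l).1; omega)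
      have h6 : (j l : ℤ) ≤ W := by
        have := (hmark l).1
        exact_mod_cast (by omega : j l ≤ W)
      have h7 : (j l : ℤ) * (((K : ℤ) + 1) * d) ^ j l * R ≤
          (W : ℤ) * (((K : ℤ) + 1) * d) ^ W * R := by gcongr
      have h8 := h2.trans h4
      have h9 := h3.trans h7
      gcongr
  have hGle : G a M c ≤ ∑ q ∈ F, G q.1 q.2.1 q.2.2 :=
    Finset.single_le_sum (f := fun q : (Fin (k + 1) → ℕ) × ℤ × (Fin (k + 1) → ℤ) =>
      G q.1 q.2.1 q.2.2) (fun _ _ => Nat.zero_le _) hmem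
  have hY1 : 1 ≤ Y := by
    have h1 : (1 : ℝ) ≤ free S ((Z 0 : ℕ) : ℤ) := by
      exact_mod_cast free_pos hS (by exact_mod_cast hZ0 0)
    exact h1.trans (hfree 0)
  refine (hG a M c n x m r b μ Y hch hbR hμ hmin j Z hj (fun l => ⟨(hmark l).1, (hmark l).2.1⟩)
    (fun l => ⟨hZ0 l, hX l, hfree l⟩) (prod_range_le hch n le_rfl).1
    (fun l => Xs_lin hch (j l) (hmark l).1)).trans ?_
  have h1 : (G a M c : ℝ) ≤ ((∑ q ∈ F, G q.1 q.2.1 q.2.2 : ℕ) : ℝ) := by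
    exact_mod_cast hGle
  gcongr

end Pool.Agent.U773.PW
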