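import Mathlib
import Pool.Agent.U773.PW.Split
import Pool.Agent.U773.SF.Clu

/-! Marked terms with a small `S`-free part in a short window. -/

set_option autoImplicit false

namespace Pool.Agent.U773.PW

open Finset Pool.Agent.U773.SF

/-- the forms of two marked indices are not proportional -/
lemma not_prop {p d K R : ℕ} {b : ℤ} {n : ℕ} {x : ℕ → ℤ} {m : ℕ → ℕ} {r : ℕ → ℤ}
    (hp : p.Prime) (hpd : p ∣ d) (hd0 : d ≠ 0) (h : Ch p d K R b n x m r) {i i' : ℕ}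
    (hii : i ≠ i') (hi : i ≤ n) (hi' : i' ≤ n) (hx : ¬ (p : ℤ) ∣ x i) (hx' : ¬ (p : ℤ) ∣ x i') :
    (∏ l ∈ range i, (m l : ℤ)) * Bs d m r i' ≠ (∏ l ∈ range i', (m l : ℤ)) * Bs d m r i := by
  intro heq
  have h1 := Xs_val hp hd0 h hx
  have h2 := Xs_val hp hd0 h hx'
  have h3 := Xs_lin h i hi
  have h4 := Xs_lin h i' hi'
  have e1 : (∏ l ∈ range i, (m l : ℤ)) * (∏ l ∈ Ico i n, (m l : ℤ)) = ∏ l ∈ range n, (m l : ℤ) :=
    Finset.prod_range_mul_prod_Ico _ hi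
  have e2 : (∏ l ∈ range i', (m l : ℤ)) * (∏ l ∈ Ico i' n, (m l : ℤ)) = ∏ l ∈ range n, (m l : ℤ) :=
    Finset.prod_range_mul_prod_Ico _ hi'
  have p1 := (prod_range_le h i hi).1
  have p2 := (prod_range_le h i' hi').1
  have h5 : Xs d n m x i = Xs d n m x i' := by
    rw [h3, h4]
    congr 2
    have h6 : ((∏ l ∈ range i, (m l : ℤ)) * (∏ l ∈ range i', (m l : ℤ))) *
        ((∏ l ∈ Ico i n, (m l : ℤ)) * Bs d m r i) =
        ((∏ l ∈ range i, (m l : ℤ)) * (∏ l ∈ range i', (m l : ℤ))) *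
        ((∏ l ∈ Ico i' n, (m l : ℤ)) * Bs d m r i') := by
      calc ((∏ l ∈ range i, (m l : ℤ)) * (∏ l ∈ range i', (m l : ℤ))) *
          ((∏ l ∈ Ico i n, (m l : ℤ)) * Bs d m r i)
          = ((∏ l ∈ range i, (m l : ℤ)) * (∏ l ∈ Ico i n, (m l : ℤ))) *
            ((∏ l ∈ range i', (m l : ℤ)) * Bs d m r i) := by ring
        _ = (∏ l ∈ range n, (m l : ℤ)) * ((∏ l ∈ range i, (m l : ℤ)) * Bs d m r i') := by
            rw [e1, heq]
        _ = ((∏ l ∈ range i', (m l : ℤ)) * (∏ l ∈ Ico i' n, (m l : ℤ))) *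
            ((∏ l ∈ range i, (m l : ℤ)) * Bs d m r i') := by rw [e2]
        _ = _ := by ring
    exact mul_left_cancel₀ (mul_ne_zero (by omega) (by omega)) h6
  rw [h5, h2] at h1
  have := Fact.mk hp
  have hD : 1 ≤ padicValNat p d := one_le_padicValNat_of_dvd hd0 hpd
  exact hii (Nat.eq_of_mul_eq_mul_right (by omega) h1).symm

lemma free_Pw {S : Finset ℕ} (hS : ∀ p ∈ S, p.Prime) {Y : ℝ} {x : ℤ} (hx : x ≠ 0)
    (h : Pw S 1 Y x) : (free S x : ℝ) ≤ Y := by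
  obtain ⟨u, y, h1, h2, h3⟩ := h
  have hu : u ≠ 0 := by rintro rfl; simp at h1; exact hx h1
  have hy : y ≠ 0 := by rintro rfl; simp at h1; exact hx h1
  rw [h1, pow_one, free_mul hS hu hy, free_unit hS hu (fun q hq hqd =>
    h2 q hq (Int.natCast_dvd.2 hqd)), one_mul]
  exact (free_le_abs S y).trans h3

/-- **Marked terms in a short window.** -/
theorem clustered1 {S : Finset ℕ} (hS : ∀ p ∈ S, p.Prime) {p d : ℕ} (K R : ℕ) (hp : p.Prime)
    (hpd : p ∣ d) (hd0 : d ≠ 0) (hdS : ∀ q : ℕ, q.Prime → q ∣ d → q ∈ S)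
    (k : ℕ) (hk : 1 ≤ k) (W : ℕ) (ε : ℝ) (hε : 0 < ε) (hε1 : ε ≤ 1) :
    ∃ C : ℝ, 1 ≤ C ∧ ∀ (n : ℕ) (x : ℕ → ℤ) (m : ℕ → ℕ) (r : ℕ → ℤ) (b : ℤ),
      Ch p d K R b n x m r → b ≠ 0 → (∀ i ≤ n, x i ≠ 0) → n ≤ W → ∀ j : Fin (k + 1) → ℕ,
      Function.Injective j → (∀ l, j l ≤ n ∧ ¬ (p : ℤ) ∣ x (j l)) →
      (|(x 0 : ℝ)| / |(b : ℝ)|) ^ k ≤ C * |(x 0 : ℝ)| ^ ε * ∏ l, (free S (x (j l)) : ℝ) := by
  obtain ⟨c, hc, h⟩ := cluster hS (m := k + 1) (by omega)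
    ((W : ℤ) * (((K : ℤ) + 1) * d) ^ W * R + ((K : ℤ) + 1) ^ W) ε hε hε1
  refine ⟨max 1 c⁻¹, le_max_left _ _, ?_⟩
  intro n x m r b hch hb0 hx0 hnW j hj hmark
  set g : ℤ := ((Int.gcd b (x 0) : ℕ) : ℤ) with hg
  have hg1' : 0 < Int.gcd b (x 0) := Int.gcd_pos_of_ne_zero_left _ hb0
  have hg0 : g ≠ 0 := by
    rw [hg]
    exact_mod_cast hg1'.ne'
  obtain ⟨s, hs⟩ : g ∣ b := Int.gcd_dvd_left _ _
  obtain ⟨t, ht⟩ : g ∣ x 0 := Int.gcd_dvd_right _ _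
  have hcop : IsCoprime s t := by
    have h1 := Int.isCoprime_iff_gcd_eq_one.2 (Int.gcd_ediv_gcd_ediv_gcd (i := b) (j := x 0)
      hg1')
    have h2 : b / (Int.gcd b (x 0) : ℤ) = s := by
      rw [← hg]
      exact Int.ediv_eq_of_eq_mul_right hg0 hs
    have h3 : x 0 / (Int.gcd b (x 0) : ℤ) = t := by
      rw [← hg]
      exact Int.ediv_eq_of_eq_mul_right hg0 ht
    rwa [h2, h3] at h1
  have hs0 : s ≠ 0 := by
    rintro rfl
    rw [mul_zero] at hs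
    exact hb0 hs
  have ht0 : t ≠ 0 := by
    rintro rfl
    rw [mul_zero] at ht
    exact hx0 0 (Nat.zero_le _) ht
  set M : Fin (k + 1) → ℤ := fun l => ∏ a ∈ range (j l), (m a : ℤ) with hM
  set B : Fin (k + 1) → ℤ := fun l => Bs d m r (j l) with hB
  have hd1 : (1 : ℤ) ≤ d := by exact_mod_cast Nat.one_le_iff_ne_zero.2 hd0
  have hKd : (1 : ℤ) ≤ ((K : ℤ) + 1) * d := by
    have : (0 : ℤ) ≤ K := Int.natCast_nonneg _
    nlinarith
  have hK1 : (1 : ℤ) ≤ (K : ℤ) + 1 := by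
    have : (0 : ℤ) ≤ K := Int.natCast_nonneg _
    linarith
  have hLe : ∀ l, g * (M l * t + B l * s) = (d : ℤ) ^ j l * x (j l) := by
    intro l
    rw [chain_eq hch (j l) (hmark l).1, ht]
    conv_rhs => rw [hs]
    ring
  have hLne : ∀ l, M l * t + B l * s ≠ 0 := by
    intro l h0
    have h1 := hLe l
    rw [h0, mul_zero] at h1
    exact mul_ne_zero (pow_ne_zero _ (by omega)) (hx0 _ (hmark l).1) h1.symm
  have h1 := h M B (fun l => by
      obtain ⟨e1, e2⟩ := prod_range_le hch (j l) (hmark l).1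
      refine ⟨e1, e2.trans ?_⟩
      have e3 : ((K : ℤ) + 1) ^ j l ≤ ((K : ℤ) + 1) ^ W :=
        pow_le_pow_right₀ hK1 (by have := (hmark l).1; omega)
      have e4 : (0 : ℤ) ≤ (W : ℤ) * (((K : ℤ) + 1) * d) ^ W * R := by positivity
      linarith) (fun l => by
      have e1 := Bs_le hch hd0 (j l) (hmark l).1
      have e2 : (((K : ℤ) + 1) * d) ^ j l ≤ (((K : ℤ) + 1) * d) ^ W :=
        pow_le_pow_right₀ hKd (by have := (hmark l).1; omega)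
      have e3 : (j l : ℤ) ≤ W := by
        have := (hmark l).1
        exact_mod_cast (by omega : j l ≤ W)
      have e4 : (0 : ℤ) ≤ ((K : ℤ) + 1) ^ W := by positivity
      have e5 : (j l : ℤ) * (((K : ℤ) + 1) * d) ^ j l * R ≤
          (W : ℤ) * (((K : ℤ) + 1) * d) ^ W * R := by gcongr
      linarith) (fun l l' hll => not_prop hp hpd hd0 hch (fun h => hll (hj h)) (hmark l).1
        (hmark l').1 (hmark l).2 (hmark l').2)
    s t hcop hs0 hLne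
  have hfree : ∏ l, (free S (M l * t + B l * s) : ℝ) ≤ ∏ l, (free S (x (j l)) : ℝ) := by
    apply Finset.prod_le_prod
    · intro l _; exact Nat.cast_nonneg _
    · intro l _
      have e1 : free S (M l * t + B l * s) ≤ free S ((d : ℤ) ^ j l * x (j l)) := by
        apply free_dvd_le hS
        · rw [← hLe l]; exact dvd_mul_left _ _
        · exact mul_ne_zero (pow_ne_zero _ (by omega)) (hx0 _ (hmark l).1)
      rw [free_mul hS (pow_ne_zero _ (by omega)) (hx0 _ (hmark l).1), free_unit hS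
        (pow_ne_zero _ (by omega)) (by
          intro q hq hqd
          rw [Int.natAbs_pow, Int.natAbs_natCast] at hqd
          exact hdS q hq (hq.dvd_of_dvd_pow hqd)), one_mul] at e1
      exact_mod_cast e1
  -- sizes
  have hgR : 0 < |(g : ℝ)| := abs_pos.2 (by exact_mod_cast hg0)
  have hsR : (1 : ℝ) ≤ |(s : ℝ)| := by
    have : 1 ≤ |s| := Int.one_le_abs hs0
    exact_mod_cast this
  have htR : (1 : ℝ) ≤ |(t : ℝ)| := by
    have : 1 ≤ |t| := Int.one_le_abs ht0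
    exact_mod_cast this
  have hbs : |(b : ℝ)| = |(g : ℝ)| * |(s : ℝ)| := by
    rw [← abs_mul]; congr 1; exact_mod_cast hs
  have hxt : |(x 0 : ℝ)| = |(g : ℝ)| * |(t : ℝ)| := by
    rw [← abs_mul]; congr 1; exact_mod_cast ht
  have hg1 : (1 : ℝ) ≤ |(g : ℝ)| := by
    have : 1 ≤ |g| := Int.one_le_abs hg0
    exact_mod_cast this
  have hxt' : |(t : ℝ)| ≤ |(x 0 : ℝ)| := by rw [hxt]; nlinarith
  have hquo : |(x 0 : ℝ)| / |(b : ℝ)| = |(t : ℝ)| / |(s : ℝ)| := by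
    rw [hbs, hxt]
    field_simp
  have hexp : ((k + 1 : ℕ) : ℝ) - 1 - ε = (k : ℝ) - ε := by push_cast; ring
  rw [hexp] at h1
  have hk1 : (1 : ℝ) ≤ k := by exact_mod_cast hk
  have h2 : c * |(t : ℝ)| ^ ((k : ℝ) - ε) ≤ |(s : ℝ)| * ∏ l, (free S (x (j l)) : ℝ) := by
    calc c * |(t : ℝ)| ^ ((k : ℝ) - ε) ≤ c * (max |(s : ℝ)| |(t : ℝ)|) ^ ((k : ℝ) - ε) := by
          gcongr
          · linarith
          · exact le_max_right _ _
      _ ≤ _ := h1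
      _ ≤ _ := by gcongr
  have h3 : |(t : ℝ)| ^ k = |(t : ℝ)| ^ ((k : ℝ) - ε) * |(t : ℝ)| ^ ε := by
    rw [← Real.rpow_add (by linarith), sub_add_cancel, Real.rpow_natCast]
  have hPi0 : 0 ≤ ∏ l, (free S (x (j l)) : ℝ) := Finset.prod_nonneg fun l _ => Nat.cast_nonneg _
  have h4 : |(t : ℝ)| ^ ((k : ℝ) - ε) ≤ c⁻¹ * (|(s : ℝ)| * ∏ l, (free S (x (j l)) : ℝ)) := by
    rw [le_inv_mul_iff₀ hc]
    exact h2
  rw [hquo, div_pow]
  have h5 : |(s : ℝ)| ≤ |(s : ℝ)| ^ k := by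
    calc |(s : ℝ)| = |(s : ℝ)| ^ 1 := (pow_one _).symm
      _ ≤ |(s : ℝ)| ^ k := pow_le_pow_right₀ hsR hk
  rw [div_le_iff₀ (by positivity), h3]
  calc |(t : ℝ)| ^ ((k : ℝ) - ε) * |(t : ℝ)| ^ ε
      ≤ (c⁻¹ * (|(s : ℝ)| * ∏ l, (free S (x (j l)) : ℝ))) * |(x 0 : ℝ)| ^ ε := by gcongr
    _ ≤ (max 1 c⁻¹ * (|(s : ℝ)| ^ k * ∏ l, (free S (x (j l)) : ℝ))) * |(x 0 : ℝ)| ^ ε := by
        gcongr
        exact le_max_right _ _
    _ = _ := by ring

end Pool.Agent.U773.PW
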