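import Mathlib
import Pool.Agent.U773.PW.Clu
import Pool.Agent.U773.PW.Clu1

/-! Many marked terms `u y ^ e` with small `y` force a dip. -/

set_option autoImplicit false

namespace Pool.Agent.U773.PW

open Finset Pool.Agent.U773.SF

lemma growth {p d K R : ℕ} {b : ℤ} {n : ℕ} {x : ℕ → ℤ} {m : ℕ → ℕ} {r : ℕ → ℤ}
    (h : Ch p d K R b n x m r) (hd0 : d ≠ 0) {μ : ℝ} (hmin : ∀ i ≤ n, μ ≤ |(x i : ℝ)|)
    (hb : |(b : ℝ)| * R ≤ μ) : ∀ i ≤ n, |(x i : ℝ)| ≤ ((K : ℝ) + 1) ^ i * |(x 0 : ℝ)| := by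
  intro i
  induction i with
  | zero => intro _; simp
  | succ i ih =>
    intro hi
    have h1 := ih (by omega)
    obtain ⟨⟨h3, h4, -⟩, h5, h6⟩ := h i (by omega)
    have e1 : (d : ℝ) * x (i + 1) = m i * x i + b * r i := by exact_mod_cast h6
    have hd1 : (1 : ℝ) ≤ d := by exact_mod_cast Nat.one_le_iff_ne_zero.2 hd0
    have hr : |(r i : ℝ)| ≤ R := by exact_mod_cast h5
    have hm : (m i : ℝ) ≤ K := by exact_mod_cast h4
    have e2 : |(x (i + 1) : ℝ)| ≤ (d : ℝ) * |(x (i + 1) : ℝ)| := by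
      have := abs_nonneg (x (i + 1) : ℝ)
      nlinarith
    have e3 : (d : ℝ) * |(x (i + 1) : ℝ)| ≤ (K : ℝ) * |(x i : ℝ)| + |(b : ℝ)| * R := by
      calc (d : ℝ) * |(x (i + 1) : ℝ)| = |(m i : ℝ) * x i + b * r i| := by
            rw [← e1, abs_mul, abs_of_nonneg (by linarith : (0 : ℝ) ≤ (d : ℝ))]
        _ ≤ |(m i : ℝ) * x i| + |(b : ℝ) * r i| := abs_add_le _ _
        _ = (m i : ℝ) * |(x i : ℝ)| + |(b : ℝ)| * |(r i : ℝ)| := by
            rw [abs_mul, abs_mul, abs_of_nonneg (Nat.cast_nonneg (m i) : (0 : ℝ) ≤ (m i : ℝ))]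
        _ ≤ _ := by gcongr
    have e4 := hmin i (by omega)
    calc |(x (i + 1) : ℝ)| ≤ ((K : ℝ) + 1) * |(x i : ℝ)| := by linarith
      _ ≤ ((K : ℝ) + 1) * (((K : ℝ) + 1) ^ i * |(x 0 : ℝ)|) := by gcongr
      _ = _ := by rw [pow_succ]; ring

lemma Pw_one_le {S : Finset ℕ} {e : ℕ} (he : 1 ≤ e) {Y : ℝ} {x : ℤ} (hx : x ≠ 0)
    (h : Pw S e Y x) : 1 ≤ Y := by
  obtain ⟨u, y, h1, -, h3⟩ := h
  have hy : y ≠ 0 := by
    rintro rfl
    rw [zero_pow (by omega), mul_zero] at h1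
    exact hx h1
  have : 1 ≤ |y| := Int.one_le_abs hy
  have : (1 : ℝ) ≤ |(y : ℝ)| := by exact_mod_cast this
  linarith

/-- both cases of a short window -/
theorem clu {S : Finset ℕ} (hS : ∀ p ∈ S, p.Prime) {p d : ℕ} (K R : ℕ) (hp : p.Prime)
    (hpd : p ∣ d) (hd0 : d ≠ 0) (hdS : ∀ q : ℕ, q.Prime → q ∣ d → q ∈ S)
    (hK : ∀ q : ℕ, q.Prime → q ≤ K → q ∈ S) (e k : ℕ) (he : 1 ≤ e) (hk : 1 ≤ k) (W : ℕ)
    (ε : ℝ) (hε : 0 < ε) :
    ∃ C : ℝ, 1 ≤ C ∧ ∀ (n : ℕ) (x : ℕ → ℤ) (m : ℕ → ℕ) (r : ℕ → ℤ) (b : ℤ) (μ Y : ℝ),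
      Ch p d K R b n x m r → 1 ≤ |(b : ℝ)| * R → 0 < μ → (∀ i ≤ n, μ ≤ |(x i : ℝ)|) → n ≤ W →
      ∀ j : Fin (k + 1) → ℕ, Function.Injective j →
      (∀ l, j l ≤ n ∧ ¬ (p : ℤ) ∣ x (j l) ∧ Pw S e Y (x (j l))) →
      (μ / (|(b : ℝ)| * R)) ^ k ≤
        C * Real.exp (ε * (n + Real.log (1 + |(x 0 : ℝ)|))) * Y ^ (k + 1) := by
  rcases Nat.lt_or_ge 1 e with he1 | he1
  · obtain ⟨G, hG⟩ := clustered hS K R hp hpd hd0 hdS hK (e - 1) k (by omega) hk W ε hε
    refine ⟨G + 1, by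
      have : (0 : ℝ) ≤ G := Nat.cast_nonneg _
      linarith, ?_⟩
    intro n x m r b μ Y h1 h2 h3 h4 h5 j h6 h7
    refine hG n x m r b μ Y h1 h2 h3 h4 h5 j h6 ?_
    rw [Nat.sub_add_cancel he]
    exact h7
  · have he2 : e = 1 := by omega
    subst he2
    obtain ⟨C, hC, h⟩ := clustered1 hS K R hp hpd hd0 hdS k hk W (min 1 ε)
      (lt_min one_pos hε) (min_le_left _ _)
    refine ⟨C, hC, ?_⟩
    intro n x m r b μ Y h1 h2 h3 h4 h5 j h6 h7
    have hb0 : b ≠ 0 := by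
      rintro rfl
      simp at h2
      linarith
    have hR1 : (1 : ℝ) ≤ R := by
      by_contra h8
      push Not at h8
      have h9 : R = 0 := by
        have : R < 1 := by exact_mod_cast h8
        omega
      rw [h9] at h2
      simp at h2
      linarith
    have hx0 : ∀ i ≤ n, x i ≠ 0 := by
      intro i hi h0
      have h8 := h4 i hi
      rw [h0] at h8
      simp at h8
      linarith
    have h8 := h n x m r b h1 hb0 hx0 h5 j h6 (fun l => ⟨(h7 l).1, (h7 l).2.1⟩)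
    have hx1 : (1 : ℝ) ≤ |(x 0 : ℝ)| := by
      have : 1 ≤ |x 0| := Int.one_le_abs (hx0 0 (Nat.zero_le _))
      exact_mod_cast this
    have hb1 : (1 : ℝ) ≤ |(b : ℝ)| := by
      have : 1 ≤ |b| := Int.one_le_abs hb0
      exact_mod_cast this
    have hY : ∏ l, (free S (x (j l)) : ℝ) ≤ Y ^ (k + 1) := by
      calc ∏ l, (free S (x (j l)) : ℝ) ≤ ∏ _l : Fin (k + 1), Y := by
            apply Finset.prod_le_prod
            · intro l _; exact Nat.cast_nonneg _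
            · intro l _
              exact free_Pw hS (hx0 _ (h7 l).1) (h7 l).2.2
        _ = _ := by rw [Finset.prod_const]; simp
    have he3 : |(x 0 : ℝ)| ^ (min 1 ε) ≤ Real.exp (ε * (n + Real.log (1 + |(x 0 : ℝ)|))) := by
      rw [Real.rpow_def_of_pos (by linarith)]
      apply Real.exp_le_exp.2
      have e1 : Real.log |(x 0 : ℝ)| ≤ Real.log (1 + |(x 0 : ℝ)|) :=
        Real.log_le_log (by linarith) (by linarith)
      have e2 : 0 ≤ Real.log |(x 0 : ℝ)| := Real.log_nonneg hx1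
      have e3 : min 1 ε ≤ ε := min_le_right _ _
      have e4 : (0 : ℝ) ≤ n := Nat.cast_nonneg _
      calc Real.log |(x 0 : ℝ)| * min 1 ε ≤ Real.log |(x 0 : ℝ)| * ε := by gcongr
        _ ≤ (n + Real.log (1 + |(x 0 : ℝ)|)) * ε := by
            apply mul_le_mul_of_nonneg_right _ hε.le
            linarith
        _ = _ := by ring
    have h9 : μ / (|(b : ℝ)| * R) ≤ |(x 0 : ℝ)| / |(b : ℝ)| := by
      have e1 := h4 0 (Nat.zero_le _)
      have e2 : |(b : ℝ)| ≤ |(b : ℝ)| * R := by nlinarith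
      gcongr
    have hf0 : 0 ≤ ∏ l, (free S (x (j l)) : ℝ) := Finset.prod_nonneg fun l _ => Nat.cast_nonneg _
    calc (μ / (|(b : ℝ)| * R)) ^ k ≤ (|(x 0 : ℝ)| / |(b : ℝ)|) ^ k := by gcongr
      _ ≤ C * |(x 0 : ℝ)| ^ (min 1 ε) * ∏ l, (free S (x (j l)) : ℝ) := h8
      _ ≤ _ := by gcongr

/-- **More than `k ^ 2` marked terms `u y ^ e` with `|y| ≤ Y` force a dip.** -/
theorem dip {S : Finset ℕ} (hS : ∀ p ∈ S, p.Prime) {p d : ℕ} (K R : ℕ) (hp : p.Prime)
    (hpd : p ∣ d) (hd0 : d ≠ 0) (hdS : ∀ q : ℕ, q.Prime → q ∣ d → q ∈ S)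
    (hK : ∀ q : ℕ, q.Prime → q ≤ K → q ∈ S) (e k : ℕ) (he : 1 ≤ e) (hk : 1 ≤ k) (ε : ℝ)
    (hε : 0 < ε) :
    ∃ C : ℝ, 1 ≤ C ∧ ∀ (n : ℕ) (x : ℕ → ℤ) (m : ℕ → ℕ) (r : ℕ → ℤ) (b : ℤ) (μ Y : ℝ),
      Ch p d K R b n x m r → 0 < μ → (∀ i ≤ n, μ ≤ |(x i : ℝ)|) → ∀ J : Finset ℕ,
      (∀ i ∈ J, i ≤ n ∧ ¬ (p : ℤ) ∣ x i ∧ Pw S e Y (x i)) → k ^ 2 < J.card →
      (μ / (|(b : ℝ)| * R)) ^ k ≤
        C * Real.exp (ε * (n + Real.log (1 + |(x 0 : ℝ)|))) * Y ^ (k + 1) := by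
  obtain ⟨G, hsep0⟩ := separated hS K R hp hpd hd0 hdS hK (e - 1) k hk ε hε
  rw [Nat.sub_add_cancel he] at hsep0
  set LK : ℝ := Real.log (K + 1) with hLK
  have hK0 : (0 : ℝ) ≤ K := Nat.cast_nonneg _
  have hLK0 : 0 ≤ LK := Real.log_nonneg (by linarith)
  set δ : ℝ := ε / (1 + LK) with hδ
  have hδ0 : 0 < δ := by positivity
  obtain ⟨C1, hC1, hclu⟩ := clu hS K R hp hpd hd0 hdS hK e k he hk (k * (G + 1)) δ hδ0
  refine ⟨(G + 1) + C1, by
    have : (0 : ℝ) ≤ G := Nat.cast_nonneg _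
    linarith, ?_⟩
  intro n x m r b μ Y hch hμ hmin J hJ hcard
  have hG0 : (0 : ℝ) ≤ G := Nat.cast_nonneg _
  set N : ℝ := n + Real.log (1 + |(x 0 : ℝ)|) with hN
  have hlog0 : 0 ≤ Real.log (1 + |(x 0 : ℝ)|) :=
    Real.log_nonneg (by linarith [abs_nonneg (x 0 : ℝ)])
  have hn0 : (0 : ℝ) ≤ n := Nat.cast_nonneg _
  have hN0 : 0 ≤ N := add_nonneg hn0 hlog0
  have hx0 : ∀ i ≤ n, x i ≠ 0 := by
    intro i hi h0
    have h1 := hmin i hi
    rw [h0] at h1
    simp at h1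
    linarith
  have hJne : J.Nonempty := Finset.card_pos.1 (by omega)
  obtain ⟨i0, hi0⟩ := hJne
  have hY1 : 1 ≤ Y := Pw_one_le he (hx0 i0 (hJ i0 hi0).1) (hJ i0 hi0).2.2
  have hE1 : 1 ≤ Real.exp (ε * N) := Real.one_le_exp (by positivity)
  have hYk : 1 ≤ Y ^ (k + 1) := one_le_pow₀ hY1
  -- the degenerate case
  rcases lt_or_ge (|(b : ℝ)| * R) 1 with hbR | hbR
  · have h0 : |(b : ℝ)| * R = 0 := by
      have h1 : (|b| * (R : ℤ) : ℤ) < 1 := by
        have h2 : ((|b| * (R : ℤ) : ℤ) : ℝ) < 1 := by push_cast; exact hbR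
        exact_mod_cast h2
      have h3 : 0 ≤ |b| * (R : ℤ) := by positivity
      have h4 : |b| * (R : ℤ) = 0 := by omega
      have h5 : ((|b| * (R : ℤ) : ℤ) : ℝ) = 0 := by rw [h4]; simp
      push_cast at h5
      exact h5
    rw [h0, div_zero, zero_pow (by omega)]
    positivity
  -- the small case
  rcases lt_or_ge μ (|(b : ℝ)| * R) with hμb | hμb
  · have h1 : μ / (|(b : ℝ)| * R) ≤ 1 := by
      rw [div_le_one (by linarith)]
      exact hμb.le
    have h2 : (μ / (|(b : ℝ)| * R)) ^ k ≤ 1 := pow_le_one₀ (by positivity) h1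
    refine h2.trans ?_
    have h3 : 1 ≤ ((G : ℝ) + 1) + C1 := by linarith
    have h4 : 1 ≤ (((G : ℝ) + 1) + C1) * Real.exp (ε * N) := by nlinarith
    nlinarith
  -- the enumeration
  have hcard' : k ^ 2 + 1 ≤ J.card := hcard
  set E := J.orderEmbOfCardLe hcard' with hE
  have hEJ : ∀ a, E a ∈ J := fun a => J.orderEmbOfCardLe_mem hcard' a
  have hEm : StrictMono E := E.strictMono
  have hfin : ∀ a l : ℕ, a + k ≤ k ^ 2 → l < k + 1 → a + l < k ^ 2 + 1 := by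
    intro a l h1 h2
    omega
  by_cases hcase : ∃ (a : ℕ) (ha : a + k ≤ k ^ 2), E ⟨a + k, hfin a k ha (by omega)⟩ ≤
      E ⟨a + 0, hfin a 0 ha (by omega)⟩ + k * (G + 1)
  · -- a short window
    obtain ⟨a, ha, hwin⟩ := hcase
    set s : ℕ := E ⟨a + 0, hfin a 0 ha (by omega)⟩ with hs
    set e' : ℕ := E ⟨a + k, hfin a k ha (by omega)⟩ with he'
    have hse : s ≤ e' := hEm.monotone (by
      rw [Fin.le_def]
      simp)
    have hen : e' ≤ n := (hJ _ (hEJ _)).1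
    let j : Fin (k + 1) → ℕ := fun l => E ⟨a + l, hfin a l ha l.2⟩ - s
    have hjs : ∀ l : Fin (k + 1), s ≤ E ⟨a + l, hfin a l ha l.2⟩ := by
      intro l
      apply hEm.monotone
      rw [Fin.le_def]
      simp
    have hje : ∀ l : Fin (k + 1), E ⟨a + l, hfin a l ha l.2⟩ ≤ e' := by
      intro l
      apply hEm.monotone
      rw [Fin.le_def]
      simp only
      have := l.2
      omega
    have hjm : StrictMono j := by
      intro l l' hll
      have h1 : E ⟨a + l, hfin a l ha l.2⟩ < E ⟨a + l', hfin a l' ha l'.2⟩ := by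
        apply hEm
        rw [Fin.lt_def]
        simp only
        have : (l : ℕ) < l' := hll
        omega
      have h2 := hjs l
      simp only [j]
      omega
    have hsj : ∀ l : Fin (k + 1), s + j l = E ⟨a + l, hfin a l ha l.2⟩ := fun l => by
      have := hjs l
      simp only [j]
      omega
    have h1 := hclu (e' - s) (fun i => x (s + i)) (fun i => m (s + i)) (fun i => r (s + i)) b μ Y
      (hch.shift s (e' - s) (by omega)) hbR hμ (fun i hi => hmin _ (by omega)) (by omega) j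
      hjm.injective (fun l => by
        refine ⟨?_, ?_⟩
        · have := hje l
          have := hsj l
          omega
        · rw [hsj l]
          exact (hJ _ (hEJ _)).2)
    simp only [add_zero] at h1
    refine h1.trans ?_
    have h3 := growth hch hd0 hmin hμb s (by omega)
    have h4 : Real.exp (δ * (((e' - s : ℕ) : ℝ) + Real.log (1 + |(x s : ℝ)|))) ≤
        Real.exp (ε * N) := by
      apply Real.exp_le_exp.2
      have e2 : 1 + |(x s : ℝ)| ≤ ((K : ℝ) + 1) ^ s * (1 + |(x 0 : ℝ)|) := by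
        have : 1 ≤ ((K : ℝ) + 1) ^ s := one_le_pow₀ (by linarith)
        rw [mul_add, mul_one]
        linarith
      have e3 := Real.log_le_log (by positivity) e2
      rw [Real.log_mul (by positivity) (by positivity), Real.log_pow] at e3
      have e4 : ((e' - s : ℕ) : ℝ) + s ≤ n := by exact_mod_cast (by omega : e' - s + s ≤ n)
      have e5 : (s : ℝ) ≤ N := by
        have : (0 : ℝ) ≤ ((e' - s : ℕ) : ℝ) := Nat.cast_nonneg _
        linarith
      have e6 : (s : ℝ) * LK ≤ N * LK := by gcongr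
      have e7 : (0 : ℝ) ≤ s := Nat.cast_nonneg _
      calc δ * (((e' - s : ℕ) : ℝ) + Real.log (1 + |(x s : ℝ)|)) ≤ δ * ((1 + LK) * N) := by
            gcongr
            have : ((e' - s : ℕ) : ℝ) + Real.log (1 + |(x s : ℝ)|) ≤ N + s * LK := by
              simp only [hN]
              linarith
            linarith
        _ = ε * N := by rw [hδ]; field_simp
    calc C1 * Real.exp (δ * (((e' - s : ℕ) : ℝ) + Real.log (1 + |(x s : ℝ)|))) * Y ^ (k + 1)
        ≤ C1 * Real.exp (ε * N) * Y ^ (k + 1) := by gcongr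
      _ ≤ _ := by
        gcongr
        linarith
  · -- large gaps
    push Not at hcase
    have hlk : ∀ l : Fin (k + 1), (l : ℕ) * k < k ^ 2 + 1 := by
      intro l
      have h1 : (l : ℕ) ≤ k := by have := l.2; omega
      calc (l : ℕ) * k ≤ k * k := Nat.mul_le_mul_right _ h1
        _ < k ^ 2 + 1 := by rw [pow_two]; omega
    let j : Fin (k + 1) → ℕ := fun l => E ⟨(l : ℕ) * k, hlk l⟩
    have hgap : ∀ l l' : Fin (k + 1), l < l' → j l + G < j l' := by
      intro l l' hll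
      have hll' : (l : ℕ) < l' := hll
      have hl'k : (l' : ℕ) ≤ k := by have := l'.2; omega
      have e1 : ((l : ℕ) + 1) * k ≤ k ^ 2 := by
        rw [pow_two]
        exact Nat.mul_le_mul_right _ (by omega)
      have e2 : (l : ℕ) * k + k ≤ k ^ 2 := by
        calc (l : ℕ) * k + k = ((l : ℕ) + 1) * k := by ring
          _ ≤ _ := e1
      have h1 := hcase ((l : ℕ) * k) e2
      have h2 : E ⟨(l : ℕ) * k + k, hfin _ k e2 (by omega)⟩ ≤ j l' := by
        apply hEm.monotone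
        rw [Fin.le_def]
        simp only
        calc (l : ℕ) * k + k = ((l : ℕ) + 1) * k := by ring
          _ ≤ (l' : ℕ) * k := Nat.mul_le_mul_right _ (by omega)
      have h3 : E ⟨(l : ℕ) * k + 0, hfin _ 0 e2 (by omega)⟩ = j l := by
        simp only [j, add_zero]
      rw [h3] at h1
      have h4 : G < k * (G + 1) := by nlinarith
      omega
    have h1 := hsep0 n x m r b μ Y hch hbR hμ hmin j hgap (fun l => hJ _ (hEJ _))
    refine h1.trans ?_
    gcongr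
    linarith

end Pool.Agent.U773.PW
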