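import Mathlib
import Pool.Agent.U773.PW.Main

/-! Windows of logarithmic length. -/

set_option autoImplicit false

namespace Pool.Agent.U773.PW

open Finset Filter Pool.Agent.U773.SF

lemma decay {p d K R : ℕ} {b : ℤ} {n : ℕ} {x : ℕ → ℤ} {m : ℕ → ℕ} {r : ℕ → ℤ}
    (h : Ch p d K R b n x m r) (hd0 : d ≠ 0) {μ : ℝ} (hmin : ∀ i ≤ n, μ ≤ |(x i : ℝ)|)
    (hb : |(b : ℝ)| * R ≤ μ / 2) : ∀ i ≤ n, |(x 0 : ℝ)| ≤ (2 * (d : ℝ)) ^ i * |(x i : ℝ)| := by
  intro i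
  induction i with
  | zero => intro _; simp
  | succ i ih =>
    intro hi
    have h1 := ih (by omega)
    obtain ⟨⟨h3, h4, -⟩, h5, h6⟩ := h i (by omega)
    have e1 : (d : ℝ) * x (i + 1) = m i * x i + b * r i := by exact_mod_cast h6
    have hd1 : (1 : ℝ) ≤ d := by exact_mod_cast Nat.one_le_iff_ne_zero.2 hd0
    have hr : |(r i : ℝ)| ≤ R := by exact_mod_cast h5
    have hm : (1 : ℝ) ≤ m i := by exact_mod_cast h3
    have e4 := hmin i (by omega)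
    have e2 : |(x i : ℝ)| ≤ 2 * ((d : ℝ) * |(x (i + 1) : ℝ)|) := by
      have e5 : |(x i : ℝ)| ≤ |(m i : ℝ) * x i| := by
        rw [abs_mul, abs_of_nonneg (by linarith : (0 : ℝ) ≤ (m i : ℝ))]
        nlinarith [abs_nonneg (x i : ℝ)]
      have e6 : |(m i : ℝ) * x i| ≤ |(d : ℝ) * x (i + 1)| + |(b : ℝ) * r i| := by
        have : (m i : ℝ) * x i = (d : ℝ) * x (i + 1) - b * r i := by linarith
        rw [this]
        exact abs_sub _ _
      have e7 : |(b : ℝ) * r i| ≤ |(x i : ℝ)| / 2 := by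
        rw [abs_mul]
        calc |(b : ℝ)| * |(r i : ℝ)| ≤ |(b : ℝ)| * R := by gcongr
          _ ≤ μ / 2 := hb
          _ ≤ _ := by linarith
      rw [abs_mul (d : ℝ), abs_of_nonneg (by linarith : (0 : ℝ) ≤ (d : ℝ))] at e6
      linarith
    calc |(x 0 : ℝ)| ≤ (2 * (d : ℝ)) ^ i * |(x i : ℝ)| := h1
      _ ≤ (2 * (d : ℝ)) ^ i * (2 * ((d : ℝ) * |(x (i + 1) : ℝ)|)) := by gcongr
      _ = _ := by rw [pow_succ]; ring

/-- **Windows of logarithmic length.** -/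
theorem window {S : Finset ℕ} (hS : ∀ p ∈ S, p.Prime) {p d : ℕ} (K R : ℕ) (hp : p.Prime)
    (hpd : p ∣ d) (hd0 : d ≠ 0) (hdS : ∀ q : ℕ, q.Prime → q ∣ d → q ∈ S)
    (hK : ∀ q : ℕ, q.Prime → q ≤ K → q ∈ S) (e k : ℕ) (he : 1 ≤ e) (hk : 1 ≤ k) (κ β A : ℝ)
    (hκ : 0 ≤ κ) (hβ : 0 ≤ β) (hkβ : κ < (1 - κ - β) * k) (hA : 0 < A) (hR : 1 ≤ R) :
    ∃ μ₀ : ℝ, 1 < μ₀ ∧ ∀ (n : ℕ) (x : ℕ → ℤ) (m : ℕ → ℕ) (r : ℕ → ℤ) (b : ℤ) (μ : ℝ),
      Ch p d K R b n x m r → b ≠ 0 → μ₀ ≤ μ → |(b : ℝ)| ≤ μ ^ β → (n : ℝ) ≤ A * Real.log μ →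
      (∀ i ≤ n, μ ≤ |(x i : ℝ)|) → ∀ J : Finset ℕ,
      (∀ i ∈ J, i ≤ n ∧ ¬ (p : ℤ) ∣ x i ∧ Pw S e (μ ^ κ) (x i)) → J.card ≤ k ^ 2 := by
  have hk0 : (0 : ℝ) < k := by exact_mod_cast hk
  have hβ1 : β < 1 := by
    by_contra h
    push Not at h
    nlinarith
  set LD : ℝ := Real.log (2 * d) with hLD
  have hd1 : (1 : ℝ) ≤ d := by exact_mod_cast Nat.one_le_iff_ne_zero.2 hd0
  have hLD0 : 0 ≤ LD := Real.log_nonneg (by linarith)
  set B : ℝ := 2 + 2 * A * LD with hB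
  have hB2 : 2 ≤ B := by
    have : 0 ≤ 2 * A * LD := by positivity
    linarith
  set A' : ℝ := A + B + 2 with hA'
  have hA'0 : 0 < A' := by linarith
  set θ : ℝ := (1 - κ - β) * k - κ with hθ
  have hθ0 : 0 < θ := by linarith
  set ε : ℝ := θ / (2 * A') with hε
  have hε0 : 0 < ε := by positivity
  obtain ⟨C, hC, hdip⟩ := dip hS K R hp hpd hd0 hdS hK e k he hk ε hε0
  have hR1 : (1 : ℝ) ≤ R := by exact_mod_cast hR
  have hev : ∀ᶠ μ : ℝ in atTop, 1 < μ ∧ 2 * R ≤ μ ^ (1 - β) ∧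
      C * Real.exp ε * (R : ℝ) ^ k < μ ^ (θ / 2) :=
    (eventually_gt_atTop 1).and (((tendsto_rpow_atTop (by linarith)).eventually_ge_atTop _).and
      ((tendsto_rpow_atTop (by linarith)).eventually_gt_atTop _))
  obtain ⟨μ₁, hμ₁⟩ := eventually_atTop.1 hev
  refine ⟨max μ₁ 2, lt_of_lt_of_le one_lt_two (le_max_right _ _), ?_⟩
  -- the core
  have hcore : ∀ (n : ℕ) (x : ℕ → ℤ) (m : ℕ → ℕ) (r : ℕ → ℤ) (b : ℤ) (μ : ℝ),
      Ch p d K R b n x m r → b ≠ 0 → μ₁ ≤ μ → |(b : ℝ)| ≤ μ ^ β →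
      (n : ℝ) + Real.log (1 + |(x 0 : ℝ)|) ≤ A' * Real.log μ + 1 →
      (∀ i ≤ n, μ ≤ |(x i : ℝ)|) → ∀ J : Finset ℕ,
      (∀ i ∈ J, i ≤ n ∧ ¬ (p : ℤ) ∣ x i ∧ Pw S e (μ ^ κ) (x i)) → J.card ≤ k ^ 2 := by
    intro n x m r b μ hch hb0 hμ hb hN hmin J hJ
    by_contra hcard
    push Not at hcard
    obtain ⟨h1, -, h3⟩ := hμ₁ μ hμ
    have hμ0 : 0 < μ := by linarith
    have h4 := hdip n x m r b μ (μ ^ κ) hch hμ0 hmin J hJ hcard
    have hb1 : (1 : ℝ) ≤ |(b : ℝ)| := by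
      have : 1 ≤ |b| := Int.one_le_abs hb0
      exact_mod_cast this
    have h5 : Real.exp (ε * (n + Real.log (1 + |(x 0 : ℝ)|))) ≤ Real.exp ε * μ ^ (θ / 2) := by
      rw [Real.rpow_def_of_pos hμ0, ← Real.exp_add]
      apply Real.exp_le_exp.2
      calc ε * (n + Real.log (1 + |(x 0 : ℝ)|)) ≤ ε * (A' * Real.log μ + 1) := by gcongr
        _ = _ := by rw [hε]; field_simp; ring
    have h6 : μ ^ (1 - β) / R ≤ μ / (|(b : ℝ)| * R) := by
      rw [div_le_div_iff₀ (by positivity) (by positivity)]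
      have h7 : μ ^ (1 - β) * |(b : ℝ)| ≤ μ := by
        calc μ ^ (1 - β) * |(b : ℝ)| ≤ μ ^ (1 - β) * μ ^ β := by gcongr
          _ = μ := by rw [← Real.rpow_add hμ0]; simp
      calc μ ^ (1 - β) * (|(b : ℝ)| * R) = (μ ^ (1 - β) * |(b : ℝ)|) * R := by ring
        _ ≤ μ * R := by gcongr
    have h8 : (μ ^ (1 - β) / R) ^ k ≤ C * (Real.exp ε * μ ^ (θ / 2)) * (μ ^ κ) ^ (k + 1) := by
      calc (μ ^ (1 - β) / R) ^ k ≤ (μ / (|(b : ℝ)| * R)) ^ k := by gcongr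
        _ ≤ _ := h4
        _ ≤ _ := by gcongr
    rw [div_pow, div_le_iff₀ (by positivity), ← Real.rpow_natCast, ← Real.rpow_mul hμ0.le,
      ← Real.rpow_natCast (μ ^ κ), ← Real.rpow_mul hμ0.le] at h8
    have h9 : μ ^ ((1 - β) * k) = μ ^ θ * μ ^ (κ * ((k + 1 : ℕ) : ℝ)) := by
      rw [← Real.rpow_add hμ0]
      congr 1
      rw [hθ]
      push_cast
      ring
    rw [h9] at h8
    have h10 : 0 < μ ^ (κ * ((k + 1 : ℕ) : ℝ)) := Real.rpow_pos_of_pos hμ0 _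
    have h11 : μ ^ θ ≤ C * Real.exp ε * (R : ℝ) ^ k * μ ^ (θ / 2) := by
      have : μ ^ θ * μ ^ (κ * ((k + 1 : ℕ) : ℝ)) ≤
          (C * Real.exp ε * (R : ℝ) ^ k * μ ^ (θ / 2)) * μ ^ (κ * ((k + 1 : ℕ) : ℝ)) := by
        refine h8.trans (le_of_eq ?_)
        ring
      exact le_of_mul_le_mul_right this h10
    have h12 : μ ^ θ = μ ^ (θ / 2) * μ ^ (θ / 2) := by
      rw [← Real.rpow_add hμ0]; congr 1; ring
    rw [h12] at h11
    have h13 : 0 < μ ^ (θ / 2) := Real.rpow_pos_of_pos hμ0 _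
    have h14 := le_of_mul_le_mul_right h11 h13
    linarith
  intro n x m r b μ hch hb0 hμ hb hn hmin J hJ
  have hμ1 : μ₁ ≤ μ := (le_max_left _ _).trans hμ
  have hμ2 : 2 ≤ μ := (le_max_right _ _).trans hμ
  have hμ0 : 0 < μ := by linarith
  have hlμ : 0 ≤ Real.log μ := Real.log_nonneg (by linarith)
  have hl2 : Real.log 2 ≤ 1 := by
    have := Real.log_two_lt_d9
    linarith
  have hx1 : (1 : ℝ) ≤ |(x 0 : ℝ)| := by
    have := hmin 0 (Nat.zero_le _)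
    linarith
  have hlx : Real.log (1 + |(x 0 : ℝ)|) ≤ 1 + Real.log |(x 0 : ℝ)| := by
    calc Real.log (1 + |(x 0 : ℝ)|) ≤ Real.log (2 * |(x 0 : ℝ)|) :=
          Real.log_le_log (by linarith) (by linarith)
      _ = Real.log 2 + Real.log |(x 0 : ℝ)| := Real.log_mul (by norm_num) (by linarith)
      _ ≤ _ := by linarith
  rcases le_or_gt |(x 0 : ℝ)| (μ ^ B) with hlow | hhigh
  · -- low
    refine hcore n x m r b μ hch hb0 hμ1 hb ?_ hmin J hJ
    have h1 : Real.log |(x 0 : ℝ)| ≤ B * Real.log μ := by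
      have := Real.log_le_log (by linarith) hlow
      rwa [Real.log_rpow hμ0] at this
    calc (n : ℝ) + Real.log (1 + |(x 0 : ℝ)|) ≤ A * Real.log μ + (1 + B * Real.log μ) := by linarith
      _ ≤ _ := by rw [hA']; nlinarith
  · -- high
    obtain ⟨-, h2, -⟩ := hμ₁ μ hμ1
    set ν : ℝ := |(x 0 : ℝ)| ^ (1 / 2 : ℝ) with hν
    have hbR : |(b : ℝ)| * R ≤ μ / 2 := by
      have h3 : μ ^ β * μ ^ (1 - β) = μ := by rw [← Real.rpow_add hμ0]; simp
      have h4 : 0 < μ ^ β := Real.rpow_pos_of_pos hμ0 _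
      calc |(b : ℝ)| * R ≤ μ ^ β * R := by gcongr
        _ ≤ μ ^ β * (μ ^ (1 - β) / 2) := by gcongr; linarith
        _ = _ := by rw [← mul_div_assoc, h3]
    have h3 := decay hch hd0 hmin hbR
    have hxB : μ ^ (B / 2) ≤ ν := by
      rw [hν]
      have h4 : μ ^ (B / 2) = (μ ^ B) ^ (1 / 2 : ℝ) := by
        rw [← Real.rpow_mul hμ0.le]; congr 1; ring
      rw [h4]
      exact Real.rpow_le_rpow (by positivity) hhigh.le (by norm_num)
    have hμν : μ ≤ ν := by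
      refine le_trans ?_ hxB
      calc μ = μ ^ (1 : ℝ) := (Real.rpow_one μ).symm
        _ ≤ μ ^ (B / 2) := Real.rpow_le_rpow_of_exponent_le (by linarith) (by linarith)
    have hν0 : 0 < ν := by linarith
    have hνν : ν * ν = |(x 0 : ℝ)| := by
      rw [hν, ← Real.rpow_add (by linarith)]
      norm_num
    have hmin2 : ∀ i ≤ n, ν ≤ |(x i : ℝ)| := by
      intro i hi
      have h4 := h3 i hi
      have h5 : (2 * (d : ℝ)) ^ i ≤ ν := by
        refine le_trans ?_ hxB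
        have h6 : (2 * (d : ℝ)) ^ i = Real.exp (LD * i) := by
          rw [hLD, ← Real.rpow_natCast, Real.rpow_def_of_pos (by positivity)]
        rw [h6, Real.rpow_def_of_pos hμ0]
        apply Real.exp_le_exp.2
        have h7 : (i : ℝ) ≤ A * Real.log μ := le_trans (by exact_mod_cast hi) hn
        calc LD * i ≤ LD * (A * Real.log μ) := by gcongr
          _ ≤ Real.log μ * (B / 2) := by rw [hB]; nlinarith
      have h6 : ν * ν ≤ ν * |(x i : ℝ)| := by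
        rw [hνν]
        refine h4.trans ?_
        gcongr
      exact le_of_mul_le_mul_left h6 hν0
    refine hcore n x m r b ν hch hb0 (hμ1.trans hμν) (hb.trans ?_) ?_ hmin2 J ?_
    · exact Real.rpow_le_rpow hμ0.le hμν hβ
    · have h5 : Real.log |(x 0 : ℝ)| = 2 * Real.log ν := by
        rw [← hνν, Real.log_mul hν0.ne' hν0.ne']; ring
      have h6 : Real.log μ ≤ Real.log ν := Real.log_le_log hμ0 hμν
      calc (n : ℝ) + Real.log (1 + |(x 0 : ℝ)|) ≤ A * Real.log ν + (1 + 2 * Real.log ν) := by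
            rw [h5] at hlx
            have : A * Real.log μ ≤ A * Real.log ν := by gcongr
            linarith
        _ ≤ _ := by
            rw [hA']
            have : 0 ≤ Real.log ν := hlμ.trans h6
            nlinarith
    · intro i hi
      obtain ⟨h5, h6, h7⟩ := hJ i hi
      exact ⟨h5, h6, h7.mono (Subset.refl _) (Real.rpow_le_rpow hμ0.le hμν hκ)⟩

end Pool.Agent.U773.PW
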