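import Mathlib
import Pool.Agent.U773.PW.Win
import Pool.Agent.U773.SP.Cyc

/-! The maps `x ↦ x / 2`, `x ↦ (a x + b) / 2`: windows and cycles. -/

set_option autoImplicit false

namespace Pool.Agent.U773.PW

open Finset Function Pool.Agent.U773.SP

open scoped Classical

lemma Ch_T (a : ℕ) (ha : a % 2 = 1) (b x : ℤ) (hb : b % 2 = 1) (n : ℕ) :
    Ch 2 2 a 1 b n (fun i => (Tm a b)^[i] x)
      (fun i => if (Tm a b)^[i] x % 2 = 1 then a else 1)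
      (fun i => if (Tm a b)^[i] x % 2 = 1 then 1 else 0) := by
  intro i _
  refine ⟨?_, ?_, ?_⟩
  · beta_reduce
    split_ifs
    · exact ⟨by omega, le_rfl, by omega⟩
    · exact ⟨le_rfl, by omega, by norm_num⟩
  · beta_reduce
    split_ifs <;> simp
  · simp only [iterate_succ_apply']
    set y := (Tm a b)^[i] x with hy
    unfold Tm
    rcases Int.emod_two_eq_zero_or_one y with h | h
    · rw [if_pos h, if_neg (by omega), if_neg (by omega)]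
      push_cast
      omega
    · rw [if_neg (by omega), if_pos h, if_pos h]
      have h3 : (a * y + b) % 2 = 0 := by
        rw [Int.add_emod, Int.mul_emod, h, hb]
        have : (a : ℤ) % 2 = 1 := by omega
        rw [this]
        norm_num
      have h4 : (a : ℤ) * y + b = 2 * ((a * y + b) / 2) := by omega
      push_cast
      linarith

/-- the primes -/
def bigS (a : ℕ) (S : Finset ℕ) : Finset ℕ :=
  (S ∪ range (a + 3)).filter Nat.Prime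

lemma bigS_prime (a : ℕ) (S : Finset ℕ) : ∀ p ∈ bigS a S, p.Prime := fun _ hp =>
  (mem_filter.1 hp).2

lemma Pw_bigS {a : ℕ} {S : Finset ℕ} {e : ℕ} {Y : ℝ} {x : ℤ} (h : Pw S e Y x) :
    Pw (bigS a S) e Y x := by
  obtain ⟨u, y, h1, h2, h3⟩ := h
  exact ⟨u, y, h1, fun q hq hqu => mem_filter.2 ⟨mem_union_left _ (h2 q hq hqu), hq⟩, h3⟩

lemma bigS_small (a : ℕ) (S : Finset ℕ) : ∀ q : ℕ, q.Prime → q ≤ a + 2 → q ∈ bigS a S :=
  fun q hq hqa => mem_filter.2 ⟨mem_union_right _ (mem_range.2 (by omega)), hq⟩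

theorem window_T (a : ℕ) (ha : a % 2 = 1) (S : Finset ℕ) (e k : ℕ) (he : 1 ≤ e) (hk : 1 ≤ k)
    (κ β A : ℝ) (hκ : 0 ≤ κ) (hβ : 0 ≤ β) (hkβ : κ < (1 - κ - β) * k) (hA : 0 < A) :
    ∃ μ₀ : ℝ, 1 < μ₀ ∧ ∀ (b x : ℤ) (n : ℕ) (μ : ℝ), b % 2 = 1 → μ₀ ≤ μ → |(b : ℝ)| ≤ μ ^ β →
      (n : ℝ) ≤ A * Real.log μ → (∀ i ≤ n, μ ≤ |(((Tm a b)^[i] x : ℤ) : ℝ)|) →
      ((range (n + 1)).filter (fun i => (Tm a b)^[i] x % 2 = 1 ∧
        Pw S e (μ ^ κ) ((Tm a b)^[i] x))).card ≤ k ^ 2 := by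
  obtain ⟨μ₀, h1, h2⟩ := window (bigS_prime a S) (p := 2) (d := 2) a 1 Nat.prime_two (dvd_refl 2)
    two_ne_zero (fun q hq hqd => bigS_small a S q hq (by
      have := (Nat.prime_dvd_prime_iff_eq hq Nat.prime_two).1 hqd
      omega)) (fun q hq hqa => bigS_small a S q hq (by omega)) e k he hk κ β A hκ hβ hkβ hA le_rfl
  refine ⟨μ₀, h1, ?_⟩
  intro b x n μ hb hμ hbμ hn hmin
  apply h2 n _ _ _ b μ (Ch_T a ha b x hb n) (by rintro rfl; simp at hb) hμ hbμ hn hmin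
  intro i hi
  rw [mem_filter, mem_range] at hi
  refine ⟨by omega, ?_, Pw_bigS hi.2.2⟩
  have := hi.2.1
  simp only [Nat.cast_ofNat]
  omega

lemma sum_period {f : ℕ → ℕ} {p : ℕ} (hf : ∀ i, f (i + p) = f i) (n : ℕ) :
    ∑ i ∈ range (n * p), f i = n * ∑ i ∈ range p, f i := by
  have h1 : ∀ n i, f (n * p + i) = f i := by
    intro n
    induction n with
    | zero => intro i; rw [zero_mul, zero_add]
    | succ n ih =>
      intro i
      have : (n + 1) * p + i = (n * p + i) + p := by ring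
      rw [this, hf, ih]
  induction n with
  | zero => simp
  | succ n ih =>
    rw [add_mul, one_mul, Finset.sum_range_add, ih, Finset.sum_congr rfl (fun i _ => h1 n i)]
    ring

lemma sum_windows {f : ℕ → ℕ} {L : ℕ} {B : ℕ} (hf : ∀ s, ∑ i ∈ range L, f (s + i) ≤ B) (n : ℕ) :
    ∑ i ∈ range (n * L), f i ≤ n * B := by
  induction n with
  | zero => simp
  | succ n ih =>
    rw [add_mul, one_mul, Finset.sum_range_add, add_mul, one_mul]
    exact add_le_add ih (hf _)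

/-- from windows to a full period -/
lemma period_count {f : ℕ → ℕ} {p L B : ℕ} (hp : ∀ i, f (i + p) = f i)
    (hf : ∀ s, ∑ i ∈ range L, f (s + i) ≤ B) : L * ∑ i ∈ range p, f i ≤ p * B := by
  have h1 := sum_period hp L
  have h2 := sum_windows hf p
  rw [mul_comm L p] at h1
  rw [← h1]
  exact h2

lemma card_filter_sum {f : ℤ → ℤ} (P : ℤ → Prop) (x : ℤ) (n : ℕ) :
    ((range n).filter (fun i => P (f^[i] x))).card = ∑ i ∈ range n, if P (f^[i] x) then 1 else 0 := by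
  rw [Finset.card_filter]

theorem cycle_T (a : ℕ) (ha : a % 2 = 1) (S : Finset ℕ) (e : ℕ) (he : 1 ≤ e)
    (κ β η : ℝ) (hκ : 0 ≤ κ) (hβ : 0 ≤ β) (hκβ : κ + β < 1) (hη : 0 < η) :
    ∃ μ₀ : ℝ, 1 < μ₀ ∧ ∀ (b : ℤ) (Z : Finset ℤ) (μ : ℝ), b % 2 = 1 → IsCyc (Tm a b) Z →
      μ₀ ≤ μ → |(b : ℝ)| ≤ μ ^ β → (∀ x ∈ Z, μ ≤ |(x : ℝ)|) →
      ((Z.filter (fun x => x % 2 = 1 ∧ Pw S e (μ ^ κ) x)).card : ℝ) * Real.log μ ≤
        η * Z.card := by
  obtain ⟨k, hk⟩ := exists_nat_gt (max 1 (κ / (1 - κ - β)))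
  have hk1 : 1 ≤ k := by
    have h1 : (1 : ℝ) < k := (le_max_left _ _).trans_lt hk
    have h2 : 1 < k := by exact_mod_cast h1
    omega
  have hk2 : κ < (1 - κ - β) * k := by
    have h1 := (le_max_right _ _).trans_lt hk
    rw [div_lt_iff₀ (by linarith)] at h1
    linarith
  obtain ⟨μ₀, h1, h2⟩ := window_T a ha S e k he hk1 κ β (k ^ 2 / η) hκ hβ hk2 (by positivity)
  refine ⟨μ₀, h1, ?_⟩
  intro b Z μ hb hZ hμ hbμ hmin
  obtain ⟨x, hp0, hx, hinj, hZx⟩ := hZ.exists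
  have hmem : ∀ i, (Tm a b)^[i] x ∈ Z := by
    intro i
    have h3 : (Tm a b)^[i] x = (Tm a b)^[i % Z.card] x := by
      conv_lhs => rw [← Nat.mod_add_div i Z.card]
      rw [iterate_add_apply, iterate_mul]
      congr 1
      exact iterate_fixed hx _
    have h4 : (Tm a b)^[i % Z.card] x ∈ (range Z.card).image (fun i => (Tm a b)^[i] x) :=
      mem_image_of_mem _ (mem_range.2 (Nat.mod_lt _ hp0))
    rw [← hZx] at h4
    rw [h3]
    exact h4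
  have hlμ : 0 ≤ Real.log μ := Real.log_nonneg (by linarith)
  obtain ⟨P, hP⟩ : ∃ P : ℤ → Prop, P = fun y => y % 2 = 1 ∧ Pw S e (μ ^ κ) y := ⟨_, rfl⟩
  obtain ⟨n, hn1, hn2⟩ : ∃ n : ℕ, (n : ℝ) ≤ (k ^ 2 / η) * Real.log μ ∧
      (k ^ 2 / η) * Real.log μ < (n : ℝ) + 1 :=
    ⟨⌊(k ^ 2 / η) * Real.log μ⌋₊, Nat.floor_le (by positivity), Nat.lt_floor_add_one _⟩
  have h3 := period_count (f := fun i => if P ((Tm a b)^[i] x) then 1 else 0) (p := Z.card)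
    (L := n + 1) (B := k ^ 2) (fun i => by
      simp only [iterate_add_apply, hx]) (fun s => by
      have h4 := h2 b ((Tm a b)^[s] x) n μ hb hμ hbμ hn1 (fun i _ => by
        rw [← iterate_add_apply]
        exact hmin _ (hmem _))
      rw [Finset.card_filter] at h4
      refine le_trans (le_of_eq ?_) h4
      refine Finset.sum_congr rfl fun i _ => ?_
      simp only [hP, ← iterate_add_apply, add_comm i s])
  have h4 : (Z.filter P).card = ∑ i ∈ range Z.card, if P ((Tm a b)^[i] x) then 1 else 0 := by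
    rw [← Finset.card_filter]
    exact (card_filter_cyc hinj hZx P).trans (card_inst _ _ _ _)
  rw [← h4] at h3
  have h10 : ∀ c q : ℕ, (n + 1) * c ≤ q * k ^ 2 → (c : ℝ) * Real.log μ ≤ η * q := by
    intro c q h3
    have h5 : ((n : ℝ) + 1) * (c : ℝ) ≤ (q : ℝ) * (k : ℝ) ^ 2 := by exact_mod_cast h3
    have h6 : (0 : ℝ) ≤ c := Nat.cast_nonneg _
    have h7 : ((k ^ 2 / η) * Real.log μ) * (c : ℝ) ≤ (q : ℝ) * (k : ℝ) ^ 2 :=
      (mul_le_mul_of_nonneg_right hn2.le h6).trans h5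
    have hk0 : (0 : ℝ) < (k : ℝ) ^ 2 := by
      have : (0 : ℝ) < k := by exact_mod_cast hk1
      positivity
    have h8 : (k : ℝ) ^ 2 / η * ((c : ℝ) * Real.log μ) ≤ (k : ℝ) ^ 2 / η * (η * (q : ℝ)) := by
      have e1 : (k : ℝ) ^ 2 / η * ((c : ℝ) * Real.log μ) =
          ((k ^ 2 / η) * Real.log μ) * (c : ℝ) := by ring
      have e2 : (k : ℝ) ^ 2 / η * (η * (q : ℝ)) = (q : ℝ) * (k : ℝ) ^ 2 := by
        field_simp
      rw [e1, e2]
      exact h7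
    exact le_of_mul_le_mul_left h8 (by positivity)
  have h9 := h10 _ _ h3
  subst hP
  exact (le_of_eq (by rw [card_inst' _ _ _ _])).trans h9

lemma cyc_map {f : ℤ → ℤ} {Z : Finset ℤ} (h : IsCyc f Z) {x : ℤ} (hx : x ∈ Z) (i : ℕ) :
    f^[i] x ∈ Z := by
  obtain ⟨x0, hp0, hx0, -, hZ⟩ := h.exists
  rw [hZ, mem_image] at hx
  obtain ⟨t, -, rfl⟩ := hx
  have h3 : f^[i] (f^[t] x0) = f^[(i + t) % Z.card] x0 := by
    rw [← iterate_add_apply]
    conv_lhs => rw [← Nat.mod_add_div (i + t) Z.card]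
    rw [iterate_add_apply, iterate_mul]
    congr 1
    exact iterate_fixed hx0 _
  have h4 : f^[(i + t) % Z.card] x0 ∈ (range Z.card).image (fun i => f^[i] x0) :=
    mem_image_of_mem _ (mem_range.2 (Nat.mod_lt _ hp0))
  rw [← hZ] at h4
  rw [h3]
  exact h4

lemma cyc_reach {f : ℤ → ℤ} {Z : Finset ℤ} (h : IsCyc f Z) {x z : ℤ} (hx : x ∈ Z)
    (hz : z ∈ Z) : ∃ i, f^[i] x = z := by
  obtain ⟨x0, hp0, hx0, -, hZ⟩ := h.exists
  rw [hZ, mem_image] at hx hz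
  obtain ⟨t, ht, rfl⟩ := hx
  obtain ⟨u, hu, rfl⟩ := hz
  rw [mem_range] at ht hu
  refine ⟨u + (Z.card - t), ?_⟩
  rw [← iterate_add_apply]
  have : u + (Z.card - t) + t = u + Z.card := by omega
  rw [this, iterate_add_apply, hx0]

lemma cyc_unique {f : ℤ → ℤ} {Z Z' : Finset ℤ} (h : IsCyc f Z) (h' : IsCyc f Z') {x : ℤ}
    (hx : x ∈ Z) (hx' : x ∈ Z') : Z = Z' := by
  ext z
  constructor
  · intro hz
    obtain ⟨i, rfl⟩ := cyc_reach h hx hz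
    exact cyc_map h' hx' i
  · intro hz
    obtain ⟨i, rfl⟩ := cyc_reach h' hx' hz
    exact cyc_map h hx i

lemma finite_low (f : ℤ → ℤ) (M : ℤ) :
    {Z : Finset ℤ | IsCyc f Z ∧ ∃ x ∈ Z, |x| ≤ M}.Finite := by
  apply Set.Finite.subset (Set.Finite.biUnion (Finset.finite_toSet (Icc (-M) M))
    (t := fun x => {Z : Finset ℤ | IsCyc f Z ∧ x ∈ Z}) (fun x _ => Set.Subsingleton.finite
      (fun Z hZ Z' hZ' => cyc_unique hZ.1 hZ'.1 hZ.2 hZ'.2)))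
  rintro Z ⟨hZ, x, hx, hM⟩
  rw [Set.mem_iUnion₂]
  exact ⟨x, mem_coe.2 (mem_Icc.2 (abs_le.1 hM)), hZ, hx⟩

/-- all but finitely many cycles of a map have few elements `u y ^ e` with small `y` -/
theorem finite_T (a : ℕ) (ha : a % 2 = 1) (b : ℤ) (hb : b % 2 = 1) (S : Finset ℕ) (e : ℕ)
    (he : 1 ≤ e) (κ η : ℝ) (hκ : 0 ≤ κ) (hκ1 : κ < 1) (hη : 0 < η) :
    {Z : Finset ℤ | IsCyc (Tm a b) Z ∧ ∃ x₀ ∈ Z, (∀ x ∈ Z, |x₀| ≤ |x|) ∧
      η * Z.card < ((Z.filter (fun x => x % 2 = 1 ∧ Pw S e (|(x₀ : ℝ)| ^ κ) x)).card : ℝ) *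
        Real.log |(x₀ : ℝ)|}.Finite := by
  obtain ⟨μ₀, h1, h2⟩ := cycle_T a ha S e he κ ((1 - κ) / 2) η hκ (by linarith) (by linarith) hη
  obtain ⟨M, hM⟩ : ∃ M : ℤ, ∀ μ : ℝ, (M : ℝ) < μ → μ₀ ≤ μ ∧ |(b : ℝ)| ≤ μ ^ ((1 - κ) / 2) := by
    have hev : ∀ᶠ μ : ℝ in Filter.atTop, μ₀ ≤ μ ∧ |(b : ℝ)| ≤ μ ^ ((1 - κ) / 2) :=
      (Filter.eventually_ge_atTop μ₀).and
        ((tendsto_rpow_atTop (by linarith)).eventually_ge_atTop _)
    obtain ⟨M1, hM1⟩ := Filter.eventually_atTop.1 hev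
    exact ⟨⌈M1⌉, fun μ hμ => hM1 μ ((Int.le_ceil M1).trans hμ.le)⟩
  apply (finite_low (Tm a b) M).subset
  rintro Z ⟨hZ, x₀, hx₀, hmin, hbig⟩
  refine ⟨hZ, x₀, hx₀, ?_⟩
  by_contra hlt
  push Not at hlt
  have h3 : (M : ℝ) < |(x₀ : ℝ)| := by exact_mod_cast hlt
  obtain ⟨h4, h5⟩ := hM _ h3
  have h6 := h2 b Z |(x₀ : ℝ)| hb hZ h4 h5 (fun x hx => by exact_mod_cast hmin x hx)
  linarith

end Pool.Agent.U773.PW
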