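import Mathlib
import Pool.Agent.U773.PW.Win

/-! Terms `u y ^ e` with `|y|` at most a power of the term: windows, and the mass inequality. -/

set_option autoImplicit false

namespace Pool.Agent.U773.PW

open Finset Filter Pool.Agent.U773.SF

lemma decay2 {p d K R : ℕ} {b : ℤ} {n : ℕ} {x : ℕ → ℤ} {m : ℕ → ℕ} {r : ℕ → ℤ}
    (h : Ch p d K R b n x m r) (hd0 : d ≠ 0) {ν : ℝ} (hb : |(b : ℝ)| * R ≤ ν / 2)
    (hν : (2 * (d : ℝ)) ^ n * ν ≤ |(x 0 : ℝ)|) (hν0 : 0 < ν) : ∀ i ≤ n, ν ≤ |(x i : ℝ)| := by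
  have hd1 : (1 : ℝ) ≤ d := by exact_mod_cast Nat.one_le_iff_ne_zero.2 hd0
  have key : ∀ i ≤ n, |(x 0 : ℝ)| ≤ (2 * (d : ℝ)) ^ i * |(x i : ℝ)| ∧ ν ≤ |(x i : ℝ)| := by
    intro i
    induction i with
    | zero =>
      intro _
      refine ⟨by simp, ?_⟩
      have : 1 ≤ (2 * (d : ℝ)) ^ n := one_le_pow₀ (by linarith)
      nlinarith
    | succ i ih =>
      intro hi
      obtain ⟨h1, h2⟩ := ih (by omega)
      have h3 : |(x 0 : ℝ)| ≤ (2 * (d : ℝ)) ^ (i + 1) * |(x (i + 1) : ℝ)| := by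
        obtain ⟨⟨h3, h4, -⟩, h5, h6⟩ := h i (by omega)
        have e1 : (d : ℝ) * x (i + 1) = m i * x i + b * r i := by exact_mod_cast h6
        have hr : |(r i : ℝ)| ≤ R := by exact_mod_cast h5
        have hm : (1 : ℝ) ≤ m i := by exact_mod_cast h3
        have e2 : |(x i : ℝ)| ≤ 2 * ((d : ℝ) * |(x (i + 1) : ℝ)|) := by
          have e5 : |(x i : ℝ)| ≤ |(m i : ℝ) * x i| := by
            rw [abs_mul, abs_of_nonneg (by linarith : (0 : ℝ) ≤ (m i : ℝ))]
            nlinarith [abs_nonneg (x i : ℝ)]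
          have e6 : |(m i : ℝ) * x i| ≤ |(d : ℝ) * x (i + 1)| + |(b : ℝ) * r i| := by
            have : (m i : ℝ) * x i = (d : ℝ) * x (i + 1) - b * r i := by linarith
            rw [this]
            exact abs_sub _ _
          have e7 : |(b : ℝ) * r i| ≤ |(x i : ℝ)| / 2 := by
            rw [abs_mul]
            calc |(b : ℝ)| * |(r i : ℝ)| ≤ |(b : ℝ)| * R := by gcongr
              _ ≤ ν / 2 := hb
              _ ≤ _ := by linarith
          rw [abs_mul (d : ℝ), abs_of_nonneg (by linarith : (0 : ℝ) ≤ (d : ℝ))] at e6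
          linarith
        calc |(x 0 : ℝ)| ≤ (2 * (d : ℝ)) ^ i * |(x i : ℝ)| := h1
          _ ≤ (2 * (d : ℝ)) ^ i * (2 * ((d : ℝ) * |(x (i + 1) : ℝ)|)) := by gcongr
          _ = _ := by rw [pow_succ]; ring
      refine ⟨h3, ?_⟩
      have h4 : (2 * (d : ℝ)) ^ (i + 1) ≤ (2 * (d : ℝ)) ^ n :=
        pow_le_pow_right₀ (by linarith) hi
      have h5 : (2 * (d : ℝ)) ^ n * ν ≤ (2 * (d : ℝ)) ^ n * |(x (i + 1) : ℝ)| :=
        (hν.trans h3).trans (by gcongr)
      exact le_of_mul_le_mul_left h5 (by positivity)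
  exact fun i hi => (key i hi).2

/-- the bound for the number of terms in a window -/
noncomputable def kk (κ β : ℝ) : ℕ := ⌊κ / (1 - κ - β)⌋₊ + 1

lemma kk_spec {κ β : ℝ} (h : κ + β < 1) : κ < (1 - κ - β) * kk κ β := by
  have h1 := Nat.lt_floor_add_one (κ / (1 - κ - β))
  rw [div_lt_iff₀ (by linarith)] at h1
  unfold kk
  push_cast
  linarith

/-- **Windows, in terms of the size of the first term.** -/
theorem own_window {S : Finset ℕ} (hS : ∀ p ∈ S, p.Prime) {p d : ℕ} (K R : ℕ) (hp : p.Prime)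
    (hpd : p ∣ d) (hd0 : d ≠ 0) (hdS : ∀ q : ℕ, q.Prime → q ∣ d → q ∈ S)
    (hK : ∀ q : ℕ, q.Prime → q ≤ K → q ∈ S) (e : ℕ) (he : 1 ≤ e) (κ β : ℝ)
    (hκ : 0 ≤ κ) (hβ : 0 ≤ β) (hκβ : κ + β < 1) (hR : 1 ≤ R) :
    ∃ c H : ℝ, 0 < c ∧ 1 < H ∧ ∀ (n : ℕ) (x : ℕ → ℤ) (m : ℕ → ℕ) (r : ℕ → ℤ) (b : ℤ),
      Ch p d K R b n x m r → b ≠ 0 → H ≤ |(x 0 : ℝ)| → |(b : ℝ)| ≤ |(x 0 : ℝ)| ^ β →
      (n : ℝ) ≤ c * Real.log |(x 0 : ℝ)| → ∀ J : Finset ℕ,
      (∀ i ∈ J, i ≤ n ∧ ¬ (p : ℤ) ∣ x i ∧ Pw S e (|(x i : ℝ)| ^ κ) (x i)) →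
      J.card ≤ kk κ β ^ 2 := by
  obtain ⟨k, hk⟩ : ∃ k, k = kk κ β := ⟨_, rfl⟩
  have hk1 : 1 ≤ k := by rw [hk]; unfold kk; omega
  have hkβ : κ < (1 - κ - β) * k := by rw [hk]; exact kk_spec hκβ
  rw [← hk]
  have hk0 : (0 : ℝ) < k := by exact_mod_cast hk1
  set θ : ℝ := (1 - κ - β) * k - κ with hθ
  have hθ0 : 0 < θ := by linarith
  set D : ℝ := 2 * (k + κ * k + κ + 1) with hD
  have hD0 : 0 < D := by
    have : 0 ≤ κ * k := by positivity
    rw [hD]; linarith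
  set τ : ℝ := min (1 / 2) (θ / D) with hτ
  have hτ0 : 0 < τ := lt_min (by norm_num) (by positivity)
  have hτ1 : τ ≤ 1 / 2 := min_le_left _ _
  have hτθ : τ * D ≤ θ := by
    have := min_le_right (1 / 2) (θ / D)
    calc τ * D ≤ θ / D * D := by gcongr
      _ = θ := by field_simp
  have h1τ : 0 < 1 - τ := by linarith
  set κ' : ℝ := κ * (1 + τ) / (1 - τ) with hκ'
  set β' : ℝ := β / (1 - τ) with hβ'
  have hκ'0 : 0 ≤ κ' := by positivity
  have hβ'0 : 0 ≤ β' := by positivity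
  have hcond : κ' < (1 - κ' - β') * k := by
    have h1 : 0 < ((1 - κ' - β') * k - κ') * (1 - τ) := by
      have e1 : ((1 - κ' - β') * k - κ') * (1 - τ) =
          θ - τ * (k + κ * k + κ) := by
        rw [hκ', hβ', hθ]
        field_simp
        ring
      rw [e1]
      have : τ * (k + κ * k + κ) < τ * D := by
        apply mul_lt_mul_of_pos_left _ hτ0
        have : 0 ≤ κ * k := by positivity
        rw [hD]; linarith
      linarith
    have h2 := (pos_iff_pos_of_mul_pos h1).2 h1τ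
    linarith
  have hβτ : β < 1 - τ := by
    have h1 : β' < 1 := by
      by_contra h
      push Not at h
      nlinarith
    rw [hβ', div_lt_one h1τ] at h1
    exact h1
  have hd1 : (1 : ℝ) ≤ d := by exact_mod_cast Nat.one_le_iff_ne_zero.2 hd0
  have hK0 : (0 : ℝ) ≤ K := Nat.cast_nonneg _
  set LD : ℝ := Real.log (2 * d) with hLD
  set LK : ℝ := Real.log (K + 1) with hLK
  have hLD0 : 0 ≤ LD := Real.log_nonneg (by linarith)
  have hLK0 : 0 ≤ LK := Real.log_nonneg (by linarith)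
  set c : ℝ := τ / (LD + LK + 1) with hc
  have hc0 : 0 < c := by positivity
  obtain ⟨μ₀, hμ₀, hwin⟩ := window hS K R hp hpd hd0 hdS hK e k he hk1 κ' β' (c / (1 - τ))
    hκ'0 hβ'0 hcond (by positivity) hR
  have hev : ∀ᶠ X : ℝ in atTop, 1 < X ∧ μ₀ ≤ X ^ (1 - τ) ∧ 2 * R ≤ X ^ (1 - τ - β) :=
    (eventually_gt_atTop 1).and (((tendsto_rpow_atTop h1τ).eventually_ge_atTop _).and
      ((tendsto_rpow_atTop (by linarith)).eventually_ge_atTop _))
  obtain ⟨H₁, hH₁⟩ := eventually_atTop.1 hev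
  refine ⟨c, max H₁ 2, hc0, lt_of_lt_of_le one_lt_two (le_max_right _ _), ?_⟩
  intro n x m r b hch hb0 hH hbβ hn J hJ
  obtain ⟨hX1, hXμ, hXR⟩ := hH₁ _ ((le_max_left _ _).trans hH)
  set X : ℝ := |(x 0 : ℝ)| with hX
  have hX0 : 0 < X := by linarith
  have hlX : 0 ≤ Real.log X := Real.log_nonneg hX1.le
  set ν : ℝ := X ^ (1 - τ) with hν
  have hν0 : 0 < ν := Real.rpow_pos_of_pos hX0 _
  have hnτ : (n : ℝ) * (LD + LK + 1) ≤ τ * Real.log X := by
    calc (n : ℝ) * (LD + LK + 1) ≤ (c * Real.log X) * (LD + LK + 1) := by gcongr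
      _ = _ := by rw [hc]; field_simp
  have hn0 : (0 : ℝ) ≤ n := Nat.cast_nonneg _
  have hpowD : (2 * (d : ℝ)) ^ n ≤ X ^ τ := by
    have h6 : (2 * (d : ℝ)) ^ n = Real.exp (LD * n) := by
      rw [hLD, ← Real.rpow_natCast, Real.rpow_def_of_pos (by positivity)]
    rw [h6, Real.rpow_def_of_pos hX0]
    apply Real.exp_le_exp.2
    nlinarith
  have hpowK : ∀ i ≤ n, ((K : ℝ) + 1) ^ i ≤ X ^ τ := by
    intro i hi
    have h6 : ((K : ℝ) + 1) ^ i = Real.exp (LK * i) := by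
      rw [hLK, ← Real.rpow_natCast, Real.rpow_def_of_pos (by positivity)]
    rw [h6, Real.rpow_def_of_pos hX0]
    apply Real.exp_le_exp.2
    have : (i : ℝ) ≤ n := by exact_mod_cast hi
    have : LK * i ≤ LK * n := by gcongr
    nlinarith
  have hbR : |(b : ℝ)| * R ≤ ν / 2 := by
    have h3 : X ^ β * X ^ (1 - τ - β) = ν := by
      rw [← Real.rpow_add hX0, hν]; congr 1; ring
    calc |(b : ℝ)| * R ≤ X ^ β * R := by gcongr
      _ ≤ X ^ β * (X ^ (1 - τ - β) / 2) := by gcongr; linarith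
      _ = _ := by rw [← mul_div_assoc, h3]
  have hmin : ∀ i ≤ n, ν ≤ |(x i : ℝ)| := decay2 hch hd0 hbR (by
    calc (2 * (d : ℝ)) ^ n * ν ≤ X ^ τ * X ^ (1 - τ) := by gcongr
      _ = X := by rw [← Real.rpow_add hX0]; simp) hν0
  have hgr := growth hch hd0 hmin (by linarith)
  refine hwin n x m r b ν hch hb0 hXμ ?_ ?_ hmin J ?_
  · rw [hν, ← Real.rpow_mul hX0.le, hβ']
    have : (1 - τ) * (β / (1 - τ)) = β := by field_simp
    rw [this]
    exact hbβ
  · rw [hν, Real.log_rpow hX0]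
    calc (n : ℝ) ≤ c * Real.log X := hn
      _ = _ := by field_simp
  · intro i hi
    obtain ⟨h5, h6, h7⟩ := hJ i hi
    refine ⟨h5, h6, h7.mono (Subset.refl _) ?_⟩
    have h8 : |(x i : ℝ)| ≤ X ^ (1 + τ) := by
      calc |(x i : ℝ)| ≤ ((K : ℝ) + 1) ^ i * X := hgr i h5
        _ ≤ X ^ τ * X ^ (1 : ℝ) := by
            rw [Real.rpow_one]
            gcongr
            exact hpowK i h5
        _ = _ := by rw [← Real.rpow_add hX0]; congr 1; ring
    calc |(x i : ℝ)| ^ κ ≤ (X ^ (1 + τ)) ^ κ := Real.rpow_le_rpow (abs_nonneg _) h8 hκ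
      _ = ν ^ κ' := by
          rw [hν, ← Real.rpow_mul hX0.le, ← Real.rpow_mul hX0.le, hκ']
          congr 1
          field_simp

lemma growth2 {p d K R : ℕ} {b : ℤ} {n : ℕ} {x : ℕ → ℤ} {m : ℕ → ℕ} {r : ℕ → ℤ}
    (h : Ch p d K R b n x m r) (hd0 : d ≠ 0) : ∀ i ≤ n,
    |(x i : ℝ)| ≤ ((K : ℝ) + 1) ^ i * (|(x 0 : ℝ)| + |(b : ℝ)| * R) - |(b : ℝ)| * R := by
  have hbR : 0 ≤ |(b : ℝ)| * R := by positivity
  intro i
  induction i with
  | zero => intro _; simp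
  | succ i ih =>
    intro hi
    have h1 := ih (by omega)
    obtain ⟨⟨h3, h4, -⟩, h5, h6⟩ := h i (by omega)
    have e1 : (d : ℝ) * x (i + 1) = m i * x i + b * r i := by exact_mod_cast h6
    have hd1 : (1 : ℝ) ≤ d := by exact_mod_cast Nat.one_le_iff_ne_zero.2 hd0
    have hr : |(r i : ℝ)| ≤ R := by exact_mod_cast h5
    have hm : (m i : ℝ) ≤ K := by exact_mod_cast h4
    have e2 : |(x (i + 1) : ℝ)| ≤ (d : ℝ) * |(x (i + 1) : ℝ)| := by
      have := abs_nonneg (x (i + 1) : ℝ)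
      nlinarith
    have e3 : (d : ℝ) * |(x (i + 1) : ℝ)| ≤ (K : ℝ) * |(x i : ℝ)| + |(b : ℝ)| * R := by
      calc (d : ℝ) * |(x (i + 1) : ℝ)| = |(m i : ℝ) * x i + b * r i| := by
            rw [← e1, abs_mul, abs_of_nonneg (by linarith : (0 : ℝ) ≤ (d : ℝ))]
        _ ≤ |(m i : ℝ) * x i| + |(b : ℝ) * r i| := abs_add_le _ _
        _ = (m i : ℝ) * |(x i : ℝ)| + |(b : ℝ)| * |(r i : ℝ)| := by
            rw [abs_mul, abs_mul, abs_of_nonneg (Nat.cast_nonneg (m i) : (0 : ℝ) ≤ (m i : ℝ))]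
        _ ≤ _ := by gcongr
    have e4 := abs_nonneg (x i : ℝ)
    have e6 : (1 : ℝ) ≤ K := by exact_mod_cast (by omega : 1 ≤ K)
    have e5 : 1 ≤ ((K : ℝ) + 1) ^ i := one_le_pow₀ (by linarith)
    have e7 := mul_le_mul_of_nonneg_left h1 (by linarith : (0 : ℝ) ≤ K)
    have e8 : 1 * (|(b : ℝ)| * R) ≤ ((K : ℝ) + 1) ^ i * (|(b : ℝ)| * R) := by gcongr
    have e9 : 0 ≤ ((K : ℝ) + 1) ^ i * |(x 0 : ℝ)| := by positivity
    have e10 : 1 * (|(b : ℝ)| * R) ≤ K * (|(b : ℝ)| * R) := by gcongr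
    rw [pow_succ]
    nlinarith

/-- double counting: a family of windows each of which contains few members of the family -/
lemma windows_mass (J : Finset ℕ) (L : ℕ → ℕ) (B M : ℕ)
    (hJ : ∀ s ∈ J, (J.filter (fun i => s ≤ i ∧ i ≤ s + L s)).card ≤ B)
    (hM : ∀ s ∈ J, s + L s < M) : ∑ s ∈ J, (L s + 1) ≤ B * M := by
  have h1 : ∑ s ∈ J, (L s + 1) = ∑ t ∈ range M, (J.filter (fun s => s ≤ t ∧ t ≤ s + L s)).card := by
    have h2 : ∀ s ∈ J, L s + 1 = ((range M).filter (fun t => s ≤ t ∧ t ≤ s + L s)).card := by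
      intro s hs
      have h3 : (range M).filter (fun t => s ≤ t ∧ t ≤ s + L s) = Icc s (s + L s) := by
        ext t
        rw [mem_filter, mem_range, mem_Icc]
        have := hM s hs
        constructor
        · rintro ⟨-, h⟩; exact h
        · intro h; exact ⟨by omega, h⟩
      rw [h3, Nat.card_Icc]
      omega
    rw [Finset.sum_congr rfl h2]
    simp only [Finset.card_filter]
    rw [Finset.sum_comm]
  rw [h1]
  calc ∑ t ∈ range M, (J.filter (fun s => s ≤ t ∧ t ≤ s + L s)).card ≤ ∑ _t ∈ range M, B := by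
        refine Finset.sum_le_sum fun t _ => ?_
        rcases (J.filter (fun s => s ≤ t ∧ t ≤ s + L s)).eq_empty_or_nonempty with h2 | h2
        · rw [h2]; simp
        · set s := (J.filter (fun s => s ≤ t ∧ t ≤ s + L s)).min' h2 with hs
          have h3 : s ∈ J ∧ s ≤ t ∧ t ≤ s + L s := mem_filter.1 (min'_mem _ h2)
          refine le_trans (card_le_card ?_) (hJ s h3.1)
          intro i hi
          have h4 := min'_le _ i hi
          rw [mem_filter] at hi ⊢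
          refine ⟨hi.1, h4, ?_⟩
          have := h3.2.2
          omega
    _ = _ := by rw [Finset.sum_const, card_range, smul_eq_mul, mul_comm]

open scoped Classical in
/-- **The mass inequality.** -/
theorem mass {S : Finset ℕ} (hS : ∀ p ∈ S, p.Prime) {p d : ℕ} (K R : ℕ) (hp : p.Prime)
    (hpd : p ∣ d) (hd0 : d ≠ 0) (hdS : ∀ q : ℕ, q.Prime → q ∣ d → q ∈ S)
    (hK : ∀ q : ℕ, q.Prime → q ≤ K → q ∈ S) (e : ℕ) (he : 1 ≤ e) (κ : ℝ)
    (hκ : 0 ≤ κ) (hκ1 : κ < 1) (hR : 1 ≤ R) :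
    ∃ C : ℝ, 1 ≤ C ∧ ∀ (x : ℕ → ℤ) (m : ℕ → ℕ) (r : ℕ → ℤ) (b : ℤ),
      (∀ n, Ch p d K R b n x m r) → b ≠ 0 → ∀ n : ℕ,
      ∑ i ∈ (range n).filter (fun i => ¬ (p : ℤ) ∣ x i ∧ Pw S e (|(x i : ℝ)| ^ κ) (x i)),
        Real.log |(x i : ℝ)| ≤
          C * (n * (1 + Real.log |(b : ℝ)|) + Real.log (1 + |(x 0 : ℝ)|)) := by
  set β : ℝ := (1 - κ) / 2 with hβ
  have hβ0 : 0 < β := by linarith
  obtain ⟨c, H, hc, hH, hwin⟩ := own_window hS K R hp hpd hd0 hdS hK e he κ β hκ hβ0.le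
    (by linarith) hR
  set B : ℕ := kk κ β ^ 2 with hB
  have hK0 : (0 : ℝ) ≤ K := Nat.cast_nonneg _
  set LK : ℝ := Real.log (K + 1) with hLK
  have hLK0 : 0 ≤ LK := Real.log_nonneg (by linarith)
  have hR1 : (1 : ℝ) ≤ R := by exact_mod_cast hR
  set LR : ℝ := Real.log (1 + R) with hLR
  have hLR0 : 0 ≤ LR := Real.log_nonneg (by linarith)
  have hlH : 0 < Real.log H := Real.log_pos hH
  set C : ℝ := 1 + (Real.log H + 1 / β) + (B : ℝ) / c * (2 + c * (LK + LR + 1)) with hC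
  have hC1 : 1 ≤ C := by
    have : 0 ≤ (B : ℝ) / c * (2 + c * (LK + LR + 1)) := by positivity
    have : 0 ≤ 1 / β := by positivity
    linarith
  refine ⟨C, hC1, ?_⟩
  intro x m r b hch hb0 n
  have hb1 : (1 : ℝ) ≤ |(b : ℝ)| := by
    have : 1 ≤ |b| := Int.one_le_abs hb0
    exact_mod_cast this
  have hlb : 0 ≤ Real.log |(b : ℝ)| := Real.log_nonneg hb1
  set X : ℝ := Real.log (1 + |(x 0 : ℝ)|) with hX
  have hX0 : 0 ≤ X := Real.log_nonneg (by linarith [abs_nonneg (x 0 : ℝ)])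
  rcases Nat.eq_zero_or_pos n with hn | hn
  · rw [hn]
    simp only [range_zero, filter_empty, sum_empty, Nat.cast_zero, zero_mul, zero_add]
    positivity
  have hn1 : (1 : ℝ) ≤ n := by exact_mod_cast hn
  set I := (range n).filter (fun i => ¬ (p : ℤ) ∣ x i ∧ Pw S e (|(x i : ℝ)| ^ κ) (x i)) with hI
  set J := I.filter (fun i => H ≤ |(x i : ℝ)| ∧ |(b : ℝ)| ≤ |(x i : ℝ)| ^ β) with hJ
  have hx1 : ∀ i ∈ I, (1 : ℝ) ≤ |(x i : ℝ)| := by
    intro i hi
    have h1 := (mem_filter.1 hi).2.1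
    have h2 : x i ≠ 0 := by rintro h0; rw [h0] at h1; exact h1 (dvd_zero _)
    have : 1 ≤ |x i| := Int.one_le_abs h2
    exact_mod_cast this
  -- the small terms
  have hsm : ∑ i ∈ I.filter (fun i => ¬ (H ≤ |(x i : ℝ)| ∧ |(b : ℝ)| ≤ |(x i : ℝ)| ^ β)),
      Real.log |(x i : ℝ)| ≤ n * (Real.log H + 1 / β * Real.log |(b : ℝ)|) := by
    have h1 : ∀ i ∈ I.filter (fun i => ¬ (H ≤ |(x i : ℝ)| ∧ |(b : ℝ)| ≤ |(x i : ℝ)| ^ β)),
        Real.log |(x i : ℝ)| ≤ Real.log H + 1 / β * Real.log |(b : ℝ)| := by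
      intro i hi
      obtain ⟨h2, h3⟩ := mem_filter.1 hi
      have h4 := hx1 i h2
      have h7 : 0 ≤ 1 / β * Real.log |(b : ℝ)| := by positivity
      rcases lt_or_ge |(x i : ℝ)| H with h5 | h5
      · have h6 := Real.log_le_log (by linarith) h5.le
        linarith
      · have h6 : |(x i : ℝ)| ^ β < |(b : ℝ)| := by
          by_contra h
          push Not at h
          exact h3 ⟨h5, h⟩
        have h8 := Real.log_le_log (Real.rpow_pos_of_pos (by linarith) _) h6.le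
        rw [Real.log_rpow (by linarith)] at h8
        have h9 : Real.log |(x i : ℝ)| ≤ 1 / β * Real.log |(b : ℝ)| := by
          rw [div_mul_eq_mul_div, one_mul, le_div_iff₀ hβ0]
          linarith
        linarith
    refine (Finset.sum_le_card_nsmul _ _ _ h1).trans ?_
    rw [nsmul_eq_mul]
    have h2 : ((I.filter (fun i => ¬ (H ≤ |(x i : ℝ)| ∧ |(b : ℝ)| ≤ |(x i : ℝ)| ^ β))).card : ℝ)
        ≤ n := by
      have h3 := (card_filter_le I (fun i => ¬ (H ≤ |(x i : ℝ)| ∧ |(b : ℝ)| ≤ |(x i : ℝ)| ^ β))).trans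
        (card_filter_le (range n) _)
      rw [card_range] at h3
      exact_mod_cast h3
    gcongr
  -- the large terms
  set L : ℕ → ℕ := fun i => ⌊c * Real.log |(x i : ℝ)|⌋₊ with hL
  have hlg : ∀ i ∈ I, Real.log |(x i : ℝ)| ≤ n * LK + X + (Real.log |(b : ℝ)| + LR) := by
    intro i hi
    have h1 := growth2 (hch n) hd0 i (mem_range.1 (mem_filter.1 hi).1).le
    have h2 : |(x i : ℝ)| ≤ ((K : ℝ) + 1) ^ n * ((1 + |(x 0 : ℝ)|) * (|(b : ℝ)| * (1 + R))) := by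
      have e1 : ((K : ℝ) + 1) ^ i ≤ ((K : ℝ) + 1) ^ n :=
        pow_le_pow_right₀ (by linarith) (mem_range.1 (mem_filter.1 hi).1).le
      have e2 : |(x 0 : ℝ)| + |(b : ℝ)| * R ≤ (1 + |(x 0 : ℝ)|) * (|(b : ℝ)| * (1 + R)) := by
        have e3 := abs_nonneg (x 0 : ℝ)
        have e4 : 1 ≤ |(b : ℝ)| * (1 + R) := by nlinarith
        have e5 : |(x 0 : ℝ)| * 1 ≤ |(x 0 : ℝ)| * (|(b : ℝ)| * (1 + R)) := by gcongr
        nlinarith
      calc |(x i : ℝ)| ≤ ((K : ℝ) + 1) ^ i * (|(x 0 : ℝ)| + |(b : ℝ)| * R) := by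
            have : 0 ≤ |(b : ℝ)| * R := by positivity
            linarith
        _ ≤ _ := by gcongr
    have h3 := Real.log_le_log (by linarith [hx1 i hi]) h2
    rw [Real.log_mul (by positivity) (by positivity), Real.log_mul (by positivity) (by positivity),
      Real.log_mul (by positivity) (by positivity), Real.log_pow] at h3
    linarith
  set M : ℕ := n + (⌊c * (n * LK + X + (Real.log |(b : ℝ)| + LR))⌋₊ + 1) with hM
  have hwm := windows_mass J L B M (fun s hs => by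
    obtain ⟨hsI, hsH, hsb⟩ := mem_filter.1 hs
    set F := J.filter (fun i => s ≤ i ∧ i ≤ s + L s) with hF
    have h1 := hwin (L s) (fun i => x (s + i)) (fun i => m (s + i)) (fun i => r (s + i)) b
      ((hch (s + L s)).shift s (L s) le_rfl) hb0 (by simpa using hsH) (by simpa using hsb)
      (by
        simp only [add_zero, hL]
        exact Nat.floor_le (mul_nonneg hc.le (Real.log_nonneg (hx1 s hsI))))
      (F.image (fun i => i - s)) (by
        intro i hi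
        obtain ⟨j, hj, rfl⟩ := mem_image.1 hi
        obtain ⟨hjJ, hj1, hj2⟩ := mem_filter.1 hj
        have hjI := (mem_filter.1 hjJ).1
        have e1 : s + (j - s) = j := by omega
        simp only [e1]
        exact ⟨by omega, (mem_filter.1 hjI).2⟩)
    rw [card_image_of_injOn] at h1
    · exact h1
    · intro i hi j hj hij
      have h2 := (mem_filter.1 (mem_coe.1 hi)).2.1
      have h3 := (mem_filter.1 (mem_coe.1 hj)).2.1
      simp only at hij
      omega) (fun s hs => by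
    have hsI := (mem_filter.1 hs).1
    have h1 : L s ≤ ⌊c * (n * LK + X + (Real.log |(b : ℝ)| + LR))⌋₊ := by
      apply Nat.floor_le_floor
      have := hlg s hsI
      gcongr
    have h2 := mem_range.1 (mem_filter.1 hsI).1
    omega)
  have hJsum : c * ∑ i ∈ J, Real.log |(x i : ℝ)| ≤ (B : ℝ) * M := by
    have h1 : c * ∑ i ∈ J, Real.log |(x i : ℝ)| ≤ ((∑ s ∈ J, (L s + 1) : ℕ) : ℝ) := by
      rw [Finset.mul_sum]
      push_cast
      exact Finset.sum_le_sum fun i _ => (Nat.lt_floor_add_one _).le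
    exact h1.trans (by exact_mod_cast hwm)
  have hMle : (M : ℝ) ≤ 2 * n + c * (n * LK + X + (Real.log |(b : ℝ)| + LR)) := by
    have h1 : ((⌊c * (n * LK + X + (Real.log |(b : ℝ)| + LR))⌋₊ : ℕ) : ℝ) ≤
        c * (n * LK + X + (Real.log |(b : ℝ)| + LR)) := Nat.floor_le (by positivity)
    rw [hM]
    push_cast
    linarith
  have hJ2 : ∑ i ∈ J, Real.log |(x i : ℝ)| ≤
      (B : ℝ) / c * (2 + c * (LK + LR + 1)) * (n * (1 + Real.log |(b : ℝ)|) + X) := by
    have h1 : 2 * n + c * (n * LK + X + (Real.log |(b : ℝ)| + LR)) ≤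
        (2 + c * (LK + LR + 1)) * (n * (1 + Real.log |(b : ℝ)|) + X) := by
      have e0 : (0 : ℝ) ≤ n := by linarith
      have e1 : Real.log |(b : ℝ)| ≤ n * Real.log |(b : ℝ)| := by nlinarith
      have e2 : LR ≤ n * LR := by nlinarith
      have e3 : n * LK + X + (Real.log |(b : ℝ)| + LR) ≤
          (LK + LR + 1) * (n * (1 + Real.log |(b : ℝ)|) + X) := by
        have p1 : 0 ≤ n * Real.log |(b : ℝ)| := by positivity
        nlinarith [mul_nonneg hLK0 p1, mul_nonneg hLR0 p1, mul_nonneg hLK0 hX0,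
          mul_nonneg hLR0 hX0]
      have e4 : 2 * (n : ℝ) ≤ 2 * (n * (1 + Real.log |(b : ℝ)|) + X) := by
        have p1 : 0 ≤ n * Real.log |(b : ℝ)| := by positivity
        linarith
      calc 2 * n + c * (n * LK + X + (Real.log |(b : ℝ)| + LR))
          ≤ 2 * (n * (1 + Real.log |(b : ℝ)|) + X) +
            c * ((LK + LR + 1) * (n * (1 + Real.log |(b : ℝ)|) + X)) := by gcongr
        _ = _ := by ring
    have h2 : c * ∑ i ∈ J, Real.log |(x i : ℝ)| ≤
        (B : ℝ) * ((2 + c * (LK + LR + 1)) * (n * (1 + Real.log |(b : ℝ)|) + X)) := by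
      refine hJsum.trans ?_
      gcongr
      exact hMle.trans h1
    calc ∑ i ∈ J, Real.log |(x i : ℝ)| = (c * ∑ i ∈ J, Real.log |(x i : ℝ)|) / c := by
          field_simp
      _ ≤ ((B : ℝ) * ((2 + c * (LK + LR + 1)) * (n * (1 + Real.log |(b : ℝ)|) + X))) / c := by
          gcongr
      _ = _ := by ring
  rw [← Finset.sum_filter_add_sum_filter_not I (fun i => H ≤ |(x i : ℝ)| ∧
    |(b : ℝ)| ≤ |(x i : ℝ)| ^ β)]
  have h3 : (n : ℝ) * (Real.log H + 1 / β * Real.log |(b : ℝ)|) ≤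
      (Real.log H + 1 / β) * (n * (1 + Real.log |(b : ℝ)|) + X) := by
    have p1 : 0 ≤ n * Real.log |(b : ℝ)| := by positivity
    have p2 : 0 ≤ 1 / β := by positivity
    nlinarith [mul_nonneg hlH.le p1, mul_nonneg hlH.le hX0, mul_nonneg p2 hX0,
      mul_nonneg p2 (by linarith : (0 : ℝ) ≤ n)]
  have h4 : 0 ≤ n * (1 + Real.log |(b : ℝ)|) + X := by positivity
  calc _ ≤ (B : ℝ) / c * (2 + c * (LK + LR + 1)) * (n * (1 + Real.log |(b : ℝ)|) + X) +
        (Real.log H + 1 / β) * (n * (1 + Real.log |(b : ℝ)|) + X) :=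
        add_le_add hJ2 (hsm.trans h3)
    _ ≤ C * (n * (1 + Real.log |(b : ℝ)|) + X) := by
        rw [hC]
        nlinarith

end Pool.Agent.U773.PW
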