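import Mathlib
import Pool.Agent.U773.PW.Own
import Pool.Agent.U773.PW.TmC

/-! The maps `x ↦ x / 2`, `x ↦ (a x + b) / 2`: dips and the mass inequality. -/

set_option autoImplicit false

namespace Pool.Agent.U773.PW

open Finset Function Pool.Agent.U773.SP

open scoped Classical

lemma log_int_nonneg (x : ℤ) : 0 ≤ Real.log |(x : ℝ)| := by
  rcases eq_or_ne x 0 with rfl | h
  · simp
  · apply Real.log_nonneg
    have : 1 ≤ |x| := Int.one_le_abs h
    exact_mod_cast this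

theorem dip_T (a : ℕ) (ha : a % 2 = 1) (S : Finset ℕ) (e k : ℕ) (he : 1 ≤ e) (hk : 1 ≤ k)
    (ε : ℝ) (hε : 0 < ε) :
    ∃ C : ℝ, 1 ≤ C ∧ ∀ (b x : ℤ) (n : ℕ) (Y : ℝ), b % 2 = 1 →
      k ^ 2 < ((range (n + 1)).filter (fun i => (Tm a b)^[i] x % 2 = 1 ∧
        Pw S e Y ((Tm a b)^[i] x))).card →
      ∃ i ≤ n, |(((Tm a b)^[i] x : ℤ) : ℝ)| ^ k ≤
        C * |(b : ℝ)| ^ k * Y ^ (k + 1) * Real.exp (ε * (n + Real.log (1 + |(x : ℝ)|))) := by
  obtain ⟨C, hC, h⟩ := dip (bigS_prime a S) (p := 2) (d := 2) a 1 Nat.prime_two (dvd_refl 2)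
    two_ne_zero (fun q hq hqd => bigS_small a S q hq (by
      have := (Nat.prime_dvd_prime_iff_eq hq Nat.prime_two).1 hqd
      omega)) (fun q hq hqa => bigS_small a S q hq (by omega)) e k he hk ε hε
  refine ⟨C, hC, ?_⟩
  intro b x n Y hb hcard
  by_contra hcon
  push Not at hcon
  have hb0 : b ≠ 0 := by rintro rfl; simp at hb
  have hb1 : (0 : ℝ) < |(b : ℝ)| := abs_pos.2 (by exact_mod_cast hb0)
  have hC0 : 0 < C := by linarith
  obtain ⟨i0, hi0⟩ := Finset.card_pos.1 (lt_of_le_of_lt (Nat.zero_le _) hcard)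
  have hY0 : 0 ≤ Y := by
    obtain ⟨u, y, -, -, h3⟩ := (mem_filter.1 hi0).2.2
    exact (abs_nonneg _).trans h3
  -- the least term
  obtain ⟨i1, hi1, hmin⟩ := Finset.exists_min_image (range (n + 1))
    (fun i => |(((Tm a b)^[i] x : ℤ) : ℝ)|) ⟨0, mem_range.2 (Nat.succ_pos n)⟩
  set μ : ℝ := |(((Tm a b)^[i1] x : ℤ) : ℝ)| with hμ
  have h1 := hcon i1 (by have := mem_range.1 hi1; omega)
  have hμ0 : 0 < μ := by
    by_contra hle
    have h2 : μ = 0 := le_antisymm (not_lt.1 hle) (abs_nonneg _)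
    rw [← hμ, h2, zero_pow (by omega)] at h1
    have : 0 ≤ C * |(b : ℝ)| ^ k * Y ^ (k + 1) *
      Real.exp (ε * (n + Real.log (1 + |(x : ℝ)|))) := by positivity
    linarith
  have h2 := h n _ _ _ b μ Y (Ch_T a ha b x hb n) hμ0 (fun i hi => hmin i (mem_range.2 (by omega)))
    ((range (n + 1)).filter (fun i => (Tm a b)^[i] x % 2 = 1 ∧ Pw S e Y ((Tm a b)^[i] x)))
    (by
      intro i hi
      rw [mem_filter, mem_range] at hi
      refine ⟨by omega, ?_, Pw_bigS hi.2.2⟩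
      have := hi.2.1
      simp only [Nat.cast_ofNat]
      omega) hcard
  rw [Nat.cast_one, mul_one, div_pow, div_le_iff₀ (by positivity)] at h2
  simp only [iterate_zero, id_eq] at h2
  rw [← hμ] at h1
  linarith

theorem mass_T (a : ℕ) (ha : a % 2 = 1) (S : Finset ℕ) (e : ℕ) (he : 1 ≤ e) (κ : ℝ)
    (hκ : 0 ≤ κ) (hκ1 : κ < 1) :
    ∃ C : ℝ, 1 ≤ C ∧ ∀ (b x : ℤ) (n : ℕ), b % 2 = 1 →
      ∑ i ∈ (range n).filter (fun i => (Tm a b)^[i] x % 2 = 1 ∧
        Pw S e (|(((Tm a b)^[i] x : ℤ) : ℝ)| ^ κ) ((Tm a b)^[i] x)),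
        Real.log |(((Tm a b)^[i] x : ℤ) : ℝ)| ≤
          C * (n * (1 + Real.log |(b : ℝ)|) + Real.log (1 + |(x : ℝ)|)) := by
  obtain ⟨C, hC, h⟩ := mass (bigS_prime a S) (p := 2) (d := 2) a 1 Nat.prime_two (dvd_refl 2)
    two_ne_zero (fun q hq hqd => bigS_small a S q hq (by
      have := (Nat.prime_dvd_prime_iff_eq hq Nat.prime_two).1 hqd
      omega)) (fun q hq hqa => bigS_small a S q hq (by omega)) e he κ hκ hκ1 le_rfl
  refine ⟨C, hC, ?_⟩
  intro b x n hb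
  have hb0 : b ≠ 0 := by rintro rfl; simp at hb
  have h1 := h _ _ _ b (Ch_T a ha b x hb) hb0 n
  simp only [iterate_zero, id_eq] at h1
  refine le_trans (Finset.sum_le_sum_of_subset_of_nonneg ?_ ?_) h1
  · intro i hi
    rw [mem_filter] at hi ⊢
    refine ⟨hi.1, ?_, Pw_bigS hi.2.2⟩
    have := hi.2.1
    simp only [Nat.cast_ofNat]
    omega
  · intro i _ _
    exact log_int_nonneg _

/-- the number of large terms -/
lemma card_of_mass {J : Finset ℕ} {w : ℕ → ℝ} {t M : ℝ} (ht : 0 < t) (h0 : ∀ i ∈ J, t ≤ w i)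
    (h : ∑ i ∈ J, w i ≤ M) : (J.card : ℝ) ≤ M / t := by
  rw [le_div_iff₀ ht]
  calc (J.card : ℝ) * t = ∑ _i ∈ J, t := by rw [sum_const, nsmul_eq_mul]
    _ ≤ ∑ i ∈ J, w i := sum_le_sum h0
    _ ≤ M := h

/-- among `n` different terms few are small -/
lemma card_small {x : ℕ → ℤ} {n : ℕ} (hinj : ∀ i < n, ∀ k < n, x i = x k → i = k) {J : Finset ℕ}
    (hJ : J ⊆ range n) {B : ℝ} (hB : 1 ≤ B) (h : ∀ i ∈ J, |(x i : ℝ)| < B) :
    (J.card : ℝ) ≤ 3 * B := by
  have h1 : J.card ≤ (Icc (-⌊B⌋) ⌊B⌋).card := by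
    apply card_le_card_of_injOn x
    · intro i hi
      rw [mem_coe, mem_Icc, ← abs_le]
      have h2 := h i hi
      apply Int.le_floor.2
      push_cast
      exact h2.le
    · intro i hi k hk hik
      exact hinj i (mem_range.1 (hJ hi)) k (mem_range.1 (hJ hk)) hik
  have h0 : 0 ≤ ⌊B⌋ := Int.floor_nonneg.2 (by linarith)
  rw [Int.card_Icc] at h1
  have h2 : (⌊B⌋ : ℝ) ≤ B := Int.floor_le B
  have h3 : (((⌊B⌋ + 1 - -⌊B⌋).toNat : ℕ) : ℝ) = 2 * (⌊B⌋ : ℝ) + 1 := by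
    have h4 : (((⌊B⌋ + 1 - -⌊B⌋).toNat : ℕ) : ℤ) = 2 * ⌊B⌋ + 1 := by
      rw [Int.toNat_of_nonneg (by omega)]
      ring
    have h5 : ((((⌊B⌋ + 1 - -⌊B⌋).toNat : ℕ) : ℤ) : ℝ) = ((2 * ⌊B⌋ + 1 : ℤ) : ℝ) := by rw [h4]
    push_cast at h5
    push_cast
    exact h5
  have h4 : (J.card : ℝ) ≤ (((⌊B⌋ + 1 - -⌊B⌋).toNat : ℕ) : ℝ) := by exact_mod_cast h1
  rw [h3] at h4
  linarith

/-- among `n` different terms the number of the terms with small mass -/
lemma count_of_mass {x : ℕ → ℤ} {n : ℕ} (hn : 2 ≤ n)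
    (hinj : ∀ i < n, ∀ k < n, x i = x k → i = k) {J : Finset ℕ} (hJ : J ⊆ range n) {M : ℝ}
    (h : ∑ i ∈ J, Real.log |(x i : ℝ)| ≤ M) :
    (J.card : ℝ) ≤ (6 * n + 2 * M) / Real.log n := by
  have hn1 : (2 : ℝ) ≤ n := by exact_mod_cast hn
  have hln : 0 < Real.log n := Real.log_pos (by linarith)
  set B : ℝ := Real.sqrt n with hB
  have hBB : B * B = n := Real.mul_self_sqrt (by linarith)
  have hB1 : 1 ≤ B := by
    rw [hB]
    exact Real.one_le_sqrt.2 (by linarith)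
  have hlB : Real.log n = 2 * Real.log B := by
    rw [← hBB, Real.log_mul (by linarith) (by linarith)]; ring
  have hlB0 : 0 < Real.log B := by linarith
  have hlB1 : Real.log B ≤ B := (Real.log_le_sub_one_of_pos (by linarith)).trans (by linarith)
  have h1 : ((J.filter (fun i => |(x i : ℝ)| < B)).card : ℝ) ≤ 3 * B :=
    card_small hinj ((filter_subset _ _).trans hJ) hB1 (fun i hi => (mem_filter.1 hi).2)
  have h2 : ((J.filter (fun i => ¬ |(x i : ℝ)| < B)).card : ℝ) ≤ M / Real.log B := by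
    apply card_of_mass hlB0 (w := fun i => Real.log |(x i : ℝ)|)
    · intro i hi
      exact Real.log_le_log (by linarith) (not_lt.1 (mem_filter.1 hi).2)
    · refine le_trans (Finset.sum_le_sum_of_subset_of_nonneg (filter_subset _ _) ?_) h
      intro i _ _
      exact log_int_nonneg _
  have h3 : (J.card : ℝ) = ((J.filter (fun i => |(x i : ℝ)| < B)).card : ℝ) +
      ((J.filter (fun i => ¬ |(x i : ℝ)| < B)).card : ℝ) := by
    rw [← Nat.cast_add, card_filter_add_card_filter_not]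
  rw [h3, le_div_iff₀ hln, hlB]
  have h4 : ((J.filter (fun i => |(x i : ℝ)| < B)).card : ℝ) * (2 * Real.log B) ≤ 6 * n := by
    calc ((J.filter (fun i => |(x i : ℝ)| < B)).card : ℝ) * (2 * Real.log B)
        ≤ (3 * B) * (2 * B) := by gcongr
      _ = 6 * (B * B) := by ring
      _ = _ := by rw [hBB]
  have h5 : ((J.filter (fun i => ¬ |(x i : ℝ)| < B)).card : ℝ) * Real.log B ≤ M := by
    rwa [le_div_iff₀ hlB0] at h2
  linarith

end Pool.Agent.U773.PW
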